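import Pool.Agent.Y827.RO.LamR

/-!
# Clusters of primes at many of a given set of positions
-/

set_option autoImplicit false

namespace Pool.Agent.N743.MT

open Finset Filter Topology
open Pool.Agent.Y827.GS Pool.Agent.Y827.RO

/-- `[y, y + C]` contains at least `k` primes of the residue class `a` modulo `q` -/
def Cluster (q a k C y : ℕ) : Prop :=
  k ≤ ((Icc y (y + C)).filter (fun p => p.Prime ∧ p ≡ a [MOD q])).card

/-- blocks with many elements -/
theorem block_count (Tp L k : ℕ) (S : Finset (Fin Tp × Fin L)) :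
    S.card ≤ ((univ.filter (fun j : Fin Tp => k ≤ (S.filter (fun x => x.1 = j)).card)).card) * L + Tp * k := by
  classical
  have h1 : S.card = ∑ j : Fin Tp, (S.filter (fun x => x.1 = j)).card :=
    Finset.card_eq_sum_card_fiberwise fun x _ => mem_univ _
  rw [h1, ← sum_filter_add_sum_filter_not univ (fun j : Fin Tp => k ≤ (S.filter (fun x => x.1 = j)).card)]
  refine Nat.add_le_add ?_ ?_
  · calc ∑ j ∈ univ.filter (fun j : Fin Tp => k ≤ (S.filter (fun x => x.1 = j)).card),
          (S.filter (fun x => x.1 = j)).card ≤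
        ∑ _j ∈ univ.filter (fun j : Fin Tp => k ≤ (S.filter (fun x => x.1 = j)).card), L := by
          refine sum_le_sum fun j _ => ?_
          have h2 : (S.filter (fun x => x.1 = j)).card ≤ (univ : Finset (Fin L)).card := by
            apply Finset.card_le_card_of_injOn (fun x => x.2) (fun _ _ => mem_univ _)
            intro x hx y hy hxy
            rw [mem_coe, mem_filter] at hx hy
            exact Prod.ext (hx.2.trans hy.2.symm) hxy
          simpa using h2
      _ = _ := by rw [sum_const, smul_eq_mul]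
  · calc ∑ j ∈ univ.filter (fun j : Fin Tp => ¬ k ≤ (S.filter (fun x => x.1 = j)).card),
          (S.filter (fun x => x.1 = j)).card ≤
        ∑ _j ∈ univ.filter (fun j : Fin Tp => ¬ k ≤ (S.filter (fun x => x.1 = j)).card), k := by
          refine sum_le_sum fun j hj => ?_
          have := (mem_filter.1 hj).2
          omega
      _ ≤ ∑ _j : Fin Tp, k := sum_le_sum_of_subset (filter_subset _ _)
      _ = _ := by rw [sum_const, smul_eq_mul, card_univ, Fintype.card_fin]

open Classical in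
/-- **Positions.** At more than `(5 / 18 - ε) Tp` of `Tp` positions there are clusters of `k` primes. -/
theorem positions (k Tp q a : ℕ) (hTp : 1 ≤ Tp) (hq : 1 ≤ q) (ha : a.Coprime q) (ε : ℝ) (hε : 0 < ε) :
    ∃ C D : ℕ, 1 ≤ C ∧ q ∣ C ∧ ∃ c : ℝ, 0 < c ∧ ∀ᶠ N : ℕ in atTop, ∀ u : Fin Tp → ℕ, Function.Injective u →
      (∀ j, C ∣ u j) → (∀ j, 2 * u j ≤ N) → ∃ S : Finset (Fin Tp), (5 / 18 - ε) * Tp ≤ S.card ∧
        c * (N / (Real.log N) ^ D) ≤ (((Icc 1 N).filter (fun n : ℕ => (N : ℝ) / 16 ≤ n ∧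
          ∀ j ∈ S, Cluster q a k C (q * n + a + u j))).card : ℝ) := by
  obtain ⟨L, hL⟩ := exists_nat_ge ((k : ℝ) / ε + 1)
  have hL1 : 1 ≤ L := by
    have h1 : (0 : ℝ) ≤ (k : ℝ) / ε := by positivity
    have : (1 : ℝ) ≤ L := by linarith
    exact_mod_cast this
  have hL0 : (0 : ℝ) < L := by exact_mod_cast hL1
  have hkL : (k : ℝ) ≤ ε * L := by
    have h1 : (k : ℝ) / ε ≤ L := by linarith
    rw [div_le_iff₀ hε] at h1
    linarith
  obtain ⟨T, hT⟩ : ∃ T : ℕ, T = Tp * L := ⟨_, rfl⟩
  have hT1 : 1 ≤ T := by rw [hT]; exact Nat.mul_pos hTp hL1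
  have hTr : (0 : ℝ) < T := by exact_mod_cast hT1
  obtain ⟨M, hM1, hM2⟩ : ∃ M : ℕ, (18 / 5 : ℝ) * M < T ∧ (5 / 18 : ℝ) * T ≤ (M + 1 : ℕ) := by
    refine ⟨⌈(5 / 18 : ℝ) * T⌉₊ - 1, ?_, ?_⟩
    · have h1 : 1 ≤ ⌈(5 / 18 : ℝ) * T⌉₊ := Nat.one_le_ceil_iff.2 (by positivity)
      have h2 : ((⌈(5 / 18 : ℝ) * T⌉₊ - 1 : ℕ) : ℝ) < 5 / 18 * T := by
        have h3 := Nat.ceil_lt_add_one (show (0 : ℝ) ≤ (5 / 18 : ℝ) * T by positivity)
        rw [Nat.cast_sub h1]
        push_cast
        linarith
      linarith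
    · have h1 : 1 ≤ ⌈(5 / 18 : ℝ) * T⌉₊ := Nat.one_le_ceil_iff.2 (by positivity)
      rw [Nat.sub_add_cancel h1]
      exact Nat.le_ceil _
  obtain ⟨K, hK, δ, hδ, hmain⟩ := lamR0 T M hT1 hM1
  obtain ⟨s₀, c, hc, hmain⟩ := hmain q
  obtain ⟨P, hP⟩ : ∃ P : ℕ, P = Nat.factorial (T * K) := ⟨_, rfl⟩
  have hP0 : 0 < P := by rw [hP]; exact Nat.factorial_pos _
  obtain ⟨C, hC⟩ : ∃ C : ℕ, C = q * (P * (L * K)) := ⟨_, rfl⟩
  have hC1 : 1 ≤ C := by
    rw [hC]
    exact Nat.mul_pos hq (Nat.mul_pos hP0 (Nat.mul_pos hL1 hK))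
  refine ⟨C, T * K + 1, hC1, ⟨_, hC⟩, c, hc, ?_⟩
  filter_upwards [hmain, eventually_ge_atTop (2 * (a + C)), eventually_ge_atTop 1] with N hN hN1 hN2
  intro u hu huC huN
  subst hT
  set e : Fin Tp × Fin L ≃ Fin (Tp * L) := finProdFinEquiv with he
  have hut : ∀ j, ∃ w : ℕ, u j = q * (P * (L * K) * w) := by
    intro j
    obtain ⟨w, hw⟩ := huC j
    exact ⟨w, by rw [hw, hC]; ring⟩
  choose w hw using hut
  have hwinj : Function.Injective w := by
    intro i j hij
    apply hu
    rw [hw, hw, hij]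
  -- the shift
  obtain ⟨h, hh⟩ : ∃ h : Fin (Tp * L) → Fin K → ℕ, ∀ g i, h g i =
    P * (L * K * w (e.symm g).1 + ((e.symm g).2 * K + i)) := ⟨_, fun _ _ => rfl⟩
  have hlt : ∀ (l : Fin L) (i : Fin K), (l : ℕ) * K + i < L * K := by
    intro l i
    calc (l : ℕ) * K + i < l * K + K := by omega
      _ = (l + 1) * K := by ring
      _ ≤ L * K := Nat.mul_le_mul_right _ (by omega)
  have hub : ∀ g i, q * h g i ≤ u (e.symm g).1 + C := by
    intro g i
    rw [hh, hw, hC]
    have h1 := hlt (e.symm g).2 i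
    calc q * (P * (L * K * w (e.symm g).1 + ((e.symm g).2 * K + i))) ≤
        q * (P * (L * K * w (e.symm g).1 + L * K)) := by gcongr
      _ = _ := by ring
  obtain ⟨s, S, σ, -, -, -, hS, hcard⟩ := hN (fun g i => ((q : ℤ), (a : ℤ) + q * h g i))
    (by
      rintro ⟨g, i⟩ ⟨g', i'⟩ hgi
      simp only [Prod.mk.injEq, true_and] at hgi
      have hq0 : (q : ℤ) ≠ 0 := by exact_mod_cast (by omega : q ≠ 0)
      have h1 : (q : ℤ) * h g i = q * h g' i' := by linarith
      have h2 : h g i = h g' i' := by exact_mod_cast mul_left_cancel₀ hq0 h1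
      rw [hh, hh] at h2
      have h3 := Nat.eq_of_mul_eq_mul_left hP0 h2
      have h4 := hlt (e.symm g).2 i
      have h5 := hlt (e.symm g').2 i'
      have hLK : 0 < L * K := Nat.mul_pos hL1 hK
      have h6 : w (e.symm g).1 = w (e.symm g').1 := by
        have e1 : (L * K * w (e.symm g).1 + ((e.symm g).2 * K + i)) / (L * K) = w (e.symm g).1 := by
          rw [Nat.mul_add_div hLK, Nat.div_eq_of_lt h4, add_zero]
        have e2 : (L * K * w (e.symm g').1 + ((e.symm g').2 * K + i')) / (L * K) = w (e.symm g').1 := by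
          rw [Nat.mul_add_div hLK, Nat.div_eq_of_lt h5, add_zero]
        rw [← e1, ← e2, h3]
      rw [h6] at h3
      have h7 : ((e.symm g).2 : ℕ) * K + i = (e.symm g').2 * K + i' := by omega
      have h8 : ((e.symm g).2 : ℕ) = (e.symm g').2 := by
        have e1 : (((e.symm g).2 : ℕ) * K + i) / K = (e.symm g).2 := by
          rw [mul_comm, Nat.mul_add_div (by omega), Nat.div_eq_of_lt i.2, add_zero]
        have e2 : (((e.symm g').2 : ℕ) * K + i') / K = (e.symm g').2 := by
          rw [mul_comm, Nat.mul_add_div (by omega), Nat.div_eq_of_lt i'.2, add_zero]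
        rw [← e1, ← e2, h7]
      have h9 : (i : ℕ) = i' := by
        rw [h8] at h7
        omega
      have h10 : e.symm g = e.symm g' := Prod.ext (hwinj h6) (Fin.ext h8)
      exact Prod.ext (e.symm.injective h10) (Fin.ext h9))
    (by
      intro g i
      have hqz : (1 : ℤ) ≤ q := by exact_mod_cast hq
      refine ⟨by omega, by simp, ?_, ?_, ?_⟩
      · have h1 := hub g i
        have h2 := huN (e.symm g).1
        have h3 : a + q * h g i ≤ N := by omega
        show |(a : ℤ) + q * h g i| ≤ (N : ℤ)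
        rw [abs_of_nonneg (by positivity)]
        exact_mod_cast h3
      · show IsCoprime (q : ℤ) ((a : ℤ) + q * h g i)
        exact IsCoprime.add_mul_left_right ((Nat.isCoprime_iff_coprime.2 ha).symm) _
      · intro x hx _
        have h1 : (0 : ℝ) ≤ ((a : ℤ) + (q : ℤ) * (h g i : ℤ) : ℤ) := by positivity
        have h2 : (1 : ℝ) ≤ ((q : ℤ) : ℝ) := by exact_mod_cast hqz
        have h3 : (0 : ℝ) ≤ N := Nat.cast_nonneg N
        have h4 : (N : ℝ) / 16 ≤ ((q : ℤ) : ℝ) * x := by
          have hx0 : 0 ≤ x := le_trans (by positivity) hx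
          nlinarith
        simp only
        linarith)
    (by
      intro p hp hpk
      have hpP : (p : ℤ) ∣ P := by
        rw [hP]
        exact_mod_cast (hp.dvd_factorial.2 hpk)
      have hph : ∀ g i, (p : ℤ) ∣ (q : ℤ) * h g i := by
        intro g i
        rw [hh]
        push_cast
        exact Dvd.dvd.mul_left (Dvd.dvd.mul_right hpP _) _
      by_cases hpa : (p : ℤ) ∣ a
      · refine ⟨1, fun g i hd => ?_⟩
        have h1 : (p : ℤ) ∣ q := by
          have h2 : (q : ℤ) * 1 + ((a : ℤ) + q * h g i) - a - q * h g i = q := by ring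
          rw [← h2]
          exact dvd_sub (dvd_sub hd hpa) (hph g i)
        have h3 : p ∣ Nat.gcd a q := Nat.dvd_gcd (by exact_mod_cast hpa) (by exact_mod_cast h1)
        rw [Nat.Coprime] at ha
        rw [ha] at h3
        exact hp.one_lt.ne' (Nat.dvd_one.1 h3)
      · refine ⟨0, fun g i hd => hpa ?_⟩
        have h2 : (q : ℤ) * 0 + ((a : ℤ) + q * h g i) - q * h g i = a := by ring
        rw [← h2]
        exact dvd_sub hd (hph g i))
  -- the positions
  set S' : Finset (Fin Tp × Fin L) := S.image e.symm with hS'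
  have hS'c : S'.card = S.card := Finset.card_image_of_injective _ e.symm.injective
  refine ⟨univ.filter (fun j : Fin Tp => k ≤ (S'.filter (fun x => x.1 = j)).card), ?_, ?_⟩
  · have h1 := block_count Tp L k S'
    rw [hS'c] at h1
    have h2 : (5 / 18 : ℝ) * (Tp * L) ≤ (((univ.filter (fun j : Fin Tp => k ≤ (S'.filter
        (fun x => x.1 = j)).card)).card : ℕ) : ℝ) * L + Tp * k := by
      have h3 : ((M + 1 : ℕ) : ℝ) ≤ S.card := by exact_mod_cast hS
      have h4 : ((S.card : ℕ) : ℝ) ≤ (((univ.filter (fun j : Fin Tp => k ≤ (S'.filter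
        (fun x => x.1 = j)).card)).card : ℕ) : ℝ) * L + Tp * k := by exact_mod_cast h1
      have h5 : ((Tp * L : ℕ) : ℝ) = Tp * L := by push_cast; ring
      rw [h5] at hM2
      linarith
    have hTp0 : (0 : ℝ) < Tp := by exact_mod_cast hTp
    have h6 : (Tp : ℝ) * k ≤ Tp * (ε * L) := mul_le_mul_of_nonneg_left hkL hTp0.le
    have h7 : (5 / 18 - ε) * Tp * L ≤ (((univ.filter (fun j : Fin Tp => k ≤ (S'.filter
        (fun x => x.1 = j)).card)).card : ℕ) : ℝ) * L := by nlinarith
    exact le_of_mul_le_mul_right h7 hL0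
  · refine hcard.trans ?_
    rw [Nat.cast_le]
    refine card_le_card fun n hn => ?_
    rw [Rs, mem_filter] at hn
    rw [mem_filter]
    refine ⟨hn.1, hn.2.1, fun j hj => ?_⟩
    have hj2 := (mem_filter.1 hj).2
    refine hj2.trans ?_
    refine Finset.card_le_card_of_injOn
      (fun x : Fin Tp × Fin L => q * n + a + q * h (e x) (σ (e x))) ?_ ?_
    · intro x hx
      rw [mem_coe, mem_filter] at hx
      obtain ⟨hx1, hx2⟩ := hx
      have hxS : e x ∈ S := by
        obtain ⟨g, hg, hgx⟩ := mem_image.1 hx1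
        rw [← hgx, Equiv.apply_symm_apply]
        exact hg
      have h1 := hn.2.2.2.2 (e x) hxS
      have h2 : ((q : ℤ) * (n : ℤ) + ((a : ℤ) + q * h (e x) (σ (e x)))).toNat =
          q * n + a + q * h (e x) (σ (e x)) := by
        have h3 : (q : ℤ) * (n : ℤ) + ((a : ℤ) + q * h (e x) (σ (e x))) =
            ((q * n + a + q * h (e x) (σ (e x)) : ℕ) : ℤ) := by push_cast; ring
        rw [h3, Int.toNat_natCast]
      simp only at h1
      rw [h2] at h1
      have h4 := hub (e x) (σ (e x))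
      rw [Equiv.symm_apply_apply, hx2] at h4
      have h5 : u j ≤ q * h (e x) (σ (e x)) := by
        rw [hh, Equiv.symm_apply_apply, hx2, hw]
        calc q * (P * (L * K) * w j) = q * (P * (L * K * w j)) := by ring
          _ ≤ _ := by
            apply Nat.mul_le_mul_left
            apply Nat.mul_le_mul_left
            omega
      rw [mem_coe, mem_filter, mem_Icc]
      beta_reduce
      refine ⟨⟨by omega, by omega⟩, h1, ?_⟩
      show (q * n + a + q * h (e x) (σ (e x))) % q = a % q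
      have h6 : q * n + a + q * h (e x) (σ (e x)) = a + q * (n + h (e x) (σ (e x))) := by ring
      rw [h6, Nat.add_mul_mod_self_left]
    · intro x hx y hy hxy
      rw [mem_coe, mem_filter] at hx hy
      simp only at hxy
      have h1 : q * h (e x) (σ (e x)) = q * h (e y) (σ (e y)) := by omega
      have h2 := Nat.eq_of_mul_eq_mul_left (by omega : 0 < q) h1
      rw [hh, hh, Equiv.symm_apply_apply, Equiv.symm_apply_apply, hx.2, hy.2] at h2
      have h3 := Nat.eq_of_mul_eq_mul_left hP0 h2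
      have h4 : (x.2 : ℕ) * K + (σ (e x) : ℕ) = y.2 * K + (σ (e y) : ℕ) := by omega
      have h5 : (x.2 : ℕ) = y.2 := by
        have e1 : ((x.2 : ℕ) * K + (σ (e x) : ℕ)) / K = x.2 := by
          rw [mul_comm, Nat.mul_add_div (by omega), Nat.div_eq_of_lt (σ (e x)).2, add_zero]
        have e2 : ((y.2 : ℕ) * K + (σ (e y) : ℕ)) / K = y.2 := by
          rw [mul_comm, Nat.mul_add_div (by omega), Nat.div_eq_of_lt (σ (e y)).2, add_zero]
        rw [← e1, ← e2, h4]
      exact Prod.ext (hx.2.trans hy.2.symm) (Fin.ext h5)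

end Pool.Agent.N743.MT
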