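import Pool.Agent.N743.MT.Quarter

/-!
# Clusters of primes in five eighteenths of consecutive intervals between quarter squares
-/

set_option autoImplicit false

namespace Pool.Agent.N743.MT

open Finset Filter Topology

open Classical in
/-- the interval `(⌊i²/4⌋, ⌊(i+1)²/4⌋)` contains at least `c i / (log i) ^ D` numbers `y` such that `[y, y + C]`
is contained in the interval and contains at least `k` primes of the class `a` modulo `q` -/
def Rich (q a k C D : ℕ) (c : ℝ) (i : ℕ) : Prop :=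
  c * (i / Real.log i ^ D) ≤ (((Ioo (Qs i) (Qs (i + 1))).filter
    (fun y => y + C < Qs (i + 1) ∧ Cluster q a k C y)).card : ℝ)

open Classical in
/-- there are few clusters near the ends or in intervals which are not rich -/
theorem bad_count (q a k C D N B Y : ℕ) (c : ℝ) (hc : 0 ≤ c) (hN : 2 ≤ N) :
    (((range Y).filter (fun y => N ≤ ph y ∧ ph y ≤ B ∧ Cluster q a k C y ∧
      ¬ (Qs (ph y) < y ∧ y + C < Qs (ph y + 1) ∧ Rich q a k C D c (ph y)))).card : ℝ) ≤
      (B + 1) * (C + 1 + c * (B / Real.log N ^ D)) := by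
  have hsub : (range Y).filter (fun y => N ≤ ph y ∧ ph y ≤ B ∧ Cluster q a k C y ∧
      ¬ (Qs (ph y) < y ∧ y + C < Qs (ph y + 1) ∧ Rich q a k C D c (ph y))) ⊆
      (Icc N B).biUnion (fun i => (({Qs i} : Finset ℕ) ∪ Ico (Qs (i + 1) - C) (Qs (i + 1))) ∪
        (if Rich q a k C D c i then ∅ else (Ioo (Qs i) (Qs (i + 1))).filter
          (fun y => y + C < Qs (i + 1) ∧ Cluster q a k C y))) := by
    intro y hy
    rw [mem_filter] at hy
    obtain ⟨-, h1, h2, h3, h4⟩ := hy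
    rw [mem_biUnion]
    refine ⟨ph y, mem_Icc.2 ⟨h1, h2⟩, ?_⟩
    have h5 := ph_le y
    have h6 := lt_ph y
    rw [mem_union, mem_union, mem_singleton, mem_Ico]
    by_cases h7 : Qs (ph y) < y
    · by_cases h8 : y + C < Qs (ph y + 1)
      · right
        have h9 : ¬ Rich q a k C D c (ph y) := fun h => h4 ⟨h7, h8, h⟩
        rw [if_neg h9, mem_filter, mem_Ioo]
        exact ⟨⟨h7, h6⟩, h8, h3⟩
      · left; right
        omega
    · left; left
      omega
  have hL : 0 < Real.log N := Real.log_pos (by exact_mod_cast (by omega : 1 < N))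
  have hX : 0 ≤ c * ((B : ℝ) / Real.log N ^ D) := by positivity
  have h1 : ∀ i ∈ Icc N B, (((({Qs i} : Finset ℕ) ∪ Ico (Qs (i + 1) - C) (Qs (i + 1))) ∪
        (if Rich q a k C D c i then ∅ else (Ioo (Qs i) (Qs (i + 1))).filter
          (fun y => y + C < Qs (i + 1) ∧ Cluster q a k C y))).card : ℝ) ≤
      C + 1 + c * (B / Real.log N ^ D) := by
    intro i hi
    rw [mem_Icc] at hi
    have h2 : ((({Qs i} : Finset ℕ) ∪ Ico (Qs (i + 1) - C) (Qs (i + 1)))).card ≤ C + 1 := by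
      refine (card_union_le _ _).trans ?_
      rw [card_singleton, Nat.card_Ico]
      omega
    have h3 : (((if Rich q a k C D c i then ∅ else (Ioo (Qs i) (Qs (i + 1))).filter
          (fun y => y + C < Qs (i + 1) ∧ Cluster q a k C y)) : Finset ℕ).card : ℝ) ≤
          c * (B / Real.log N ^ D) := by
      split_ifs with h4
      · rw [card_empty]
        push_cast
        exact hX
      · unfold Rich at h4
        push Not at h4
        refine h4.le.trans ?_
        have e1 : (i : ℝ) ≤ B := by exact_mod_cast hi.2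
        have e2 : Real.log N ≤ Real.log i := Real.log_le_log (by exact_mod_cast (by omega : 0 < N))
          (by exact_mod_cast hi.1)
        apply mul_le_mul_of_nonneg_left _ hc
        apply div_le_div₀ (Nat.cast_nonneg B) e1 (by positivity)
        exact pow_le_pow_left₀ hL.le e2 D
    have h4 := card_union_le (({Qs i} : Finset ℕ) ∪ Ico (Qs (i + 1) - C) (Qs (i + 1)))
        (if Rich q a k C D c i then ∅ else (Ioo (Qs i) (Qs (i + 1))).filter
          (fun y => y + C < Qs (i + 1) ∧ Cluster q a k C y))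
    have h5 : (((({Qs i} : Finset ℕ) ∪ Ico (Qs (i + 1) - C) (Qs (i + 1))).card +
        (if Rich q a k C D c i then ∅ else (Ioo (Qs i) (Qs (i + 1))).filter
          (fun y => y + C < Qs (i + 1) ∧ Cluster q a k C y) : Finset ℕ).card : ℕ) : ℝ) ≤
        C + 1 + c * (B / Real.log N ^ D) := by
      rw [Nat.cast_add]
      have h6 : (((({Qs i} : Finset ℕ) ∪ Ico (Qs (i + 1) - C) (Qs (i + 1))).card : ℕ) : ℝ) ≤ C + 1 := by
        exact_mod_cast h2
      linarith
    exact le_trans (by exact_mod_cast h4) h5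
  calc (((range Y).filter (fun y => N ≤ ph y ∧ ph y ≤ B ∧ Cluster q a k C y ∧
      ¬ (Qs (ph y) < y ∧ y + C < Qs (ph y + 1) ∧ Rich q a k C D c (ph y)))).card : ℝ) ≤
      ∑ i ∈ Icc N B, (((({Qs i} : Finset ℕ) ∪ Ico (Qs (i + 1) - C) (Qs (i + 1))) ∪
        (if Rich q a k C D c i then ∅ else (Ioo (Qs i) (Qs (i + 1))).filter
          (fun y => y + C < Qs (i + 1) ∧ Cluster q a k C y))).card : ℝ) := by
        have := (card_le_card hsub).trans card_biUnion_le
        exact_mod_cast this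
    _ ≤ ∑ _i ∈ Icc N B, (C + 1 + c * (B / Real.log N ^ D)) := sum_le_sum h1
    _ = ((Icc N B).card : ℝ) * (C + 1 + c * (B / Real.log N ^ D)) := by rw [sum_const, nsmul_eq_mul]
    _ ≤ _ := by
      apply mul_le_mul_of_nonneg_right _ (by positivity)
      rw [Nat.card_Icc]
      have : B + 1 - N ≤ B + 1 := by omega
      exact_mod_cast this

/-- the final inequality -/
theorem final_ineq (I0 I1 Dl Tp l w e0 et q N : ℝ) (hl : 1 ≤ l) (he0 : e0 = 1 / (18 * l)) (het : et = e0 / 8)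
    (hq : 1 ≤ q) (hN : 1 ≤ N) (hI0 : N ≤ I0) (hI01 : I0 ≤ I1) (hI1 : I1 ≤ 9 * q * N) (hD1 : et * N / 2 ≤ Dl)
    (hD2 : Dl ≤ et * N) (hw : 18 * w ≤ 5 * l - 1)
    (hd : (I1 - I0 - 1) * I0 ≤ 2 * (Tp * Dl)) (hTp1 : 1 ≤ Tp)
    (hTp : 8 / e0 * ((2 + l) * (10 * q / et + 1)) ≤ Tp) (hNl : (2 + 2 * Tp) * (8 / e0) ≤ N)
    (h : (5 / 18 - e0 / 4) * Tp ≤ ((I1 - I0 + 1) / l + 1) * w * ((I1 + 1) / (2 * Dl) + 1)) : False := by
  have hl0 : 0 < l := by linarith
  have he : 0 < e0 := by rw [he0]; positivity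
  have he1 : e0 ≤ 1 / 18 := by
    rw [he0]
    apply div_le_div_of_nonneg_left one_pos.le (by norm_num) (by linarith)
  have he0l : e0 * l = 1 / 18 := by
    rw [he0]; field_simp
  have het0 : 0 < et := by rw [het]; positivity
  have het1 : et ≤ 1 := by rw [het]; linarith
  have hDl0 : 0 < Dl := lt_of_lt_of_le (by positivity) hD1
  have hI00 : 0 < I0 := by linarith
  have hTp0 : 0 < Tp := by linarith
  -- `d = I1 - I0`
  obtain ⟨d, hdd⟩ : ∃ d : ℝ, d = I1 - I0 := ⟨_, rfl⟩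
  have hd0 : 0 ≤ d := by linarith
  have hd1 : d ≤ 1 + 2 * (Tp * Dl) / I0 := by
    have h1 : (d - 1) ≤ 2 * (Tp * Dl) / I0 := by
      rw [le_div_iff₀ hI00]
      rw [hdd]
      linarith
    linarith
  have hDI : Dl / I0 ≤ et := by
    rw [div_le_iff₀ hI00]
    have : et * N ≤ et * I0 := mul_le_mul_of_nonneg_left hI0 het0.le
    linarith
  have hDI0 : 0 ≤ Dl / I0 := by positivity
  have hd2 : d ≤ 1 + 2 * Tp := by
    have h1 : 2 * (Tp * Dl) / I0 = 2 * Tp * (Dl / I0) := by ring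
    have h2 : 2 * Tp * (Dl / I0) ≤ 2 * Tp * 1 := by
      apply mul_le_mul_of_nonneg_left _ (by positivity)
      linarith
    linarith
  -- the bound
  have hw1 : w ≤ (5 / 18 - e0) * l := by
    have : (5 / 18 - e0) * l = 5 / 18 * l - 1 / 18 := by rw [sub_mul, he0l]
    rw [this]; linarith
  have h1 : ((I1 - I0 + 1) / l + 1) * w ≤ (5 / 18 - e0) * (d + 1 + l) := by
    have h2 : ((I1 - I0 + 1) / l + 1) * w ≤ ((I1 - I0 + 1) / l + 1) * ((5 / 18 - e0) * l) := by
      apply mul_le_mul_of_nonneg_left hw1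
      rw [← hdd]; positivity
    refine h2.trans (le_of_eq ?_)
    rw [← hdd]
    field_simp
  have hI10 : 0 ≤ I1 := by linarith
  have hE : 0 ≤ (I1 + 1) / (2 * Dl) + 1 := by positivity
  have h2 : (d + 1 + l) * ((I1 + 1) / (2 * Dl) + 1) ≤ (1 + e0 / 2) * Tp := by
    have h3 : (d + 1 + l) ≤ (2 + l) + 2 * (Tp * Dl) / I0 := by linarith
    have h4 : (I1 + 1) / (2 * Dl) ≤ 10 * q / et := by
      rw [div_le_div_iff₀ (by positivity) het0]
      have h5 : I1 + 1 ≤ 10 * q * N := by nlinarith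
      have h6 : et * N ≤ 2 * Dl := by linarith
      calc (I1 + 1) * et ≤ (10 * q * N) * et := mul_le_mul_of_nonneg_right h5 het0.le
        _ = 10 * q * (et * N) := by ring
        _ ≤ 10 * q * (2 * Dl) := mul_le_mul_of_nonneg_left h6 (by linarith)
    have h5 : (d + 1 + l) * ((I1 + 1) / (2 * Dl) + 1) ≤
        (2 + l) * ((I1 + 1) / (2 * Dl) + 1) + 2 * (Tp * Dl) / I0 * ((I1 + 1) / (2 * Dl) + 1) := by
      rw [← add_mul]
      exact mul_le_mul_of_nonneg_right h3 hE
    have h6 : (2 + l) * ((I1 + 1) / (2 * Dl) + 1) ≤ e0 / 8 * Tp := by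
      have h7 : (2 + l) * ((I1 + 1) / (2 * Dl) + 1) ≤ (2 + l) * (10 * q / et + 1) := by
        apply mul_le_mul_of_nonneg_left _ (by linarith)
        linarith
      have h8 : e0 / 8 * (8 / e0 * ((2 + l) * (10 * q / et + 1))) = (2 + l) * (10 * q / et + 1) := by
        field_simp
      have h9 := mul_le_mul_of_nonneg_left hTp (show 0 ≤ e0 / 8 by positivity)
      linarith
    have h7 : 2 * (Tp * Dl) / I0 * ((I1 + 1) / (2 * Dl) + 1) =
        Tp + Tp * ((d + 1) / I0) + 2 * Tp * (Dl / I0) := by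
      have : I1 = I0 + d := by linarith
      rw [this]
      field_simp
      ring
    have h8 : (d + 1) / I0 ≤ e0 / 8 := by
      rw [div_le_iff₀ hI00]
      have h9 : d + 1 ≤ 2 + 2 * Tp := by linarith
      have h10 : (2 + 2 * Tp) = e0 / 8 * ((2 + 2 * Tp) * (8 / e0)) := by field_simp
      calc d + 1 ≤ 2 + 2 * Tp := h9
        _ = e0 / 8 * ((2 + 2 * Tp) * (8 / e0)) := h10
        _ ≤ e0 / 8 * I0 := mul_le_mul_of_nonneg_left (hNl.trans hI0) (by positivity)
    have h9 : Tp * ((d + 1) / I0) ≤ Tp * (e0 / 8) := mul_le_mul_of_nonneg_left h8 hTp0.le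
    have h10 : 2 * Tp * (Dl / I0) ≤ 2 * Tp * (e0 / 8) := by
      rw [het] at hDI
      exact mul_le_mul_of_nonneg_left hDI (by positivity)
    rw [h7] at h5
    nlinarith
  have h3 : (5 / 18 - e0 / 4) * Tp ≤ (5 / 18 - e0) * ((1 + e0 / 2) * Tp) := by
    refine h.trans ?_
    calc ((I1 - I0 + 1) / l + 1) * w * ((I1 + 1) / (2 * Dl) + 1) ≤
        (5 / 18 - e0) * (d + 1 + l) * ((I1 + 1) / (2 * Dl) + 1) := mul_le_mul_of_nonneg_right h1 hE
      _ = (5 / 18 - e0) * ((d + 1 + l) * ((I1 + 1) / (2 * Dl) + 1)) := by ring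
      _ ≤ _ := mul_le_mul_of_nonneg_left h2 (by linarith)
  have h4 : (5 / 18 - e0) * ((1 + e0 / 2) * Tp) < (5 / 18 - e0 / 4) * Tp := by
    have h5 : (5 / 18 - e0) * (1 + e0 / 2) < 5 / 18 - e0 / 4 := by nlinarith
    calc (5 / 18 - e0) * ((1 + e0 / 2) * Tp) = (5 / 18 - e0) * (1 + e0 / 2) * Tp := by ring
      _ < _ := mul_lt_mul_of_pos_right h5 hTp0
  linarith

open Classical in
/-- **Five eighteenths of the intervals.** -/
theorem opp (k l q a : ℕ) (hl : 1 ≤ l) (hq : 1 ≤ q) (ha : a.Coprime q) : ∃ C D : ℕ, ∃ c : ℝ, 0 < c ∧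
    ∀ᶠ N : ℕ in atTop, ∃ i : ℕ, N ≤ i ∧ i + l ≤ 10 * q * N ∧
      5 * l ≤ 18 * ((range l).filter (fun j => Rich q a k C D c (i + j))).card := by
  have hl0 : (0 : ℝ) < l := by exact_mod_cast hl
  have hl1 : (1 : ℝ) ≤ l := by exact_mod_cast hl
  have hq1 : (1 : ℝ) ≤ q := by exact_mod_cast hq
  obtain ⟨e0, he0⟩ : ∃ e0 : ℝ, e0 = 1 / (18 * l) := ⟨_, rfl⟩
  have he : 0 < e0 := by rw [he0]; positivity
  have he1 : e0 ≤ 1 / 18 := by
    rw [he0]
    apply div_le_div_of_nonneg_left one_pos.le (by norm_num) (by linarith)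
  obtain ⟨et, het⟩ : ∃ et : ℝ, et = e0 / 8 := ⟨_, rfl⟩
  have het0 : 0 < et := by rw [het]; positivity
  have het1 : et ≤ 1 := by rw [het]; linarith
  obtain ⟨Tp, hTp⟩ := exists_nat_ge (max 1 (8 / e0 * ((2 + l) * (10 * q / et + 1))))
  have hTp1' : (1 : ℝ) ≤ Tp := (le_max_left _ _).trans hTp
  have hTp1 : 1 ≤ Tp := by exact_mod_cast hTp1'
  have hTp0 : (0 : ℝ) < Tp := by linarith
  obtain ⟨C, D, hC1, -, c₀, hc₀, hE⟩ := positions k Tp q a hTp1 hq ha (e0 / 4) (by positivity)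
  obtain ⟨c, hc⟩ : ∃ c : ℝ, c = c₀ * 16 / (3 ^ D * (360 * Tp * q ^ 2)) := ⟨_, rfl⟩
  have hc0 : 0 < c := by rw [hc]; positivity
  refine ⟨C, D, c, hc0, ?_⟩
  have hC0 : (0 : ℝ) < C := by exact_mod_cast hC1
  have ht1 : Tendsto (fun N : ℕ => 16 * N ^ 2) atTop atTop := by
    apply tendsto_atTop_mono (fun N => ?_) tendsto_id
    show N ≤ 16 * N ^ 2
    have := Nat.le_self_pow two_ne_zero N
    omega
  have hlogD : ∀ᶠ N : ℕ in atTop, 10 * Tp * q * (C + 1) * 3 ^ D / (4 * c₀) * Real.log N ^ D < N := by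
    have h1 := (Real.isLittleO_pow_log_id_atTop (n := D)).def
      (c := 1 / (2 * (10 * Tp * q * (C + 1) * 3 ^ D / (4 * c₀)))) (by positivity)
    filter_upwards [tendsto_natCast_atTop_atTop.eventually h1, eventually_ge_atTop 1] with N h2 h3
    have h4 : (1 : ℝ) ≤ N := by exact_mod_cast h3
    rw [Real.norm_of_nonneg (pow_nonneg (Real.log_nonneg h4) D), id, Real.norm_of_nonneg (by linarith)] at h2
    have h5 : 0 < 10 * Tp * q * (C + 1) * 3 ^ D / (4 * c₀) := by positivity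
    calc 10 * Tp * q * (C + 1) * 3 ^ D / (4 * c₀) * Real.log N ^ D ≤
        10 * Tp * q * (C + 1) * 3 ^ D / (4 * c₀) * (1 / (2 * (10 * Tp * q * (C + 1) * 3 ^ D / (4 * c₀))) * N) :=
          mul_le_mul_of_nonneg_left h2 h5.le
      _ = N / 2 := by field_simp
      _ < N := by linarith
  obtain ⟨N1, hN1⟩ := exists_nat_ge (max (2 * C / et) ((2 + 2 * Tp) * (8 / e0)))
  filter_upwards [ht1.eventually hE, hlogD, eventually_ge_atTop (N1 + 16 + a + Tp + l)] with N hE hlogD hNbig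
  by_contra hcon
  push Not at hcon
  have hN16 : 16 ≤ N := by omega
  have hNr : (16 : ℝ) ≤ N := by exact_mod_cast hN16
  have hN0 : (0 : ℝ) < N := by linarith
  have hNN1 : (N1 : ℝ) ≤ N := by exact_mod_cast (by omega : N1 ≤ N)
  have hNC : 2 * C / et ≤ N := ((le_max_left _ _).trans hN1).trans hNN1
  have hNl : (2 + 2 * Tp) * (8 / e0) ≤ N := ((le_max_right _ _).trans hN1).trans hNN1
  have hL : 0 < Real.log N := Real.log_pos (by linarith)
  -- the step
  obtain ⟨r, hr⟩ : ∃ r : ℕ, r = ⌊et * N / C⌋₊ := ⟨_, rfl⟩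
  obtain ⟨Dl, hDl⟩ : ∃ Dl : ℕ, Dl = C * r := ⟨_, rfl⟩
  have hD2 : (Dl : ℝ) ≤ et * N := by
    have h1 : (r : ℝ) ≤ et * N / C := by rw [hr]; exact Nat.floor_le (by positivity)
    rw [le_div_iff₀ hC0] at h1
    rw [hDl]; push_cast; linarith
  have hD1 : et * N / 2 ≤ Dl := by
    have h1 : et * N / C < r + 1 := by rw [hr]; exact Nat.lt_floor_add_one _
    rw [div_lt_iff₀ hC0] at h1
    rw [div_le_iff₀ het0] at hNC
    rw [hDl]; push_cast
    nlinarith
  have hDl0r : (0 : ℝ) < Dl := lt_of_lt_of_le (by positivity) hD1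
  have hDl0 : 0 < Dl := by exact_mod_cast hDl0r
  have hDlN : Dl ≤ N := by
    have : (Dl : ℝ) ≤ N := hD2.trans (by nlinarith)
    exact_mod_cast this
  have hTpN : Tp * Dl ≤ N ^ 2 := by
    calc Tp * Dl ≤ N * N := Nat.mul_le_mul (by omega) hDlN
      _ = N ^ 2 := by ring
  obtain ⟨S, hS1, hS2⟩ := hE (fun j : Fin Tp => (j : ℕ) * Dl)
    (fun i j hij => Fin.ext (Nat.eq_of_mul_eq_mul_right hDl0 hij))
    (fun j => by rw [hDl]; exact Dvd.dvd.mul_left (dvd_mul_right C r) _)
    (fun j => by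
      have h1 : (j : ℕ) * Dl ≤ Tp * Dl := Nat.mul_le_mul_right _ j.2.le
      omega)
  set E : Finset ℕ := (Icc 1 (16 * N ^ 2)).filter (fun n : ℕ => ((16 * N ^ 2 : ℕ) : ℝ) / 16 ≤ n ∧
          ∀ j ∈ S, Cluster q a k C (q * n + a + (j : ℕ) * Dl)) with hEdef
  -- range of the positions
  have hpos : ∀ n ∈ E, ∀ j ≤ Tp, N ≤ ph (q * n + a + j * Dl) ∧ ph (q * n + a + j * Dl) ≤ 9 * q * N ∧
      q * n + a + j * Dl < 18 * q * N ^ 2 := by
    intro n hn j hj
    rw [hEdef, mem_filter, mem_Icc] at hn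
    obtain ⟨⟨hn1, hn2⟩, hn3, -⟩ := hn
    have h1 : N ^ 2 ≤ n := by
      have : (N : ℝ) ^ 2 ≤ n := by
        push_cast at hn3
        linarith
      exact_mod_cast this
    have h2 : n ≤ q * n := Nat.le_mul_of_pos_left n (by omega)
    have h3 : j * Dl ≤ Tp * Dl := Nat.mul_le_mul_right _ hj
    have hNN : 16 * N ≤ N ^ 2 := by
      rw [sq]
      exact Nat.mul_le_mul_right N hN16
    have h4 : a ≤ N ^ 2 := by omega
    have h5 : q * n ≤ q * (16 * N ^ 2) := Nat.mul_le_mul_left _ hn2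
    have h6 : N ^ 2 ≤ q * N ^ 2 := Nat.le_mul_of_pos_left _ (by omega)
    have ha' : 2 * a < N ^ 2 := by omega
    refine ⟨?_, ?_, ?_⟩
    · unfold ph
      rw [Nat.le_sqrt']
      omega
    · unfold ph
      rw [← Nat.lt_succ_iff, Nat.sqrt_lt']
      have h7 : (9 * q * N).succ ^ 2 = 81 * q ^ 2 * N ^ 2 + 18 * q * N + 1 := by
        rw [Nat.succ_eq_add_one]; ring
      rw [h7]
      have h8 : q * N ^ 2 ≤ q ^ 2 * N ^ 2 := by
        have : q ≤ q ^ 2 := Nat.le_self_pow two_ne_zero q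
        exact Nat.mul_le_mul_right _ this
      have h9 : q * (16 * N ^ 2) = 16 * (q * N ^ 2) := by ring
      have h10 : 81 * q ^ 2 * N ^ 2 = 81 * (q ^ 2 * N ^ 2) := by ring
      have h11 : 0 < q * N := Nat.mul_pos hq (by omega)
      have h12 : 18 * q * N = 18 * (q * N) := by ring
      omega
    · have h9 : q * (16 * N ^ 2) = 16 * (q * N ^ 2) := by ring
      have h10 : 18 * q * N ^ 2 = 18 * (q * N ^ 2) := by ring
      omega
  -- the bad elements
  set Good : ℕ → Prop := fun y => Qs (ph y) < y ∧ y + C < Qs (ph y + 1) ∧ Rich q a k C D c (ph y) with hGood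
  set Bad : Finset ℕ := E.filter (fun n => ∃ j ∈ S, ¬ Good (q * n + a + (j : ℕ) * Dl)) with hBad
  have hBadle : (Bad.card : ℝ) ≤ Tp * (((9 * q * N : ℕ) + 1) * (C + 1 + c * ((9 * q * N : ℕ) / Real.log N ^ D))) := by
    have h1 : Bad ⊆ S.biUnion (fun j => E.filter (fun n => ¬ Good (q * n + a + (j : ℕ) * Dl))) := by
      intro n hn
      rw [hBad, mem_filter] at hn
      obtain ⟨hn1, j, hj, hn2⟩ := hn
      rw [mem_biUnion]
      exact ⟨j, hj, mem_filter.2 ⟨hn1, hn2⟩⟩
    have h2 : ∀ j ∈ S, ((E.filter (fun n => ¬ Good (q * n + a + (j : ℕ) * Dl))).card : ℝ) ≤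
        ((9 * q * N : ℕ) + 1) * (C + 1 + c * ((9 * q * N : ℕ) / Real.log N ^ D)) := by
      intro j hj
      refine le_trans ?_ (bad_count q a k C D N (9 * q * N) (18 * q * N ^ 2) c hc0.le (by omega))
      rw [Nat.cast_le]
      refine Finset.card_le_card_of_injOn (fun n => q * n + a + (j : ℕ) * Dl) ?_ ?_
      · intro n hn
        rw [mem_coe, mem_filter] at hn
        obtain ⟨hn1, hn2⟩ := hn
        obtain ⟨h3, h4, h5⟩ := hpos n hn1 j j.2.le
        rw [hEdef, mem_filter] at hn1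
        rw [mem_coe, mem_filter, mem_range]
        exact ⟨h5, h3, h4, hn1.2.2 j hj, hn2⟩
      · intro n _ n' _ hnn
        simp only at hnn
        have h3 : q * n = q * n' := by omega
        exact Nat.eq_of_mul_eq_mul_left (by omega) h3
    have h3 : (Bad.card : ℝ) ≤ ∑ j ∈ S, ((E.filter (fun n => ¬ Good (q * n + a + (j : ℕ) * Dl))).card : ℝ) := by
      have := (card_le_card h1).trans card_biUnion_le
      exact_mod_cast this
    refine h3.trans ((sum_le_sum h2).trans ?_)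
    rw [sum_const, nsmul_eq_mul]
    apply mul_le_mul_of_nonneg_right _ (by positivity)
    have h4 := card_le_univ S
    rw [Fintype.card_fin] at h4
    exact_mod_cast h4
  have hEbig : (Bad.card : ℝ) < E.card := by
    refine lt_of_le_of_lt hBadle (lt_of_lt_of_le ?_ hS2)
    have hlog16 : Real.log ((16 * N ^ 2 : ℕ) : ℝ) ≤ 3 * Real.log N := by
      push_cast
      rw [Real.log_mul (by norm_num) (by positivity), Real.log_pow]
      have := Real.log_le_log (by norm_num) hNr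
      push_cast
      linarith
    have hlog0 : 0 < Real.log ((16 * N ^ 2 : ℕ) : ℝ) := by
      apply Real.log_pos
      have h1 := Nat.le_self_pow two_ne_zero N
      exact_mod_cast (by omega : 1 < 16 * N ^ 2)
    have h1 : Real.log ((16 * N ^ 2 : ℕ) : ℝ) ^ D ≤ 3 ^ D * Real.log N ^ D := by
      rw [← mul_pow]
      exact pow_le_pow_left₀ hlog0.le hlog16 D
    have h2 : c₀ * (16 * N ^ 2 / (3 ^ D * Real.log N ^ D)) ≤
        c₀ * (((16 * N ^ 2 : ℕ) : ℝ) / Real.log ((16 * N ^ 2 : ℕ) : ℝ) ^ D) := by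
      apply mul_le_mul_of_nonneg_left _ hc₀.le
      push_cast at h1 ⊢
      apply div_le_div_of_nonneg_left (by positivity) _ h1
      have := hlog0
      push_cast at this
      positivity
    refine lt_of_lt_of_le ?_ h2
    push_cast
    have hLD : 0 < Real.log N ^ D := by positivity
    have h3 : (9 * (q : ℝ) * N + 1) ≤ 10 * q * N := by nlinarith
    have h4 : 10 * Tp * q * (C + 1) * N < 1 / 4 * (c₀ * (16 * N ^ 2 / (3 ^ D * Real.log N ^ D))) := by
      have h5 : 1 / 4 * (c₀ * (16 * (N : ℝ) ^ 2 / (3 ^ D * Real.log N ^ D))) =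
          (4 * c₀ / (3 ^ D * Real.log N ^ D)) * N * N := by ring
      rw [h5]
      apply mul_lt_mul_of_pos_right _ hN0
      have h6 : 10 * Tp * q * (C + 1) = (4 * c₀ / (3 ^ D * Real.log N ^ D)) *
          (10 * Tp * q * (C + 1) * 3 ^ D / (4 * c₀) * Real.log N ^ D) := by
        field_simp
      rw [h6]
      exact mul_lt_mul_of_pos_left hlogD (by positivity)
    have h5 : Tp * (10 * q * N * (c * (9 * q * N / Real.log N ^ D))) =
        1 / 4 * (c₀ * (16 * N ^ 2 / (3 ^ D * Real.log N ^ D))) := by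
      rw [hc]
      field_simp
      ring
    have h6 : 0 < c₀ * (16 * (N : ℝ) ^ 2 / (3 ^ D * Real.log N ^ D)) := by positivity
    calc (Tp : ℝ) * ((9 * q * N + 1) * (C + 1 + c * (9 * q * N / Real.log N ^ D))) ≤
        Tp * ((10 * q * N) * (C + 1 + c * (9 * q * N / Real.log N ^ D))) := by
          apply mul_le_mul_of_nonneg_left _ hTp0.le
          exact mul_le_mul_of_nonneg_right h3 (by positivity)
      _ = 10 * Tp * q * (C + 1) * N + Tp * (10 * q * N * (c * (9 * q * N / Real.log N ^ D))) := by ring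
      _ < _ := by rw [h5]; linarith
  -- a good element
  obtain ⟨n, hnE, hnB⟩ : ∃ n ∈ E, n ∉ Bad := by
    by_contra hall
    push Not at hall
    have h1 : E.card ≤ Bad.card := card_le_card hall
    have h2 : (E.card : ℝ) ≤ Bad.card := by exact_mod_cast h1
    linarith
  have hgood : ∀ j ∈ S, Good (q * n + a + (j : ℕ) * Dl) := by
    intro j hj
    by_contra h1
    exact hnB (by rw [hBad, mem_filter]; exact ⟨hnE, j, hj, h1⟩)
  set x : ℕ := q * n + a with hx
  have hSle : S.card ≤ ((range Tp).filter (fun j => Rich q a k C D c (ph (x + j * Dl)))).card := by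
    refine Finset.card_le_card_of_injOn (fun j : Fin Tp => (j : ℕ)) ?_ (fun i _ j _ h => Fin.ext h)
    intro j hj
    rw [mem_coe, mem_filter, mem_range]
    exact ⟨j.2, (hgood j hj).2.2⟩
  obtain ⟨w, hw⟩ : ∃ w : ℕ, w = (5 * l - 1) / 18 := ⟨_, rfl⟩
  have hi0 := hpos n hnE 0 (Nat.zero_le _)
  rw [zero_mul, add_zero] at hi0
  have hi1 := hpos n hnE Tp le_rfl
  rw [← hx] at hi0 hi1
  have hrt := rich_terms (Rich q a k C D c) l w Tp x Dl hl hDl0 (by
    intro i h1 h2
    have h3 := hcon i (hi0.1.trans h1) (by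
      have h4 : 9 * q * N + N ≤ 10 * q * N := by
        have h5 : N ≤ q * N := Nat.le_mul_of_pos_left _ (by omega)
        have h6 : 9 * q * N = 9 * (q * N) := by ring
        have h7 : 10 * q * N = 10 * (q * N) := by ring
        omega
      have h5 := h2.trans hi1.2.1
      omega)
    rw [hw]
    omega)
  have hmono : ph x ≤ ph (x + Tp * Dl) := ph_mono (by omega)
  have hdiff : ((ph (x + Tp * Dl) : ℝ) - ph x - 1) * ph x ≤ 2 * (Tp * Dl) := by
    rcases Nat.eq_or_lt_of_le hmono with h1 | h1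
    · rw [← h1]
      have h2 : (0 : ℝ) ≤ ph x := Nat.cast_nonneg _
      have h3 : (0 : ℝ) ≤ (Tp : ℝ) * Dl := by positivity
      nlinarith
    · obtain ⟨d, hd⟩ := Nat.exists_eq_add_of_le (show ph x + 1 ≤ ph (x + Tp * Dl) from h1)
      have h2 := Qs_add (ph x + 1) d
      rw [← hd] at h2
      have h3 := ph_le (x + Tp * Dl)
      have h4 := lt_ph x
      have h5 : d * ((ph x + 1 + 1) / 2) ≤ Tp * Dl := by omega
      have h6 : ph x ≤ 2 * ((ph x + 1 + 1) / 2) := by omega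
      have h7 : d * ph x ≤ 2 * (Tp * Dl) := by
        calc d * ph x ≤ d * (2 * ((ph x + 1 + 1) / 2)) := Nat.mul_le_mul_left _ h6
          _ = 2 * (d * ((ph x + 1 + 1) / 2)) := by ring
          _ ≤ _ := Nat.mul_le_mul_left _ h5
      have h8 : (ph (x + Tp * Dl) : ℝ) - ph x - 1 = d := by
        rw [hd]; push_cast; ring
      rw [h8]
      exact_mod_cast h7
  refine final_ineq (ph x) (ph (x + Tp * Dl)) Dl Tp l w e0 et q N hl1 he0 het hq1 (by linarith)
    (by exact_mod_cast hi0.1) (by exact_mod_cast hmono) (by exact_mod_cast hi1.2.1) hD1 hD2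
    ?_ hdiff hTp1' ((le_max_right _ _).trans hTp) hNl ?_
  · have h1 : 18 * w ≤ 5 * l - 1 := by rw [hw]; omega
    have h2 : 18 * w + 1 ≤ 5 * l := by omega
    have h3 : (18 * (w : ℝ) + 1) ≤ 5 * l := by exact_mod_cast h2
    linarith
  · have h1 : (S.card : ℝ) ≤ (((range Tp).filter (fun j => Rich q a k C D c (ph (x + j * Dl)))).card : ℝ) := by
      exact_mod_cast hSle
    refine (hS1.trans (h1.trans hrt)).trans (le_of_eq ?_)
    have h2 : ((ph (x + Tp * Dl) - ph x + 1 : ℕ) : ℝ) = (ph (x + Tp * Dl) : ℝ) - ph x + 1 := by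
      push_cast [Nat.cast_sub hmono]
      ring
    rw [h2]
    push_cast
    ring

end Pool.Agent.N743.MT
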