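import Pool.Agent.N743.MT.SqM

/-!
# Clusters of primes and the fractional parts of their square roots: arcs and measure
-/

set_option autoImplicit false

namespace Pool.Agent.N743.MT

open Finset Filter Topology MeasureTheory

/-- the clusters `y` with `√y`, `√(y + C)` in `(n + r / m, n + (r + 1) / m)` -/
def ArcSet (q a k C m n r : ℕ) : Set ℕ :=
  {y : ℕ | (n : ℝ) + r / m < √(y : ℝ) ∧ √((y + C : ℕ) : ℝ) < n + (r + 1) / m ∧ Cluster q a k C y}

theorem arc_finite (q a k C m n r : ℕ) : (ArcSet q a k C m n r).Finite := by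
  refine (Set.finite_Iic ⌈((n : ℝ) + (r + 1) / m) ^ 2⌉₊).subset fun y hy => ?_
  have h1 : √(y : ℝ) ≤ (n : ℝ) + (r + 1) / m := by
    refine le_trans (Real.sqrt_le_sqrt ?_) hy.2.1.le
    push_cast
    have : (0 : ℝ) ≤ C := Nat.cast_nonneg C
    linarith
  have h2 : (y : ℝ) ≤ ((n : ℝ) + (r + 1) / m) ^ 2 := by
    have h3 := Real.sq_sqrt (Nat.cast_nonneg (α := ℝ) y)
    rw [← h3]
    exact pow_le_pow_left₀ (Real.sqrt_nonneg _) h1 2
  exact_mod_cast h2.trans (Nat.le_ceil _)

open Classical in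
theorem rich_arc (m q a k C D n r : ℕ) (c : ℝ) (hm : 1 ≤ m) (hc : 0 < c) (hn : 2 * m + 4 ≤ n) (hr : r < m)
    (h : Richq m q a k C D c (n * m + r)) :
    c / 2 ^ D * (n / Real.log n ^ D) ≤ ((ArcSet q a k C m n r).ncard : ℝ) := by
  have hm0 : (0 : ℝ) < m := by exact_mod_cast hm
  have hn0 : (4 : ℝ) ≤ n := by exact_mod_cast (by omega : 4 ≤ n)
  have hL : 0 < Real.log n := Real.log_pos (by linarith)
  unfold Richq at h
  have h1 : c / 2 ^ D * (n / Real.log n ^ D) ≤ c * (((n * m + r : ℕ) : ℝ) / Real.log ((n * m + r : ℕ) : ℝ) ^ D) := by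
    have e1 : (n : ℝ) ≤ ((n * m + r : ℕ) : ℝ) := by
      have : n ≤ n * m := Nat.le_mul_of_pos_right n hm
      exact_mod_cast (by omega : n ≤ n * m + r)
    have e2 : ((n * m + r : ℕ) : ℝ) ≤ (n : ℝ) ^ 2 := by
      have : n * m + r ≤ n ^ 2 := by
        have f1 : n * (m + 1) ≤ n * n := Nat.mul_le_mul_left n (by omega)
        have f2 : n * (m + 1) = n * m + n := by ring
        rw [sq]
        omega
      exact_mod_cast this
    have e3 : Real.log ((n * m + r : ℕ) : ℝ) ≤ 2 * Real.log n := by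
      have := Real.log_le_log (by linarith) e2
      rw [Real.log_pow] at this
      push_cast at this ⊢
      linarith
    have e4 : 0 < Real.log ((n * m + r : ℕ) : ℝ) := Real.log_pos (by linarith)
    have e5 : Real.log ((n * m + r : ℕ) : ℝ) ^ D ≤ 2 ^ D * Real.log n ^ D := by
      rw [← mul_pow]
      exact pow_le_pow_left₀ e4.le e3 D
    have e6 : c / 2 ^ D * (n / Real.log n ^ D) = c * (n / (2 ^ D * Real.log n ^ D)) := by
      field_simp
    rw [e6]
    apply mul_le_mul_of_nonneg_left _ hc.le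
    exact div_le_div₀ (by linarith) e1 (by positivity) e5
  refine (h1.trans h).trans ?_
  rw [Nat.cast_le, ← Set.ncard_coe_finset]
  refine Set.ncard_le_ncard ?_ (arc_finite q a k C m n r)
  intro y hy
  rw [mem_coe, mem_filter, mem_Ioo] at hy
  obtain ⟨⟨hy1, hy2⟩, hy3, hy4⟩ := hy
  have hmm : 0 < m ^ 2 := by positivity
  refine ⟨?_, ?_, hy4⟩
  · apply Real.lt_sqrt_of_sq_lt
    unfold Fq at hy1
    rw [Nat.div_lt_iff_lt_mul hmm] at hy1
    have e1 : (((n * m + r) ^ 2 : ℕ) : ℝ) < ((y * m ^ 2 : ℕ) : ℝ) := by exact_mod_cast hy1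
    push_cast at e1
    have e2 : ((n : ℝ) + r / m) ^ 2 = (n * m + r) ^ 2 / m ^ 2 := by field_simp
    rw [e2, div_lt_iff₀ (by positivity)]
    exact e1
  · rw [Real.sqrt_lt' (by positivity)]
    unfold Fq at hy3
    have e0 : y + C + 1 ≤ (n * m + r + 1) ^ 2 / m ^ 2 := hy3
    rw [Nat.le_div_iff_mul_le hmm] at e0
    have e1 : (((y + C + 1) * m ^ 2 : ℕ) : ℝ) ≤ (((n * m + r + 1) ^ 2 : ℕ) : ℝ) := by exact_mod_cast e0
    push_cast at e1
    have e2 : ((n : ℝ) + (r + 1) / m) ^ 2 = (n * m + r + 1) ^ 2 / m ^ 2 := by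
      field_simp
      ring
    rw [e2, lt_div_iff₀ (by positivity)]
    refine lt_of_lt_of_le ?_ e1
    push_cast
    have : 0 < (m : ℝ) ^ 2 := by positivity
    nlinarith

open Classical in
/-- **Arcs.** -/
theorem arcs (k m q a : ℕ) (hm : 1 ≤ m) (hq : 1 ≤ q) (ha : a.Coprime q) : ∃ C D : ℕ, ∃ c : ℝ,
    0 < c ∧ ∀ᶠ N : ℕ in atTop, 5 * m ≤ 18 * ((range m).filter (fun r => ∃ n : ℕ, N ≤ n ∧ n ≤ 6 * (m * q) * N ∧
      c * (n / Real.log n ^ D) ≤ ((ArcSet q a k C m n r).ncard : ℝ))).card := by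
  obtain ⟨C, D, c, hc, h⟩ := sq_rich k m m q a hm hm hq ha
  refine ⟨C, D, c / 2 ^ D, by positivity, ?_⟩
  have ht : Tendsto (fun N : ℕ => m * N) atTop atTop := tendsto_id.const_mul_atTop' (by omega)
  filter_upwards [ht.eventually h, eventually_ge_atTop (2 * m + 4)] with N hN hN2
  obtain ⟨i, hi1, hi2, hi3⟩ := hN
  refine hi3.trans (Nat.mul_le_mul_left _ ?_)
  refine Finset.card_le_card_of_injOn (fun j => (i + j) % m) ?_ ?_
  · intro j hj
    rw [mem_coe, mem_filter, mem_range] at hj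
    rw [mem_coe, mem_filter, mem_range]
    refine ⟨Nat.mod_lt _ (by omega), (i + j) / m, ?_, ?_, ?_⟩
    · rw [Nat.le_div_iff_mul_le (by omega)]
      have : N * m = m * N := mul_comm _ _
      omega
    · apply Nat.div_le_of_le_mul
      have : m * (6 * (m * q) * N) = 6 * (m * q) * (m * N) := by ring
      rw [this]
      omega
    · refine rich_arc m q a k C D ((i + j) / m) ((i + j) % m) c hm hc ?_ (Nat.mod_lt _ (by omega)) ?_
      · have h1 : N ≤ (i + j) / m := by
          rw [Nat.le_div_iff_mul_le (by omega)]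
          have : N * m = m * N := mul_comm _ _
          omega
        omega
      · have h1 := Nat.div_add_mod (i + j) m
        have h2 : (i + j) / m * m + (i + j) % m = i + j := by rw [mul_comm]; exact h1
        rw [h2]
        exact hj.2
  · intro j hj j' hj' hjj
    rw [mem_coe, mem_filter, mem_range] at hj hj'
    simp only at hjj
    have h1 : j ≡ j' [MOD m] := Nat.ModEq.add_left_cancel' i hjj
    exact Nat.ModEq.eq_of_lt_of_lt h1 hj.1 hj'.1

/-- the limit points of the fractional parts of the square roots of clusters of `k` primes -/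
def Lim (q a k : ℕ) : Set ℝ :=
  {z : ℝ | z ∈ Set.Icc (0 : ℝ) 1 ∧ ∀ δ : ℝ, 0 < δ → ∃ C : ℕ, ∀ N : ℕ, ∃ y ≥ N, Cluster q a k C y ∧
    |Int.fract √(y : ℝ) - z| < δ}

theorem lim_closed (q a k : ℕ) : IsClosed (Lim q a k) := by
  rw [← isSeqClosed_iff_isClosed]
  intro z w hz hw
  refine ⟨isClosed_Icc.mem_of_tendsto hw (Eventually.of_forall fun n => (hz n).1), fun δ hδ => ?_⟩
  obtain ⟨n, hn⟩ := (Metric.tendsto_atTop.1 hw) (δ / 2) (by linarith)
  obtain ⟨C, hC⟩ := (hz n).2 (δ / 2) (by linarith)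
  refine ⟨C, fun N => ?_⟩
  obtain ⟨y, hy, h1, h2⟩ := hC N
  refine ⟨y, hy, h1, ?_⟩
  have h3 := hn n le_rfl
  rw [Real.dist_eq] at h3
  calc |Int.fract √(y : ℝ) - w| = |(Int.fract √(y : ℝ) - z n) + (z n - w)| := by ring_nf
    _ ≤ |Int.fract √(y : ℝ) - z n| + |z n - w| := abs_add_le _ _
    _ < δ := by linarith

theorem lim_anti (q a : ℕ) : Antitone (Lim q a) := by
  intro k k' hk z hz
  refine ⟨hz.1, fun δ hδ => ?_⟩
  obtain ⟨C, hC⟩ := hz.2 δ hδ
  refine ⟨C, fun N => ?_⟩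
  obtain ⟨y, hy, h1, h2⟩ := hC N
  exact ⟨y, hy, hk.trans h1, h2⟩

open Classical in
/-- many arcs contain limit points -/
theorem lim_arcs (k m q a : ℕ) (hm : 1 ≤ m) (hq : 1 ≤ q) (ha : a.Coprime q) :
    5 * m ≤ 18 * ((range m).filter (fun r : ℕ => ∃ z ∈ Lim q a k, (r : ℝ) / m ≤ z ∧ z ≤ (r + 1) / m)).card := by
  obtain ⟨C, D, c, hc, h⟩ := arcs k m q a hm hq ha
  have hm0 : (0 : ℝ) < m := by exact_mod_cast hm
  obtain ⟨N0, hN0⟩ := eventually_atTop.1 h
  set A : ℕ → Finset ℕ := fun N => (range m).filter (fun r => ∃ n : ℕ, N ≤ n ∧ n ≤ 6 * (m * q) * N ∧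
      c * (n / Real.log n ^ D) ≤ ((ArcSet q a k C m n r).ncard : ℝ)) with hA
  -- one set for infinitely many scales
  obtain ⟨A0, hA0⟩ : ∃ A0 : Finset ℕ, ∃ᶠ N : ℕ in atTop, A N = A0 := by
    by_contra hcon
    push Not at hcon
    have h1 : ∀ B ∈ (range m).powerset, ∀ᶠ N : ℕ in atTop, A N ≠ B := fun B _ => hcon B
    have h2 := (Filter.eventually_all_finset _).2 h1
    obtain ⟨N, hN⟩ := h2.exists
    exact hN (A N) (mem_powerset.2 (filter_subset _ _)) rfl
  have hA0c : 5 * m ≤ 18 * A0.card := by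
    obtain ⟨N, hN1, hN2⟩ := (hA0.and_eventually (eventually_ge_atTop N0)).exists
    rw [← hN1]
    exact hN0 N hN2
  refine hA0c.trans (Nat.mul_le_mul_left _ (card_le_card ?_))
  intro r hr
  have hrm : r < m := by
    obtain ⟨N, hN1⟩ := hA0.exists
    rw [← hN1] at hr
    exact mem_range.1 (mem_filter.1 hr).1
  rw [mem_filter, mem_range]
  refine ⟨hrm, ?_⟩
  -- clusters in the arc
  have hinf : ∀ N : ℕ, ∃ y ≥ N, Cluster q a k C y ∧ (r : ℝ) / m ≤ Int.fract √(y : ℝ) ∧
      Int.fract √(y : ℝ) ≤ (r + 1) / m := by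
    intro N
    obtain ⟨N', hN1, hN2⟩ := (hA0.and_eventually (eventually_ge_atTop (max N 3))).exists
    rw [← hN1] at hr
    obtain ⟨n, hn1, -, hn3⟩ := (mem_filter.1 hr).2
    have hn : N ≤ n := ((le_max_left _ _).trans hN2).trans hn1
    have hn' : 3 ≤ n := ((le_max_right _ _).trans hN2).trans hn1
    have hpos : (0 : ℝ) < c * (n / Real.log n ^ D) := by
      have e1 : (3 : ℝ) ≤ n := by exact_mod_cast hn'
      have e2 : 0 < Real.log n := Real.log_pos (by linarith)
      positivity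
    have hne : (ArcSet q a k C m n r).ncard ≠ 0 := by
      intro h0
      rw [h0] at hn3
      push_cast at hn3
      linarith
    obtain ⟨y, hy1, hy2, hy3⟩ := Set.nonempty_of_ncard_ne_zero hne
    have hy2' : √(y : ℝ) < n + (r + 1) / m := by
      refine lt_of_le_of_lt (Real.sqrt_le_sqrt ?_) hy2
      push_cast
      have : (0 : ℝ) ≤ C := Nat.cast_nonneg C
      linarith
    have hr0 : (0 : ℝ) ≤ (r : ℝ) / m := by positivity
    have hr1 : ((r : ℝ) + 1) / m ≤ 1 := by
      rw [div_le_one hm0]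
      exact_mod_cast hrm
    have hfl : ⌊√(y : ℝ)⌋ = (n : ℤ) := by
      rw [Int.floor_eq_iff]
      constructor
      · push_cast
        linarith
      · push_cast
        linarith
    have hfr : Int.fract √(y : ℝ) = √(y : ℝ) - n := by
      rw [Int.fract, hfl]
      push_cast
      rfl
    refine ⟨y, ?_, hy3, ?_, ?_⟩
    · have e1 : (n : ℝ) < √(y : ℝ) := by linarith
      have e2 : (n : ℝ) ^ 2 < y := by
        have e3 := Real.sq_sqrt (Nat.cast_nonneg (α := ℝ) y)
        rw [← e3]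
        exact pow_lt_pow_left₀ e1 (Nat.cast_nonneg n) two_ne_zero
      have e4 : n ^ 2 < y := by exact_mod_cast e2
      have e5 := Nat.le_self_pow two_ne_zero n
      omega
    · rw [hfr]
      linarith
    · rw [hfr]
      linarith
  choose y hy1 hy2 hy3 hy4 using hinf
  obtain ⟨z, hz, φ, hφ, hlim⟩ := (isCompact_Icc (a := (r : ℝ) / m) (b := ((r : ℝ) + 1) / m)).tendsto_subseq
    (x := fun N => Int.fract √(y N : ℝ)) (fun N => ⟨hy3 N, hy4 N⟩)
  refine ⟨z, ⟨⟨?_, ?_⟩, fun δ hδ => ⟨C, fun N => ?_⟩⟩, hz.1, hz.2⟩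
  · exact le_trans (by positivity) hz.1
  · refine hz.2.trans ?_
    rw [div_le_one hm0]
    exact_mod_cast hrm
  · obtain ⟨n, hn⟩ := (Metric.tendsto_atTop.1 hlim) δ hδ
    have h1 := hn (max n N) (le_max_left _ _)
    rw [Real.dist_eq] at h1
    refine ⟨y (φ (max n N)), ?_, hy2 _, h1⟩
    exact ((le_max_right n N).trans (hφ.id_le _)).trans (hy1 _)

open Classical in
/-- the measure of the set of limit points for a fixed `k` -/
theorem lim_measure (k q a : ℕ) (hq : 1 ≤ q) (ha : a.Coprime q) :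
    ENNReal.ofReal (5 / 18) ≤ volume (Lim q a k) := by
  have hcomp : IsCompact (Lim q a k) :=
    isCompact_Icc.of_isClosed_subset (lim_closed q a k) fun z hz => hz.1
  have ht := tendsto_measure_cthickening_of_isCompact (μ := (volume : Measure ℝ)) hcomp
  have ht2 : Tendsto (fun m : ℕ => (1 : ℝ) / ((m + 1 : ℕ) : ℝ)) atTop (𝓝 0) := by
    have := tendsto_one_div_add_atTop_nhds_zero_nat (𝕜 := ℝ)
    simpa using this
  refine ge_of_tendsto' (ht.comp ht2) fun m => ?_
  simp only [Function.comp]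
  obtain ⟨M, hM⟩ : ∃ M : ℕ, M = m + 1 := ⟨_, rfl⟩
  rw [← hM]
  have hM1 : 1 ≤ M := by omega
  have hM0 : (0 : ℝ) < M := by exact_mod_cast hM1
  have h1 := lim_arcs k M q a hM1 hq ha
  set A := (range M).filter (fun r : ℕ => ∃ z ∈ Lim q a k, (r : ℝ) / M ≤ z ∧ z ≤ (r + 1) / M) with hA
  have hsub : (⋃ r ∈ A, Set.Ioc ((r : ℝ) / M) (((r : ℝ) + 1) / M)) ⊆ Metric.cthickening (1 / (M : ℝ)) (Lim q a k) := by
    intro x hx
    rw [Set.mem_iUnion₂] at hx
    obtain ⟨r, hr, hx1, hx2⟩ := hx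
    obtain ⟨z, hz, hz1, hz2⟩ := (mem_filter.1 hr).2
    refine Metric.mem_cthickening_of_dist_le x z _ _ hz ?_
    rw [Real.dist_eq, abs_le]
    have e1 : ((r : ℝ) + 1) / M = r / M + 1 / M := by rw [add_div]
    constructor <;> linarith
  have hmeas : volume (⋃ r ∈ A, Set.Ioc ((r : ℝ) / M) (((r : ℝ) + 1) / M)) = ENNReal.ofReal (A.card / M) := by
    rw [measure_biUnion_finset]
    · have e1 : ∀ r ∈ A, volume (Set.Ioc ((r : ℝ) / M) (((r : ℝ) + 1) / M)) = ENNReal.ofReal (1 / M) := by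
        intro r _
        rw [Real.volume_Ioc]
        congr 1
        ring
      rw [Finset.sum_congr rfl e1, Finset.sum_const, nsmul_eq_mul, ← ENNReal.ofReal_natCast,
        ← ENNReal.ofReal_mul (Nat.cast_nonneg _)]
      congr 1
      ring
    · intro r _ r' _ hne
      rw [Function.onFun, Set.disjoint_left]
      intro x hx hx'
      apply hne
      have e1 : (r : ℝ) < r' + 1 := by
        have := lt_of_lt_of_le hx.1 hx'.2
        rw [div_lt_div_iff_of_pos_right hM0] at this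
        exact this
      have e2 : (r' : ℝ) < r + 1 := by
        have := lt_of_lt_of_le hx'.1 hx.2
        rw [div_lt_div_iff_of_pos_right hM0] at this
        exact this
      have e3 : r < r' + 1 := by exact_mod_cast e1
      have e4 : r' < r + 1 := by exact_mod_cast e2
      omega
    · intro r _
      exact measurableSet_Ioc
  refine le_trans ?_ (measure_mono hsub)
  rw [hmeas]
  apply ENNReal.ofReal_le_ofReal
  rw [div_le_div_iff₀ (by norm_num) hM0]
  have h2 : (5 * (M : ℝ)) ≤ 18 * A.card := by exact_mod_cast h1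
  linarith

/-- **Measure.** -/
theorem frac_measure (q a : ℕ) (hq : 1 ≤ q) (ha : a.Coprime q) :
    ENNReal.ofReal (5 / 18) ≤ volume (⋂ k : ℕ, Lim q a k) := by
  have h1 := tendsto_measure_iInter_atTop (μ := (volume : Measure ℝ)) (s := Lim q a)
    (fun k => (lim_closed q a k).measurableSet.nullMeasurableSet) (lim_anti q a)
    ⟨0, ne_of_lt (lt_of_le_of_lt (measure_mono fun z hz => hz.1) (by simp))⟩
  exact ge_of_tendsto' h1 fun k => lim_measure k q a hq ha

end Pool.Agent.N743.MT
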