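import Pool.Agent.N743.MT.Up
import Pool.Agent.Y827.RO.LamR
import Pool.Agent.Y826.ZC.Exact

/-!
# Exact patterns of many primes in admissible sets, right order of magnitude
-/

set_option autoImplicit false

open Finset Filter

namespace Pool.Agent.N743.MT

open Pool.Agent.Y827.GS Pool.Agent.Y827.RO
open Pool.Agent.W123.RP Pool.Agent.H373R2.T7 Pool.Agent.W123.RU Pool.Agent.W123.RU.Poly
open Pool.Agent.TH464.PW
open Pool.Agent.W182.PW

/-- the primes in `[x - R, x + R]` are exactly the `x + y`, `y ∈ B` -/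
def PatAt (B : Finset ℤ) (R x : ℕ) : Prop :=
  ∀ y : ℤ, |y| ≤ R → ((∃ p : ℕ, p.Prime ∧ (p : ℤ) = x + y) ↔ y ∈ B)

/-- the coefficients of the forms `n - s` and `Q n + c + h` -/
def aF (H : Finset ℤ) (Q : ℕ) : Option {h // h ∈ H} → ℕ := fun o => o.elim 1 (fun _ => Q)

/-- the constants of the forms `n - s` and `Q n + c + h` -/
def bF (H : Finset ℤ) (c s : ℕ) : Option {h // h ∈ H} → ℤ := fun o => o.elim (-(s : ℤ)) (fun h => c + h.1)

open Classical in
theorem pat_low (k : ℕ) : ∃ K : ℕ, ∃ δ : ℝ, 0 < δ ∧ ∀ (q : ℕ) (a : ℤ) (H : Finset ℤ) (R : ℕ), 0 < q →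
    H.card = K → (∀ p : ℕ, p.Prime → ∃ r : ℤ, ∀ h ∈ H, ¬ (p : ℤ) ∣ r + h) →
    (∀ h ∈ H, IsCoprime (a + h) (q : ℤ)) → (∀ h ∈ H, |h| ≤ R) →
    ∃ (Q c s₀ : ℕ) (ε : ℝ), 0 < Q ∧ R + 1 ≤ c ∧ (c : ℤ) ≡ a [ZMOD q] ∧ q ∣ Q ∧ 0 < ε ∧
    ∀ᶠ N : ℕ in atTop, ∃ s ∈ range (s₀ + 1), Sys (fun i => lin (aF H Q i) (bF H c s i)) ∧
      ∃ B ⊆ H, k ≤ B.card ∧ ε * (N / (Real.log N) ^ (K + 1)) ≤
        (((Icc 1 N).filter (fun n : ℕ => (N : ℝ) / 16 ≤ n ∧ Rgl δ N (aF H Q) (bF H c s) n ∧
          PatAt B R (Q * n + c))).card : ℝ) := by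
  obtain ⟨K₁, hK₁, δ, hδ, h⟩ := lamR0 (4 * (k + 1)) k (by omega) (by push_cast; linarith [(Nat.cast_nonneg k : (0 : ℝ) ≤ k)])
  obtain ⟨T, hT⟩ : ∃ T : ℕ, T = 4 * (k + 1) := ⟨_, rfl⟩
  rw [← hT] at h
  refine ⟨T * K₁, δ, hδ, ?_⟩
  intro q a H R hq hHc hadm hcop hR
  obtain ⟨Q, c, hQ0, hcR, hca, hqQ, hpr, hcomp⟩ := Pool.Agent.Y826.ZC.exact_forms H q a hq hcop R hR
  obtain ⟨s₀, ε, hε, hev⟩ := h Q
  refine ⟨Q, c, s₀, ε / 2 ^ (T * K₁), hQ0, hcR, hca, hqQ, by positivity, ?_⟩
  obtain ⟨φ, hφ⟩ : ∃ φ : Fin T × Fin K₁ → ℤ, φ = fun x => H.orderEmbOfFin hHc (finProdFinEquiv x) := ⟨_, rfl⟩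
  have hφH : ∀ x, φ x ∈ H := fun x => by rw [hφ]; exact Finset.orderEmbOfFin_mem H hHc _
  have hφi : Function.Injective φ := by
    intro x y hxy
    rw [hφ] at hxy
    exact finProdFinEquiv.injective ((H.orderEmbOfFin hHc).injective hxy)
  have hφs : ∀ y ∈ H, ∃ x, φ x = y := by
    intro y hy
    have h1 : y ∈ Set.range (H.orderEmbOfFin hHc) := by
      rw [Finset.range_orderEmbOfFin]
      exact hy
    obtain ⟨j, hj⟩ := h1
    refine ⟨finProdFinEquiv.symm j, ?_⟩
    rw [hφ]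
    simp only [Equiv.apply_symm_apply]
    exact hj
  have hcpos : ∀ y ∈ H, 1 ≤ (c : ℤ) + y := by
    intro y hy
    have h1 := (abs_le.1 (hR y hy)).1
    have h2 : ((R + 1 : ℕ) : ℤ) ≤ c := by exact_mod_cast hcR
    push_cast at h2
    linarith
  have hcopQ : ∀ y ∈ H, IsCoprime (Q : ℤ) ((c : ℤ) + y) := by
    intro y hy
    rw [Int.isCoprime_iff_nat_coprime, Int.natAbs_natCast]
    by_contra hc
    obtain ⟨p, hp, h1, h2⟩ := Nat.Prime.not_coprime_iff_dvd.1 hc
    exact hpr y hy p hp h1 (Int.natCast_dvd.2 h2)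
  filter_upwards [hev, eventually_ge_atTop (c + R + 3)] with N hN hNl
  have hN0 : (0 : ℝ) < N := by exact_mod_cast (by omega : 0 < N)
  have hN3 : (3 : ℝ) ≤ N := by exact_mod_cast (by omega : 3 ≤ N)
  obtain ⟨s, S, σ, hs, hne, had, hS, hcount⟩ := hN (fun g i => ((Q : ℤ), (c : ℤ) + φ (g, i))) (by
      intro x y hxy
      simp only [Prod.mk.injEq, add_right_inj, true_and] at hxy
      exact hφi hxy) (by
      intro g i
      have hQz : (Q : ℤ) ≠ 0 := by exact_mod_cast hQ0.ne'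
      refine ⟨hQz, ?_, ?_, hcopQ _ (hφH _), ?_⟩
      · rw [abs_of_nonneg (Int.natCast_nonneg Q)]
      · have h1 := hcpos _ (hφH (g, i))
        have h2 := (abs_le.1 (hR _ (hφH (g, i)))).2
        rw [abs_of_nonneg (by linarith)]
        have h3 : ((c + R + 3 : ℕ) : ℤ) ≤ N := by exact_mod_cast hNl
        push_cast at h3
        show (c : ℤ) + φ (g, i) ≤ N
        linarith
      · intro t ht1 ht2
        have h1 : (1 : ℝ) ≤ ((c : ℤ) + φ (g, i) : ℤ) := by exact_mod_cast hcpos _ (hφH (g, i))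
        have h2 : (1 : ℝ) ≤ ((Q : ℤ) : ℝ) := by exact_mod_cast hQ0
        have h3 : 0 ≤ t := by linarith
        show (N : ℝ) / 24 ≤ ((Q : ℤ) : ℝ) * t + (((c : ℤ) + φ (g, i) : ℤ) : ℝ)
        nlinarith) (by
      intro p hp hpT
      by_cases hpQ : p ∣ Q
      · refine ⟨0, fun g i hd => hpr _ (hφH (g, i)) p hp hpQ ?_⟩
        simpa using hd
      · obtain ⟨r', hr'⟩ := hadm p hp
        have h1 : IsCoprime (Q : ℤ) (p : ℤ) := by
          rw [Nat.isCoprime_iff_coprime, Nat.coprime_comm, hp.coprime_iff_not_dvd]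
          exact hpQ
        obtain ⟨u, v, huv⟩ := h1
        refine ⟨u * (r' - c), fun g i hd => hr' _ (hφH (g, i)) ?_⟩
        have h2 : (Q : ℤ) * (u * (r' - c)) + (c + φ (g, i)) = r' + φ (g, i) - p * (v * (r' - c)) := by
          have : (Q : ℤ) * u = 1 - v * p := by linarith
          calc (Q : ℤ) * (u * (r' - c)) + (c + φ (g, i)) = ((Q : ℤ) * u) * (r' - c) + (c + φ (g, i)) := by ring
            _ = _ := by rw [this]; ring
        simp only at hd
        rw [h2] at hd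
        have h3 := dvd_add hd (dvd_mul_right (p : ℤ) (v * (r' - c)))
        rwa [sub_add_cancel] at h3)
  have hlog : 0 < Real.log (N : ℝ) := Real.log_pos (by linarith)
  refine ⟨s, mem_range.2 (by omega), ?_, ?_⟩
  · apply Pool.Agent.TH977.PW.sys_lin
    · rintro (_ | y)
      · exact one_pos
      · exact hQ0
    · rintro (_ | y)
      · exact isCoprime_one_left
      · exact hcopQ _ y.2
    · rintro (_ | x) (_ | y) h1 h2
      · rfl
      · exfalso
        have h3 := hcpos _ y.2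
        have h4 : -(s : ℤ) = c + y.1 := h2
        have h5 : (0 : ℤ) ≤ s := Int.natCast_nonneg s
        linarith
      · exfalso
        have h3 := hcpos _ x.2
        have h4 : (c : ℤ) + x.1 = -(s : ℤ) := h2
        have h5 : (0 : ℤ) ≤ s := Int.natCast_nonneg s
        linarith
      · have h4 : (c : ℤ) + x.1 = c + y.1 := h2
        have h5 : x.1 = y.1 := by linarith
        rw [Subtype.ext h5]
    · intro p hp
      obtain ⟨r, hr1, hr2⟩ := had p hp
      have hp0 : (0 : ℤ) < p := by exact_mod_cast hp.pos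
      have hm : (((r % p).toNat : ℕ) : ℤ) = r % p := Int.toNat_of_nonneg (Int.emod_nonneg _ hp0.ne')
      have hmr : (p : ℤ) ∣ r - r % p := ⟨r / p, by linarith [Int.emod_add_mul_ediv r p]⟩
      refine ⟨(r % p).toNat, ?_⟩
      rintro (_ | y) hd
      · apply hr1
        have h1 : (p : ℤ) ∣ ((1 : ℕ) : ℤ) * ((r % p).toNat : ℕ) + -(s : ℤ) := hd
        rw [hm] at h1
        have h2 := dvd_add h1 hmr
        have h3 : ((1 : ℕ) : ℤ) * (r % p) + -(s : ℤ) + (r - r % p) = r - s := by push_cast; ring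
        rwa [h3] at h2
      · obtain ⟨x, hx⟩ := hφs _ y.2
        apply hr2 x.1 x.2
        have h1 : (p : ℤ) ∣ (Q : ℤ) * ((r % p).toNat : ℕ) + (c + y.1) := hd
        rw [hm] at h1
        have h2 := dvd_add h1 (hmr.mul_left (Q : ℤ))
        have h3 : (Q : ℤ) * (r % p) + (c + y.1) + Q * (r - r % p) = Q * r + (c + φ x) := by rw [hx]; ring
        rw [h3] at h2
        exact h2
  · -- the pattern
    set G := Rs (fun g i => ((Q : ℤ), (c : ℤ) + φ (g, i))) δ s S σ N with hG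
    set Bn : ℕ → Finset ℤ := fun n => H.filter (fun y => ∃ p : ℕ, p.Prime ∧ (p : ℤ) = ((Q * n + c : ℕ) : ℤ) + y) with hBn
    have hsum : ∑ _B ∈ H.powerset, ε / 2 ^ (T * K₁) * (N / Real.log N ^ (T * K₁ + 1)) ≤
        ∑ B ∈ H.powerset, ((G.filter (fun n => Bn n = B)).card : ℝ) := by
      rw [sum_const, card_powerset, hHc, nsmul_eq_mul]
      have h1 : G.card = ∑ B ∈ H.powerset, (G.filter (fun n => Bn n = B)).card :=
        Finset.card_eq_sum_card_fiberwise fun n _ => mem_powerset.2 (filter_subset _ _)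
      have h2 : (G.card : ℝ) = ∑ B ∈ H.powerset, ((G.filter (fun n => Bn n = B)).card : ℝ) := by
        exact_mod_cast h1
      rw [← h2]
      refine le_trans (le_of_eq ?_) hcount
      push_cast
      field_simp
    obtain ⟨B, hB, hBc⟩ := Finset.exists_le_of_sum_le ⟨∅, empty_mem_powerset H⟩ hsum
    have hne : (G.filter (fun n => Bn n = B)).Nonempty := by
      rw [Finset.nonempty_iff_ne_empty]
      intro h0
      rw [h0, card_empty] at hBc
      have : 0 < ε / 2 ^ (T * K₁) * (N / Real.log N ^ (T * K₁ + 1)) := by positivity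
      push_cast at hBc
      linarith
    refine ⟨B, mem_powerset.1 hB, ?_, hBc.trans ?_⟩
    · obtain ⟨n, hn⟩ := hne
      rw [mem_filter] at hn
      obtain ⟨hn1, hn2⟩ := hn
      rw [hG] at hn1
      unfold Rs at hn1
      rw [mem_filter] at hn1
      obtain ⟨-, -, -, -, h4⟩ := hn1
      rw [← hn2]
      have h5 : S.card ≤ (Bn n).card := by
        apply card_le_card_of_injOn (fun g => φ (g, σ g))
        · intro g hg
          rw [mem_coe, hBn, mem_filter]
          refine ⟨hφH _, _, h4 g hg, ?_⟩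
          have h6 := hcpos _ (hφH (g, σ g))
          have h7 : (0 : ℤ) ≤ (Q : ℤ) * n := by positivity
          rw [Int.toNat_of_nonneg]
          · push_cast
            ring
          · show 0 ≤ (Q : ℤ) * n + ((c : ℤ) + φ (g, σ g))
            linarith
        · intro g hg g' hg' hgg
          have := hφi hgg
          exact congrArg Prod.fst this
      omega
    · rw [Nat.cast_le]
      apply card_le_card
      intro n hn
      rw [mem_filter] at hn
      obtain ⟨hn1, hn2⟩ := hn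
      rw [hG] at hn1
      unfold Rs at hn1
      rw [mem_filter] at hn1
      obtain ⟨h1, h16, h3, h4, -⟩ := hn1
      rw [mem_filter]
      refine ⟨h1, h16, ?_, ?_⟩
      · rintro (_ | y) p hp hpl hd
        · apply h3 p hp hpl
          have h5 : (p : ℤ) ∣ ((1 : ℕ) : ℤ) * n + -(s : ℤ) := hd
          have h6 : ((1 : ℕ) : ℤ) * n + -(s : ℤ) = n - s := by push_cast; ring
          rwa [h6] at h5
        · obtain ⟨x, hx⟩ := hφs _ y.2
          apply h4 x.1 x.2 p hp hpl
          have h5 : (p : ℤ) ∣ (Q : ℤ) * n + (c + y.1) := hd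
          show (p : ℤ) ∣ (Q : ℤ) * n + (c + φ (x.1, x.2))
          rw [Prod.mk.eta, hx]
          exact h5
      · intro y hy
        rw [← hn2, hBn, mem_filter]
        constructor
        · intro h5
          refine ⟨?_, h5⟩
          by_contra h6
          exact hcomp n (mem_Icc.1 h1).1 y hy h6 h5
        · exact fun h5 => h5.2

end Pool.Agent.N743.MT
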