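import Pool.Agent.N743.MT.PatReg

/-!
# Exact patterns of many primes between consecutive powers, from the divisions
-/

set_option autoImplicit false

open Finset Filter

namespace Pool.Agent.N743.MT

theorem pow_step_up (s m : ℕ) : (m + 1) ^ s ≤ m ^ s + s * (m + 1) ^ (s - 1) := by
  induction s with
  | zero => simp
  | succ s ih =>
    rcases Nat.eq_zero_or_pos s with h0 | h0
    · subst h0; simp
    · have e : s + 1 - 1 = (s - 1) + 1 := by omega
      have e2 : (m + 1) ^ (s + 1 - 1) = (m + 1) ^ (s - 1) * (m + 1) := by rw [e, pow_succ]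
      have e3 : (m + 1) ^ (s + 1 - 1) = (m + 1) ^ s := rfl
      have e4 : m ^ s ≤ (m + 1) ^ s := Nat.pow_le_pow_left (by omega) _
      calc (m + 1) ^ (s + 1) = (m + 1) ^ s * (m + 1) := pow_succ _ _
        _ ≤ (m ^ s + s * (m + 1) ^ (s - 1)) * (m + 1) := Nat.mul_le_mul_right _ ih
        _ = m ^ (s + 1) + m ^ s + s * ((m + 1) ^ (s - 1) * (m + 1)) := by rw [pow_succ]; ring
        _ = m ^ (s + 1) + m ^ s + s * (m + 1) ^ s := by rw [← e2, e3]
        _ ≤ m ^ (s + 1) + (m + 1) ^ s + s * (m + 1) ^ s := by omega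
        _ = m ^ (s + 1) + (s + 1) * (m + 1) ^ (s + 1 - 1) := by rw [e3]; ring

theorem pow_step_low (s m : ℕ) (hs : 1 ≤ s) : m ^ s + m ^ (s - 1) ≤ (m + 1) ^ s := by
  obtain ⟨t, rfl⟩ := Nat.exists_eq_add_of_le' hs
  have h1 : t + 1 - 1 = t := by omega
  rw [h1]
  calc m ^ (t + 1) + m ^ t = m ^ t * (m + 1) := by ring
    _ ≤ (m + 1) ^ t * (m + 1) := Nat.mul_le_mul_right _ (Nat.pow_le_pow_left (by omega) _)
    _ = (m + 1) ^ (t + 1) := by ring

open Classical in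
/-- **Powers from divisions.** -/
theorem powers_of_div (K k q : ℕ) (a : ℤ) (H : Finset ℤ) (R : ℕ) (c : ℝ) (hc : 0 < c)
    (h : ∀ᶠ X : ℕ in atTop, ∃ B ⊆ H, k ≤ B.card ∧
      ∀ (J : ℕ) (u : ℕ → ℕ), 64 * u 0 < X → X ≤ u J →
        (∀ i < J, Real.log X ^ (K + 1) ≤ c * ((u (i + 1) : ℝ) - u i) ∧ (u (i + 1) : ℝ) - u i ≤ c * X) →
        c * X ≤ ∑ i ∈ (range J).filter (fun i => c * (((u (i + 1) : ℝ) - u i) / Real.log X ^ (K + 1)) ≤
          ((PatIn q a B R (u i) (u (i + 1))).ncard : ℝ)), ((u (i + 1) : ℝ) - u i)) (s : ℕ) (hs : 2 ≤ s) :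
    ∃ c' : ℝ, 0 < c' ∧ ∀ᶠ N : ℕ in atTop, ∃ B ⊆ H, k ≤ B.card ∧
      c' * N ≤ (((range N).filter (fun m => c' * ((N : ℝ) ^ (s - 1) / Real.log N ^ (K + 1)) ≤
        ((PatIn q a B R (m ^ s) ((m + 1) ^ s)).ncard : ℝ))).card : ℝ) := by
  have hs0 : (0 : ℝ) < s := by exact_mod_cast (by omega : 0 < s)
  have hs1 : (1 : ℝ) ≤ s := by exact_mod_cast (by omega : 1 ≤ s)
  refine ⟨c / (130 ^ (s - 1) * s ^ (K + 1)), by positivity, ?_⟩
  have hpowt : Tendsto (fun N : ℕ => N ^ s) atTop atTop := tendsto_pow_atTop (by omega)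
  have hsmall : ∀ᶠ N : ℕ in atTop, 130 ^ (s - 1) * (s : ℝ) ^ (K + 1) / c * Real.log N ^ (K + 1) ≤ N := by
    have h1 := Pool.Agent.TH464.PW.logpow_rpow (K + 1) (130 ^ (s - 1) * (s : ℝ) ^ (K + 1) / c) 1 (by positivity) one_pos
    filter_upwards [h1] with N h2
    rwa [Real.rpow_one] at h2
  have hbig : ∀ᶠ N : ℕ in atTop, (s : ℝ) / c ≤ N := tendsto_natCast_atTop_atTop.eventually_ge_atTop _
  filter_upwards [hpowt.eventually h, hsmall, hbig, eventually_ge_atTop 4096] with N h1 h2 h3 h4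
  obtain ⟨B, hB, hBk, h1⟩ := h1
  refine ⟨B, hB, hBk, ?_⟩
  have hN0 : (0 : ℝ) < N := by exact_mod_cast (by omega : 0 < N)
  have hN1 : (4096 : ℝ) ≤ N := by exact_mod_cast h4
  have hlN : 0 < Real.log (N : ℝ) := Real.log_pos (by linarith)
  have hsplit : N ^ s = N ^ (s - 1) * N := by
    rw [← pow_succ]
    congr 1
    omega
  have hsplitr : (N : ℝ) ^ s = (N : ℝ) ^ (s - 1) * N := by exact_mod_cast hsplit
  have hlogX : Real.log (((N ^ s : ℕ) : ℝ)) = s * Real.log N := by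
    push_cast; rw [Real.log_pow]
  obtain ⟨m0, hm0⟩ : ∃ m0 : ℕ, m0 = N / 65 := ⟨_, rfl⟩
  have hm0a : 65 * m0 ≤ N := by omega
  have hm0b : N ≤ 130 * m0 := by omega
  obtain ⟨L, hL⟩ : ∃ L, L = Real.log (((N ^ s : ℕ) : ℝ)) ^ (K + 1) := ⟨_, rfl⟩
  have hL2 : L = (s : ℝ) ^ (K + 1) * Real.log N ^ (K + 1) := by rw [hL, hlogX, mul_pow]
  have hL0 : 0 < L := by rw [hL2]; positivity
  -- the lengths
  have hlow : ∀ m : ℕ, m0 ≤ m → (N : ℝ) ^ (s - 1) / 130 ^ (s - 1) ≤ (((m + 1) ^ s : ℕ) : ℝ) - ((m ^ s : ℕ) : ℝ) := by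
    intro m hm
    have e1 := pow_step_low s m (by omega)
    have e2 : ((m ^ s + m ^ (s - 1) : ℕ) : ℝ) ≤ (((m + 1) ^ s : ℕ) : ℝ) := by exact_mod_cast e1
    have e3 : (N : ℝ) ^ (s - 1) / 130 ^ (s - 1) ≤ (m : ℝ) ^ (s - 1) := by
      rw [← div_pow]
      apply pow_le_pow_left₀ (by positivity)
      have : (N : ℝ) ≤ 130 * m := by exact_mod_cast (by omega : N ≤ 130 * m)
      linarith
    push_cast at e2 ⊢
    linarith
  have hup : ∀ m : ℕ, m < N → (((m + 1) ^ s : ℕ) : ℝ) - ((m ^ s : ℕ) : ℝ) ≤ s * (N : ℝ) ^ (s - 1) := by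
    intro m hm
    have e1 := pow_step_up s m
    have e2 : s * (m + 1) ^ (s - 1) ≤ s * N ^ (s - 1) :=
      Nat.mul_le_mul_left _ (Nat.pow_le_pow_left (by omega) _)
    have e3 : (((m + 1) ^ s : ℕ) : ℝ) ≤ ((m ^ s + s * N ^ (s - 1) : ℕ) : ℝ) := by exact_mod_cast e1.trans (by omega)
    push_cast at e3 ⊢
    linarith
  have hmain := h1 (N - m0) (fun i => (m0 + i) ^ s) (by
      simp only [add_zero]
      have e1 : (65 * m0) ^ s ≤ N ^ s := Nat.pow_le_pow_left hm0a _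
      have e2 : 65 * m0 ^ s ≤ (65 * m0) ^ s := by
        rw [mul_pow]
        exact Nat.mul_le_mul_right _ (Nat.le_self_pow (by omega) 65)
      have e3 : 0 < m0 ^ s := Nat.pow_pos (by omega)
      omega) (by
      have : m0 + (N - m0) = N := by omega
      simp only [this]
      exact le_rfl) (by
      intro i hi
      have e0 : m0 + (i + 1) = (m0 + i) + 1 := by ring
      rw [e0]
      refine ⟨?_, (hup (m0 + i) (by omega)).trans ?_⟩
      · rw [← hL]
        have e1 := hlow (m0 + i) (by omega)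
        have e2 : L ≤ c * ((N : ℝ) ^ (s - 1) / 130 ^ (s - 1)) := by
          have e3 : (N : ℝ) ≤ (N : ℝ) ^ (s - 1) := le_self_pow₀ (by linarith) (by omega)
          have e4 := h2.trans e3
          rw [hL2, ← mul_div_assoc, le_div_iff₀ (by positivity)]
          rw [div_mul_eq_mul_div, div_le_iff₀ hc] at e4
          linarith
        exact e2.trans (mul_le_mul_of_nonneg_left e1 hc.le)
      · push_cast
        rw [hsplitr]
        rw [div_le_iff₀ hc] at h3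
        have : 0 ≤ (N : ℝ) ^ (s - 1) := by positivity
        nlinarith)
  rw [← hL] at hmain
  -- the good intervals
  set Gd : Finset ℕ := (range (N - m0)).filter (fun i => c * (((((m0 + (i + 1)) ^ s : ℕ) : ℝ) - (((m0 + i) ^ s : ℕ) : ℝ)) / L) ≤
          ((PatIn q a B R ((m0 + i) ^ s) ((m0 + (i + 1)) ^ s)).ncard : ℝ)) with hGd
  have hsum : c * ((N ^ s : ℕ) : ℝ) ≤ Gd.card * (s * (N : ℝ) ^ (s - 1)) := by
    refine hmain.trans ?_
    rw [← nsmul_eq_mul, ← sum_const]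
    refine sum_le_sum fun i hi => ?_
    have hiJ := mem_range.1 (mem_filter.1 hi).1
    exact hup (m0 + i) (by omega)
  have hG : c / s * N ≤ Gd.card := by
    have e1 : 0 < (N : ℝ) ^ (s - 1) := by positivity
    have e2 : c * N * (N : ℝ) ^ (s - 1) ≤ Gd.card * s * (N : ℝ) ^ (s - 1) := by
      calc c * N * (N : ℝ) ^ (s - 1) = c * ((N ^ s : ℕ) : ℝ) := by push_cast; rw [hsplitr]; ring
        _ ≤ Gd.card * (s * (N : ℝ) ^ (s - 1)) := hsum
        _ = _ := by ring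
    have e3 := le_of_mul_le_mul_right e2 e1
    rw [div_mul_eq_mul_div, div_le_iff₀ hs0]
    exact e3
  have hcs : c / (130 ^ (s - 1) * (s : ℝ) ^ (K + 1)) ≤ c / s := by
    apply div_le_div_of_nonneg_left hc.le hs0
    have e1 : (1 : ℝ) ≤ 130 ^ (s - 1) := one_le_pow₀ (by norm_num)
    have e2 : (s : ℝ) ≤ (s : ℝ) ^ (K + 1) := le_self_pow₀ hs1 (by omega)
    have e3 : (0 : ℝ) < (s : ℝ) ^ (K + 1) := by positivity
    nlinarith
  refine (mul_le_mul_of_nonneg_right hcs hN0.le).trans (hG.trans ?_)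
  rw [Nat.cast_le]
  apply card_le_card_of_injOn (fun i => m0 + i)
  · intro i hi
    rw [mem_coe, hGd, mem_filter, mem_range] at hi
    rw [mem_coe, mem_filter, mem_range]
    obtain ⟨hi1, hi2⟩ := hi
    refine ⟨by show m0 + i < N; omega, ?_⟩
    have e0 : m0 + (i + 1) = (m0 + i) + 1 := by ring
    rw [e0] at hi2
    refine le_trans ?_ hi2
    have e1 := hlow (m0 + i) (by omega)
    calc c / (130 ^ (s - 1) * (s : ℝ) ^ (K + 1)) * ((N : ℝ) ^ (s - 1) / Real.log N ^ (K + 1)) =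
        c * ((N : ℝ) ^ (s - 1) / 130 ^ (s - 1) / L) := by
          rw [hL2]
          field_simp
      _ ≤ _ := by
          apply mul_le_mul_of_nonneg_left _ hc.le
          exact div_le_div_of_nonneg_right e1 hL0.le
  · intro i _ j _ hij
    simp only at hij
    omega

end Pool.Agent.N743.MT
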