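import Pool.Agent.N743.MT.Up

/-!
# Regular points of sets of rough values

From `Pool.Agent.TH977.PW.final`: in a set of the right order of integers at which linear forms are rough
almost all elements are regular at all scales.
-/

set_option autoImplicit false

open Finset Filter

namespace Pool.Agent.N743.MT

open Pool.Agent.W123.RP Pool.Agent.H373R2.T7 Pool.Agent.W123.RU Pool.Agent.W123.RU.Poly
open Pool.Agent.TH464.PW
open Pool.Agent.W182.PW
open Pool.Agent.TH977.PW (N RightOrder Irregular Rough)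

/-- all intervals `(m - s, m + t]` with `s, t ≤ c X` of length at least `(log X) ^ D / c` contain the right order
of elements of `A` -/
def RegPt (A : Set ℕ) (D : ℕ) (c : ℝ) (X m : ℕ) : Prop :=
  ∀ s t : ℕ, (s : ℝ) ≤ c * X → (t : ℝ) ≤ c * X → Real.log X ^ D ≤ c * (s + t) →
    c * (s + t) / Real.log X ^ D ≤ N A (m - s) (m + t) ∧
      (N A (m - s) (m + t) : ℝ) ≤ (s + t) / (c * Real.log X ^ D)

theorem RegPt.mono {A : Set ℕ} {D : ℕ} {c c' : ℝ} {X m : ℕ} (hX : 3 ≤ X) (hc' : 0 < c') (hcc : c' ≤ c)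
    (h : RegPt A D c X m) : RegPt A D c' X m := by
  intro s t hs ht hL
  have hXr : (3 : ℝ) ≤ X := by exact_mod_cast hX
  have hlog0 : 0 < Real.log X := Real.log_pos (by linarith)
  have hL0 : 0 < Real.log X ^ D := by positivity
  have hst : (0 : ℝ) ≤ (s : ℝ) + t := by positivity
  have h1 := h s t (hs.trans (mul_le_mul_of_nonneg_right hcc (by linarith)))
    (ht.trans (mul_le_mul_of_nonneg_right hcc (by linarith)))
    (hL.trans (mul_le_mul_of_nonneg_right hcc hst))
  refine ⟨le_trans ?_ h1.1, h1.2.trans ?_⟩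
  · exact div_le_div_of_nonneg_right (mul_le_mul_of_nonneg_right hcc hst) hL0.le
  · apply div_le_div_of_nonneg_left hst (by positivity)
    exact mul_le_mul_of_nonneg_right hcc hL0.le

open Classical in
theorem reg_n {ι : Type} [Fintype ι] [Nonempty ι] (a : ι → ℕ) (b : ι → ℤ)
    (hsys : Sys (fun i => lin (a i) (b i))) (D : ℕ) (hD : Fintype.card ι = D) (δ c₀ : ℝ) (hδ : 0 < δ)
    (hc₀ : 0 < c₀) : ∃ c : ℝ, 0 < c ∧ ∀ᶠ Z : ℕ in atTop, ∀ S : Set ℕ,
      (∀ n ∈ S, (Z : ℝ) / 16 ≤ n ∧ n ≤ Z ∧ Rgl δ Z a b n) →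
      c₀ * (Z / Real.log Z ^ D) ≤ (S.ncard : ℝ) →
      c * (Z / Real.log Z ^ D) ≤ ({n : ℕ | n ∈ S ∧ RegPt S D c Z n}.ncard : ℝ) := by
  obtain ⟨r0, hr0, hfin⟩ := Pool.Agent.TH977.PW.final (fun i => lin (a i) (b i)) hsys
    (fun r => {m | Rough (fun i => lin (a i) (b i)) r m}) (fun _ => Set.univ) D hD
    (fun r m _ hm => hm) (fun _ _ _ _ _ => Set.mem_univ _) (1 / 2) (by norm_num) (by norm_num)
  set r : ℕ := max r0 ⌈1 / δ⌉₊ with hr
  have hrκ : 1 / δ ≤ r := (Nat.le_ceil _).trans (by exact_mod_cast le_max_right _ _)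
  have hr0' : (0 : ℝ) < r := lt_of_lt_of_le (by positivity) hrκ
  obtain ⟨c₁, hc₁, hδ'⟩ := (hfin r (le_max_left _ _)).2 (c₀ / 2 ^ (D + 1)) (by positivity)
  obtain ⟨B, hB⟩ := hδ' 1 one_pos
  obtain ⟨X₀, hX₀⟩ := eventually_atTop.1 hB
  refine ⟨min (c₀ / 2) (min (c₁ / 2 ^ D) (1 / 256)), by positivity, ?_⟩
  filter_upwards [eventually_ge_atTop (64 * X₀ + 64 * 16384)] with Z hZ S hS hcount
  set c : ℝ := min (c₀ / 2) (min (c₁ / 2 ^ D) (1 / 256)) with hc
  have hcpos : 0 < c := by positivity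
  have hcc₁ : c ≤ c₁ / 2 ^ D := (min_le_right _ _).trans (min_le_left _ _)
  have hcc₀ : c ≤ c₀ / 2 := min_le_left _ _
  have hc256 : c ≤ 1 / 256 := (min_le_right _ _).trans (min_le_right _ _)
  obtain ⟨w, hw⟩ : ∃ w : ℕ, w = Z / 64 := ⟨_, rfl⟩
  have hw1 : 64 * w ≤ Z := by omega
  have hw2 : Z < 64 * w + 64 := by omega
  have hwX : X₀ ≤ w := by omega
  have hw16 : 16384 ≤ w := by omega
  have hw0 : (0 : ℝ) < w := by exact_mod_cast (by omega : 0 < w)
  have hZ0 : (0 : ℝ) < Z := by exact_mod_cast (by omega : 0 < Z)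
  have hZ3 : (3 : ℝ) ≤ Z := by exact_mod_cast (by omega : 3 ≤ Z)
  have hw1r : 64 * (w : ℝ) ≤ Z := by exact_mod_cast hw1
  have hw2r : (Z : ℝ) ≤ 128 * w := by exact_mod_cast (by omega : Z ≤ 128 * w)
  have hlogZ : 0 < Real.log (Z : ℝ) := Real.log_pos (by linarith)
  have hlogw : Real.log Z ≤ 2 * Real.log w := by
    have h1 : (Z : ℝ) ≤ (w : ℝ) ^ 2 := by
      have : (16384 : ℝ) ≤ w := by exact_mod_cast hw16
      nlinarith
    calc Real.log Z ≤ Real.log ((w : ℝ) ^ 2) := Real.log_le_log hZ0 h1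
      _ = 2 * Real.log w := by rw [Real.log_pow]; norm_num
  obtain ⟨L, hLd⟩ : ∃ L, L = Real.log Z ^ D := ⟨_, rfl⟩
  have hL0 : 0 < L := by rw [hLd]; positivity
  -- the windows
  have hwin : ∀ i : ℕ, (L ≤ 2 ^ D * Real.log (((i + 2) * w : ℕ) : ℝ) ^ D) ∧ 0 < Real.log (((i + 2) * w : ℕ) : ℝ) := by
    intro i
    have h1 : (w : ℝ) ≤ (((i + 2) * w : ℕ) : ℝ) := by
      have : 1 * w ≤ (i + 2) * w := Nat.mul_le_mul_right _ (by omega)
      rw [one_mul] at this
      exact_mod_cast this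
    have h2 : Real.log w ≤ Real.log (((i + 2) * w : ℕ) : ℝ) := Real.log_le_log hw0 h1
    have h3 : 0 < Real.log (w : ℝ) := by linarith
    refine ⟨?_, by linarith⟩
    rw [hLd, ← mul_pow]
    exact pow_le_pow_left₀ hlogZ.le (by linarith) _
  set Irr : ℕ → Finset ℕ := fun i => (Ioc ((i + 2) * w) ((i + 2) * w + w)).filter
    (fun m => m ∈ Irregular S D c₁ 1 B ((i + 2) * w) w) with hIrr
  have hSR : S ⊆ {m | Rough (fun i => lin (a i) (b i)) r m} := by
    intro n hn
    obtain ⟨h1, h2, h3⟩ := hS n hn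
    show Rough (fun i => lin (a i) (b i)) r n
    rw [Pool.Agent.TH977.PW.rough_lin]
    intro i p hp hd
    by_contra hlt
    push Not at hlt
    refine h3 i p hp ?_ hd
    have hn0 : (0 : ℝ) ≤ n := Nat.cast_nonneg n
    have h4 : (p : ℝ) ≤ (Z : ℝ) ^ (1 / (r : ℝ)) :=
      hlt.trans (Real.rpow_le_rpow hn0 (by exact_mod_cast h2) (by positivity))
    have h5 : Real.log p ≤ 1 / (r : ℝ) * Real.log Z := by
      rw [← Real.log_rpow hZ0]
      exact Real.log_le_log (by exact_mod_cast hp.pos) h4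
    refine h5.trans (mul_le_mul_of_nonneg_right ?_ hlogZ.le)
    rw [div_le_iff₀ hr0']
    rw [div_le_iff₀ hδ] at hrκ
    linarith
  have hIrrc : ∀ i : ℕ, ((Irr i).card : ℝ) ≤ c₀ / 2 * (w / L) := by
    intro i
    obtain ⟨hwin1, hwin2⟩ := hwin i
    have e1 := hX₀ ((i + 2) * w) (by
      have : 1 * w ≤ (i + 2) * w := Nat.mul_le_mul_right _ (by omega)
      omega) w
    by_cases hi : i < 64
    · have e2 := e1 (by
        have h5 : (((i + 2) * w : ℕ) : ℝ) ≤ 128 * w := by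
          have : (i + 2) * w ≤ 128 * w := Nat.mul_le_mul_right _ (by omega)
          exact_mod_cast this
        rw [← Real.sqrt_eq_rpow]
        rw [Real.sqrt_le_left hw0.le]
        have : (16384 : ℝ) ≤ w := by exact_mod_cast hw16
        nlinarith) (Nat.mul_le_mul_right _ (by omega)) S hSR
      have e3 : ((Irr i).card : ℝ) ≤ c₀ / 2 ^ (D + 1) * w / Real.log (((i + 2) * w : ℕ) : ℝ) ^ D := by
        refine le_trans (le_of_eq ?_) e2
        rw [hIrr]
        unfold Pool.Agent.TH977.PW.N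
        rfl
      refine e3.trans ?_
      have e4 : c₀ / 2 * (w / L) = c₀ / 2 ^ (D + 1) * w / (L / 2 ^ D) := by
        rw [pow_succ]
        field_simp
      rw [e4]
      apply div_le_div_of_nonneg_left (by positivity) (by positivity)
      rw [div_le_iff₀ (by positivity)]
      linarith
    · -- irrelevant windows: use emptiness? handled by the bound on the number of elements
      have e5 : Irr i = ∅ := by
        rw [hIrr]
        simp only
        rw [filter_eq_empty_iff]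
        intro m hm hirr
        rw [mem_Ioc] at hm
        have h6 := (hS m hirr.1).2.1
        have h7 : 66 * w ≤ (i + 2) * w := Nat.mul_le_mul_right _ (by omega)
        omega
      rw [e5, card_empty]
      push_cast
      positivity
  have hSfin : S.Finite := (Set.finite_Iic Z).subset fun n hn => (hS n hn).2.1
  have hcov : S ⊆ {n : ℕ | n ∈ S ∧ RegPt S D c Z n} ∪ (((range 64).biUnion Irr : Finset ℕ) : Set ℕ) := by
    intro n hn
    obtain ⟨h1, h2, h3⟩ := hS n hn
    have h1' : 4 * w ≤ n := by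
      have e1 : (4 * (w : ℝ)) ≤ n := by linarith
      exact_mod_cast e1
    obtain ⟨i, hi⟩ : ∃ i : ℕ, (n - 1) / w = i + 2 := by
      refine ⟨(n - 1) / w - 2, ?_⟩
      have : 2 ≤ (n - 1) / w := by
        rw [Nat.le_div_iff_mul_le (by omega)]
        omega
      omega
    have hi1 : (i + 2) * w < n := by
      have := Nat.div_mul_le_self (n - 1) w
      rw [hi] at this
      omega
    have hi2 : n ≤ (i + 2) * w + w := by
      have := Nat.lt_div_mul_add (a := n - 1) (b := w) (by omega)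
      rw [hi] at this
      omega
    have hi64 : i < 64 := by
      by_contra hcon
      have : 66 * w ≤ (i + 2) * w := Nat.mul_le_mul_right _ (by omega)
      omega
    by_cases hirr : n ∈ Irregular S D c₁ 1 B ((i + 2) * w) w
    · right
      rw [mem_coe, mem_biUnion]
      refine ⟨i, mem_range.2 hi64, ?_⟩
      rw [hIrr, mem_filter, mem_Ioc]
      exact ⟨⟨hi1, hi2⟩, hirr⟩
    · left
      refine ⟨hn, ?_⟩
      have hro : RightOrder S D c₁ ((i + 2) * w) w n := by
        by_contra hro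
        exact hirr ⟨hn, fun hcon => hro hcon.1⟩
      obtain ⟨hwin1, hwin2⟩ := hwin i
      obtain ⟨Li, hLi⟩ : ∃ Li, Li = Real.log (((i + 2) * w : ℕ) : ℝ) ^ D := ⟨_, rfl⟩
      have hLi0 : 0 < Li := by rw [hLi]; positivity
      rw [← hLi] at hwin1
      have hLiL : Li ≤ L := by
        rw [hLi, hLd]
        apply pow_le_pow_left₀ hwin2.le
        apply Real.log_le_log
        · have : 0 < (i + 2) * w := Nat.mul_pos (by omega) (by omega)
          exact_mod_cast this
        · exact_mod_cast hi1.le.trans h2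
      have h2D : (1 : ℝ) ≤ 2 ^ D := one_le_pow₀ (by norm_num)
      have hcc1 : c ≤ c₁ := by
        refine hcc₁.trans ?_
        rw [div_le_iff₀ (by positivity)]
        nlinarith
      intro s t hs ht hL
      rw [← hLd] at hL ⊢
      have hst : (0 : ℝ) ≤ (s : ℝ) + t := by positivity
      have hcZ : c * Z ≤ w := by nlinarith
      have hsw : s ≤ w := by exact_mod_cast hs.trans hcZ
      have htw : t ≤ w := by exact_mod_cast ht.trans hcZ
      have h4 := hro s t hsw htw (by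
        rw [← hLi]
        calc Li ≤ L := hLiL
          _ ≤ c * (s + t) := hL
          _ ≤ c₁ * (s + t) := mul_le_mul_of_nonneg_right hcc1 hst)
      rw [← hLi] at h4
      refine ⟨le_trans ?_ h4.1, h4.2.trans ?_⟩
      · exact div_le_div₀ (mul_nonneg hc₁.le hst) (mul_le_mul_of_nonneg_right hcc1 hst) hLi0 hLiL
      · apply div_le_div_of_nonneg_left hst (by positivity)
        rw [le_div_iff₀ (by positivity)] at hcc₁
        calc c * L ≤ c * (2 ^ D * Li) := mul_le_mul_of_nonneg_left hwin1 hcpos.le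
          _ = c * 2 ^ D * Li := by ring
          _ ≤ c₁ * Li := mul_le_mul_of_nonneg_right hcc₁ hLi0.le
  have hcard : (S.ncard : ℝ) ≤ ({n : ℕ | n ∈ S ∧ RegPt S D c Z n}.ncard : ℝ) + 64 * (c₀ / 2 * (w / L)) := by
    have e1 := Set.ncard_le_ncard hcov ((hSfin.subset fun n hn => hn.1).union (Finset.finite_toSet _))
    have e2 := e1.trans (Set.ncard_union_le _ _)
    rw [Set.ncard_coe_finset] at e2
    have e3 : (((range 64).biUnion Irr).card : ℝ) ≤ 64 * (c₀ / 2 * (w / L)) := by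
      have e4 : (((range 64).biUnion Irr).card : ℝ) ≤ ∑ i ∈ range 64, ((Irr i).card : ℝ) := by
        exact_mod_cast card_biUnion_le
      refine e4.trans ((sum_le_sum fun i hi => hIrrc i).trans (le_of_eq ?_))
      rw [sum_const, card_range, nsmul_eq_mul]
      norm_num
    have e5 : (S.ncard : ℝ) ≤ ({n : ℕ | n ∈ S ∧ RegPt S D c Z n}.ncard : ℝ) +
        (((range 64).biUnion Irr).card : ℝ) := by exact_mod_cast e2
    linarith
  rw [← hLd] at hcount ⊢
  have e6 : 64 * (c₀ / 2 * (w / L)) ≤ c₀ / 2 * (Z / L) := by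
    have : 64 * (c₀ / 2 * (w / L)) = c₀ / 2 * ((64 * w) / L) := by ring
    rw [this]
    apply mul_le_mul_of_nonneg_left _ (by positivity)
    exact div_le_div_of_nonneg_right hw1r hL0.le
  have e7 : c * (Z / L) ≤ c₀ / 2 * (Z / L) := mul_le_mul_of_nonneg_right hcc₀ (by positivity)
  have e8 : c₀ * (Z / L) = c₀ / 2 * (Z / L) + c₀ / 2 * (Z / L) := by ring
  linarith

open Classical in
/-- the same for finitely many systems at once -/
theorem reg_n_fin {ι : Type} [Fintype ι] [Nonempty ι] (a : ι → ℕ) (b : ℕ → ι → ℤ) (s₀ : ℕ) (D : ℕ)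
    (hD : Fintype.card ι = D) (δ c₀ : ℝ) (hδ : 0 < δ)
    (hc₀ : 0 < c₀) : ∃ c : ℝ, 0 < c ∧ ∀ᶠ Z : ℕ in atTop, ∀ s ∈ range (s₀ + 1),
      Sys (fun i => lin (a i) (b s i)) → ∀ S : Set ℕ,
      (∀ n ∈ S, (Z : ℝ) / 16 ≤ n ∧ n ≤ Z ∧ Rgl δ Z a (b s) n) →
      c₀ * (Z / Real.log Z ^ D) ≤ (S.ncard : ℝ) →
      c * (Z / Real.log Z ^ D) ≤ ({n : ℕ | n ∈ S ∧ RegPt S D c Z n}.ncard : ℝ) := by
  have h : ∀ s : ℕ, ∃ c : ℝ, 0 < c ∧ ∀ᶠ Z : ℕ in atTop,
      Sys (fun i => lin (a i) (b s i)) → ∀ S : Set ℕ,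
      (∀ n ∈ S, (Z : ℝ) / 16 ≤ n ∧ n ≤ Z ∧ Rgl δ Z a (b s) n) →
      c₀ * (Z / Real.log Z ^ D) ≤ (S.ncard : ℝ) →
      c * (Z / Real.log Z ^ D) ≤ ({n : ℕ | n ∈ S ∧ RegPt S D c Z n}.ncard : ℝ) := by
    intro s
    by_cases hs : Sys (fun i => lin (a i) (b s i))
    · obtain ⟨c, hc, h⟩ := reg_n a (b s) hs D hD δ c₀ hδ hc₀
      exact ⟨c, hc, h.mono fun Z hZ _ => hZ⟩
    · exact ⟨1, one_pos, Eventually.of_forall fun Z hs' => absurd hs' hs⟩
  choose c hc hh using h
  have hsum : 0 < ∑ s ∈ range (s₀ + 1), 1 / c s :=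
    sum_pos (fun s _ => one_div_pos.2 (hc s)) ⟨0, mem_range.2 (by omega)⟩
  refine ⟨1 / ∑ s ∈ range (s₀ + 1), 1 / c s, by positivity, ?_⟩
  rw [Filter.eventually_all_finset]
  intro s hs
  have hle : 1 / ∑ s ∈ range (s₀ + 1), 1 / c s ≤ c s := by
    rw [div_le_iff₀ hsum]
    have h1 : 1 / c s ≤ ∑ s ∈ range (s₀ + 1), 1 / c s :=
      single_le_sum (f := fun s => 1 / c s) (fun i _ => (one_div_pos.2 (hc i)).le) hs
    calc (1 : ℝ) = c s * (1 / c s) := by field_simp [(hc s).ne']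
      _ ≤ _ := mul_le_mul_of_nonneg_left h1 (hc s).le
  filter_upwards [hh s, eventually_ge_atTop 3] with Z hZ hZ3 hsys S hS hcount
  have h1 := hZ hsys S hS hcount
  have hlog : 0 ≤ Real.log (Z : ℝ) := Real.log_natCast_nonneg Z
  refine (mul_le_mul_of_nonneg_right hle (by positivity)).trans (h1.trans ?_)
  rw [Nat.cast_le]
  refine Set.ncard_le_ncard (fun n hn => ⟨hn.1, hn.2.mono hZ3 (by positivity) hle⟩) ?_
  exact (Set.finite_Iic Z).subset fun n hn => (hS n hn.1).2.1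

end Pool.Agent.N743.MT
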