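import Pool.Agent.N743.MT.PatLow
import Pool.Agent.N743.MT.RegN

/-!
# Exact patterns of many primes: regular points, all divisions into intervals
-/

set_option autoImplicit false

open Finset Filter

namespace Pool.Agent.N743.MT

open Pool.Agent.TH977.PW (N)

open Classical in
theorem N_conv (S : Set ℕ) (Q c n s t : ℕ) (hQ : 0 < Q) (hs : s ≤ Q * n) :
    N {x | ∃ m ∈ S, x = Q * m + c} (Q * n + c - s) (Q * n + c + t) =
      N S (n - (s + Q - 1) / Q) (n + t / Q) := by
  obtain ⟨e, he⟩ : ∃ e, e = (s + Q - 1) / Q := ⟨_, rfl⟩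
  obtain ⟨f, hf⟩ : ∃ f, f = t / Q := ⟨_, rfl⟩
  have he1 : s ≤ Q * e := by
    have h1 := Nat.lt_mul_div_succ (s + Q - 1) hQ
    rw [← he] at h1
    have h2 : Q * (e + 1) = Q * e + Q := by ring
    omega
  have he2 : Q * e < s + Q := by
    have h1 := Nat.mul_div_le (s + Q - 1) Q
    rw [← he] at h1
    omega
  have hf1 : Q * f ≤ t := by rw [hf]; exact Nat.mul_div_le t Q
  have hf2 : t < Q * (f + 1) := by rw [hf]; exact Nat.lt_mul_div_succ t hQ
  have he3 : e ≤ n := by
    have h1 : Q * e < Q * (n + 1) := by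
      have h2 : Q * (n + 1) = Q * n + Q := by ring
      omega
    have := lt_of_mul_lt_mul_left h1 (Nat.zero_le _)
    omega
  rw [← he, ← hf]
  unfold Pool.Agent.TH977.PW.N
  symm
  apply Finset.card_bij (fun m _ => Q * m + c)
  · intro m hm
    rw [mem_filter, mem_Ioc] at hm ⊢
    obtain ⟨⟨h1, h2⟩, h3⟩ := hm
    have h4 : Q * (n + 1) ≤ Q * (m + e) := Nat.mul_le_mul_left _ (by omega)
    have h5 : Q * m ≤ Q * (n + f) := Nat.mul_le_mul_left _ h2
    have h6 : Q * (n + 1) = Q * n + Q := by ring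
    have h7 : Q * (m + e) = Q * m + Q * e := by ring
    have h8 : Q * (n + f) = Q * n + Q * f := by ring
    exact ⟨⟨by omega, by omega⟩, m, h3, rfl⟩
  · intro m _ m' _ h
    have h6 : Q * m = Q * m' := by omega
    exact Nat.eq_of_mul_eq_mul_left hQ h6
  · intro x hx
    rw [mem_filter, mem_Ioc] at hx
    obtain ⟨⟨h1, h2⟩, m, hm, rfl⟩ := hx
    refine ⟨m, ?_, rfl⟩
    rw [mem_filter, mem_Ioc]
    refine ⟨⟨?_, ?_⟩, hm⟩
    · have h4 : Q * n < Q * (m + e) := by
        have h7 : Q * (m + e) = Q * m + Q * e := by ring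
        omega
      have h5 := lt_of_mul_lt_mul_left h4 (Nat.zero_le _)
      omega
    · have h4 : Q * m < Q * (n + f + 1) := by
        have h7 : Q * (n + f + 1) = Q * n + Q * (f + 1) := by ring
        omega
      have h5 := lt_of_mul_lt_mul_left h4 (Nat.zero_le _)
      omega

open Classical in
/-- **Regular points.** -/
theorem pat_reg (k : ℕ) : ∃ K : ℕ, ∀ (q : ℕ) (a : ℤ) (H : Finset ℤ) (R : ℕ), 0 < q →
    H.card = K → (∀ p : ℕ, p.Prime → ∃ r : ℤ, ∀ h ∈ H, ¬ (p : ℤ) ∣ r + h) →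
    (∀ h ∈ H, IsCoprime (a + h) (q : ℤ)) → (∀ h ∈ H, |h| ≤ R) →
    ∃ c : ℝ, 0 < c ∧ ∀ᶠ X : ℕ in atTop, ∃ B ⊆ H, k ≤ B.card ∧ ∃ P : Set ℕ,
      (∀ x ∈ P, X ≤ 64 * x ∧ x ≤ X ∧ (x : ℤ) ≡ a [ZMOD q] ∧ PatAt B R x) ∧
      c * (X / Real.log X ^ (K + 1)) ≤ ({x : ℕ | x ∈ P ∧ RegPt P (K + 1) c X x}.ncard : ℝ) := by
  obtain ⟨K, δ, hδ, hlow⟩ := pat_low k
  refine ⟨K, ?_⟩
  intro q a H R hq hH hadm hcop hR
  obtain ⟨Q, c₀, s₀, ε, hQ, hcR, hca, hqQ, hε, hlow⟩ := hlow q a H R hq hH hadm hcop hR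
  have hcard : Fintype.card (Option {h // h ∈ H}) = K + 1 := by
    rw [Fintype.card_option, Fintype.card_coe, hH]
  obtain ⟨c₂, hc₂, hreg⟩ := reg_n_fin (aF H Q) (fun t => bF H c₀ t) s₀ (K + 1) hcard δ ε hδ hε
  have hQ0 : (0 : ℝ) < Q := by exact_mod_cast hQ
  have hQ1 : (1 : ℝ) ≤ Q := by exact_mod_cast hQ
  obtain ⟨c, hc⟩ : ∃ c : ℝ, c = min (c₂ / (8 * Q * 2 ^ (K + 1))) (1 / (64 * Q)) := ⟨_, rfl⟩
  have hcpos : 0 < c := by rw [hc]; positivity
  have hcA : c * (8 * Q * 2 ^ (K + 1)) ≤ c₂ := by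
    have : c ≤ c₂ / (8 * Q * 2 ^ (K + 1)) := by rw [hc]; exact min_le_left _ _
    rwa [le_div_iff₀ (by positivity)] at this
  have hcB : c * (64 * Q) ≤ 1 := by
    have : c ≤ 1 / (64 * Q) := by rw [hc]; exact min_le_right _ _
    rwa [le_div_iff₀ (by positivity)] at this
  have h2D : (1 : ℝ) ≤ 2 ^ (K + 1) := one_le_pow₀ (by norm_num)
  have hc8Q : c * (8 * Q) ≤ c₂ := by
    refine le_trans ?_ hcA
    have : 0 ≤ c * (8 * Q) := by positivity
    nlinarith
  refine ⟨c, hcpos, ?_⟩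
  have hZt : Tendsto (fun X : ℕ => X / (2 * Q)) atTop atTop := Nat.tendsto_div_const_atTop (by omega)
  have hbig : ∀ᶠ X : ℕ in atTop, 8 * Q / c₂ ≤ (X : ℝ) := tendsto_natCast_atTop_atTop.eventually_ge_atTop _
  filter_upwards [hZt.eventually hlow, hZt.eventually hreg, hbig,
    eventually_ge_atTop (64 * Q * Q + 2 * c₀ + 64 * Q + 64)] with X h1 h2 hbig h5
  obtain ⟨Z, hZ⟩ : ∃ Z : ℕ, Z = X / (2 * Q) := ⟨_, rfl⟩
  rw [← hZ] at h1 h2
  obtain ⟨s', hs', hsys, B, hB, hBk, h1⟩ := h1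
  have h2 := h2 s' hs' hsys
  refine ⟨B, hB, hBk, ?_⟩
  have hX0 : (0 : ℝ) < X := by exact_mod_cast (by omega : 0 < X)
  have hX3 : (64 : ℝ) ≤ X := by exact_mod_cast (by omega : 64 ≤ X)
  have hZ1 : Z * (2 * Q) ≤ X := by
    rw [hZ]
    exact Nat.div_mul_le_self _ _
  have hZ2 : X < (Z + 1) * (2 * Q) := by
    rw [hZ]
    exact Nat.lt_mul_of_div_lt (Nat.lt_succ_self _) (by omega)
  have hZX : Z ≤ X := (Nat.le_mul_of_pos_right _ (by omega)).trans hZ1
  have hZpos : 1 ≤ Z := by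
    rw [hZ, Nat.le_div_iff_mul_le (by omega)]
    omega
  have hX4 : X ≤ 4 * Q * Z := by
    have e1 : (Z + 1) * (2 * Q) = 2 * (Q * Z) + 2 * Q := by ring
    have e2 : 4 * Q * Z = 2 * (Q * Z) + 2 * (Q * Z) := by ring
    have e3 : Q * 1 ≤ Q * Z := Nat.mul_le_mul_left _ hZpos
    omega
  have hX4r : (X : ℝ) ≤ 4 * Q * Z := by exact_mod_cast hX4
  have hZ0 : (0 : ℝ) < Z := by exact_mod_cast hZpos
  have hZsq : X ≤ Z * Z := by
    have e1 : 4 * Q ≤ Z := by
      rw [hZ, Nat.le_div_iff_mul_le (by omega)]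
      have : 4 * Q * (2 * Q) = 8 * (Q * Q) := by ring
      have h6 : 64 * Q * Q = 64 * (Q * Q) := by ring
      omega
    exact hX4.trans (Nat.mul_le_mul_right _ e1)
  have hlX : 0 < Real.log (X : ℝ) := Real.log_pos (by linarith)
  have hlX1 : 1 ≤ Real.log (X : ℝ) := by
    rw [Real.le_log_iff_exp_le hX0]
    have := Real.exp_one_lt_d9
    linarith
  have hlZX : Real.log Z ≤ Real.log X := Real.log_le_log hZ0 (by exact_mod_cast hZX)
  have hlXZ : Real.log X ≤ 2 * Real.log Z := by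
    have h6 : (X : ℝ) ≤ (Z : ℝ) ^ 2 := by
      rw [sq]
      exact_mod_cast hZsq
    calc Real.log X ≤ Real.log ((Z : ℝ) ^ 2) := Real.log_le_log hX0 h6
      _ = 2 * Real.log Z := by rw [Real.log_pow]; norm_num
  have hlZ : 0 < Real.log (Z : ℝ) := by linarith
  obtain ⟨LX, hLX⟩ : ∃ L, L = Real.log X ^ (K + 1) := ⟨_, rfl⟩
  obtain ⟨LZ, hLZ⟩ : ∃ L, L = Real.log Z ^ (K + 1) := ⟨_, rfl⟩
  have hLX0 : 0 < LX := by rw [hLX]; positivity
  have hLX1 : 1 ≤ LX := by rw [hLX]; exact one_le_pow₀ hlX1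
  have hLZ0 : 0 < LZ := by rw [hLZ]; positivity
  have hLZX : LZ ≤ LX := by rw [hLZ, hLX]; exact pow_le_pow_left₀ hlZ.le hlZX _
  have hLXZ : LX ≤ 2 ^ (K + 1) * LZ := by
    rw [hLZ, hLX, ← mul_pow]
    exact pow_le_pow_left₀ hlX.le hlXZ _
  -- the set
  set S : Set ℕ := {n : ℕ | n ∈ Icc 1 Z ∧ (Z : ℝ) / 16 ≤ n ∧ Rgl δ Z (aF H Q) (bF H c₀ s') n ∧
    PatAt B R (Q * n + c₀)} with hS
  have hSc : ε * (Z / Real.log Z ^ (K + 1)) ≤ (S.ncard : ℝ) := by
    refine h1.trans (le_of_eq ?_)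
    rw [← Set.ncard_coe_finset]
    congr 2
    ext n
    simp only [coe_filter, Set.mem_ofPred_eq, hS]
  have hr := h2 S (fun n hn => ⟨hn.2.1, (mem_Icc.1 hn.1).2, hn.2.2.1⟩) hSc
  have hQx : ∀ n ∈ S, X ≤ 64 * (Q * n) := by
    intro n hn
    have e1 : Z ≤ 16 * n := by
      have e2 := hn.2.1
      have e3 : (Z : ℝ) ≤ 16 * n := by linarith
      exact_mod_cast e3
    have e2 : 4 * Q * Z ≤ 4 * Q * (16 * n) := Nat.mul_le_mul_left _ e1
    have e3 : 4 * Q * (16 * n) = 64 * (Q * n) := by ring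
    omega
  refine ⟨{x | ∃ n ∈ S, x = Q * n + c₀}, ?_, ?_⟩
  · rintro x ⟨n, hn, rfl⟩
    have e1 := hQx n hn
    have e2 : Q * n ≤ Q * Z := Nat.mul_le_mul_left _ (mem_Icc.1 hn.1).2
    have e3 : Z * (2 * Q) = 2 * (Q * Z) := by ring
    refine ⟨by omega, by omega, ?_, hn.2.2.2⟩
    have h9 : ((Q * n : ℕ) : ℤ) ≡ 0 [ZMOD q] := by
      rw [Int.modEq_zero_iff_dvd]
      exact_mod_cast hqQ.mul_right n
    have h10 := h9.add hca
    push_cast at h10 ⊢
    simpa using h10
  · have hleft : c * (X / Real.log X ^ (K + 1)) ≤ c₂ * (Z / Real.log Z ^ (K + 1)) := by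
      rw [← hLX, ← hLZ, ← mul_div_assoc, ← mul_div_assoc]
      apply div_le_div₀ (by positivity) _ hLZ0 hLZX
      calc c * X ≤ c * (4 * Q * Z) := mul_le_mul_of_nonneg_left hX4r hcpos.le
        _ = c * (8 * Q) * Z / 2 := by ring
        _ ≤ c₂ * Z / 2 := by
            apply div_le_div_of_nonneg_right _ (by norm_num)
            exact mul_le_mul_of_nonneg_right hc8Q hZ0.le
        _ ≤ c₂ * Z := by
            have : 0 ≤ c₂ * Z := by positivity
            linarith
    refine hleft.trans (hr.trans ?_)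
    rw [Nat.cast_le]
    refine Set.ncard_le_ncard_of_injOn (fun n => Q * n + c₀) ?_ ?_ ?_
    · rintro n ⟨hn, hnr⟩
      refine ⟨⟨n, hn, rfl⟩, ?_⟩
      intro s t hs ht hL
      rw [← hLX] at hL ⊢
      have hst : (0 : ℝ) ≤ (s : ℝ) + t := by positivity
      have hsQ : s ≤ Q * n := by
        have e1 : (s : ℝ) * 64 ≤ X := by
          have e2 : c * 64 ≤ 1 := by
            refine le_trans ?_ hcB
            have : 0 ≤ c * 64 := by positivity
            nlinarith
          calc (s : ℝ) * 64 ≤ c * X * 64 := by linarith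
            _ = c * 64 * X := by ring
            _ ≤ 1 * X := mul_le_mul_of_nonneg_right e2 hX0.le
            _ = X := one_mul _
        have e3 : s * 64 ≤ X := by exact_mod_cast e1
        have e4 := hQx n hn
        omega
      rw [N_conv S Q c₀ n s t hQ hsQ]
      obtain ⟨e, he⟩ : ∃ e, e = (s + Q - 1) / Q := ⟨_, rfl⟩
      obtain ⟨f, hf⟩ : ∃ f, f = t / Q := ⟨_, rfl⟩
      have he1 : s ≤ Q * e := by
        have h1 := Nat.lt_mul_div_succ (s + Q - 1) hQ
        rw [← he] at h1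
        have h2 : Q * (e + 1) = Q * e + Q := by ring
        omega
      have he2 : Q * e ≤ s + Q := by
        have h1 := Nat.mul_div_le (s + Q - 1) Q
        rw [← he] at h1
        omega
      have hf1 : Q * f ≤ t := by rw [hf]; exact Nat.mul_div_le t Q
      have hf2 : t ≤ Q * f + Q := by
        have := Nat.lt_mul_div_succ t hQ
        rw [← hf] at this
        have h2 : Q * (f + 1) = Q * f + Q := by ring
        omega
      rw [← he, ← hf]
      have he1r : (s : ℝ) ≤ Q * e := by exact_mod_cast he1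
      have he2r : (Q : ℝ) * e ≤ s + Q := by exact_mod_cast he2
      have hf1r : (Q : ℝ) * f ≤ t := by exact_mod_cast hf1
      have hf2r : (t : ℝ) ≤ Q * f + Q := by exact_mod_cast hf2
      have hst2 : 2 * (Q : ℝ) ≤ s + t := by
        have e1 : c * (2 * Q) ≤ c * (s + t) := by
          calc c * (2 * Q) ≤ c * (64 * Q) := by
                apply mul_le_mul_of_nonneg_left _ hcpos.le
                linarith
            _ ≤ 1 := hcB
            _ ≤ LX := hLX1
            _ ≤ _ := hL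
        exact le_of_mul_le_mul_left e1 hcpos
      have hefl : ((s : ℝ) + t) / 2 ≤ Q * (e + f) := by linarith
      have hefu : (Q : ℝ) * (e + f) ≤ 2 * (s + t) := by linarith
      have hef0 : (0 : ℝ) ≤ (e : ℝ) + f := by positivity
      have hefu' : (e : ℝ) + f ≤ 2 * (s + t) := by
        refine le_trans ?_ hefu
        nlinarith
      -- the bounds of the lengths
      have hcZ : c * X + Q ≤ Q * (c₂ * Z) := by
        rw [div_le_iff₀ hc₂] at hbig
        have e1 : c * X * 8 ≤ c₂ * X := by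
          have : c * 8 ≤ c₂ := by
            refine le_trans ?_ hc8Q
            have : 0 ≤ c * 8 := by positivity
            nlinarith
          calc c * X * 8 = c * 8 * X := by ring
            _ ≤ c₂ * X := mul_le_mul_of_nonneg_right this hX0.le
        have e2 : c₂ * X ≤ 4 * (Q * (c₂ * Z)) := by
          calc c₂ * X ≤ c₂ * (4 * Q * Z) := mul_le_mul_of_nonneg_left hX4r hc₂.le
            _ = _ := by ring
        linarith
      have hen : (e : ℝ) ≤ c₂ * Z := by
        have e1 : (Q : ℝ) * e ≤ Q * (c₂ * Z) := by linarith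
        exact le_of_mul_le_mul_left e1 hQ0
      have hfn : (f : ℝ) ≤ c₂ * Z := by
        have e1 : (Q : ℝ) * f ≤ Q * (c₂ * Z) := by linarith
        exact le_of_mul_le_mul_left e1 hQ0
      have hce : c * (s + t) ≤ c₂ * (e + f) := by
        calc c * (s + t) = c * 2 * ((s + t) / 2) := by ring
          _ ≤ c * 2 * (Q * (e + f)) := mul_le_mul_of_nonneg_left hefl (by positivity)
          _ = c * (8 * Q) / 4 * (e + f) := by ring
          _ ≤ c₂ * (e + f) := by
              apply mul_le_mul_of_nonneg_right _ hef0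
              linarith
      have h6 := hnr e f hen hfn (by
        rw [← hLZ]
        exact hLZX.trans (hL.trans hce))
      rw [← hLZ] at h6
      refine ⟨le_trans ?_ h6.1, h6.2.trans ?_⟩
      · exact div_le_div₀ (by positivity) hce hLZ0 hLZX
      · rw [div_le_div_iff₀ (by positivity) (by positivity)]
        calc ((e : ℝ) + f) * (c * LX) ≤ 2 * (s + t) * (c * (2 ^ (K + 1) * LZ)) := by
              apply mul_le_mul hefu' _ (by positivity) (by positivity)
              exact mul_le_mul_of_nonneg_left hLXZ hcpos.le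
          _ = (s + t) * (c * (8 * 1 * 2 ^ (K + 1)) / 4 * LZ) := by ring
          _ ≤ (s + t) * (c * (8 * Q * 2 ^ (K + 1)) / 4 * LZ) := by
              apply mul_le_mul_of_nonneg_left _ hst
              apply mul_le_mul_of_nonneg_right _ hLZ0.le
              apply div_le_div_of_nonneg_right _ (by norm_num)
              apply mul_le_mul_of_nonneg_left _ hcpos.le
              apply mul_le_mul_of_nonneg_right _ (by positivity)
              linarith
          _ ≤ (s + t) * (c₂ * LZ) := by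
              apply mul_le_mul_of_nonneg_left _ hst
              apply mul_le_mul_of_nonneg_right _ hLZ0.le
              linarith
    · intro n _ n' _ hnn
      simp only at hnn
      have h6 : Q * n = Q * n' := by omega
      exact Nat.eq_of_mul_eq_mul_left hQ h6
    · refine (Set.finite_Iic (Q * Z + c₀)).subset ?_
      rintro x ⟨⟨n, hn, rfl⟩, -⟩
      have e2 : Q * n ≤ Q * Z := Nat.mul_le_mul_left _ (mem_Icc.1 hn.1).2
      show Q * n + c₀ ≤ Q * Z + c₀
      omega

theorem find_i (u : ℕ → ℕ) (R p : ℕ) (h0 : u 0 < p) (hR : p ≤ u R) :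
    ∃ i < R, u i < p ∧ p ≤ u (i + 1) := by
  induction R with
  | zero => omega
  | succ R ih =>
    by_cases h : p ≤ u R
    · obtain ⟨i, hi, h1⟩ := ih h
      exact ⟨i, by omega, h1⟩
    · exact ⟨R, by omega, by omega, hR⟩

/-- the `x ≡ a mod q` with `[x - R, x + R]` in `(u, v]` at which the primes of `[x - R, x + R]` are exactly the `x + y`,
`y ∈ B` -/
def PatIn (q : ℕ) (a : ℤ) (B : Finset ℤ) (R u v : ℕ) : Set ℕ :=
  {x : ℕ | u + R < x ∧ x + R ≤ v ∧ (x : ℤ) ≡ a [ZMOD q] ∧ PatAt B R x}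

open Classical in
/-- **Divisions.** -/
theorem pat_div (k : ℕ) : ∃ K : ℕ, ∀ (q : ℕ) (a : ℤ) (H : Finset ℤ) (R : ℕ), 0 < q →
    H.card = K → (∀ p : ℕ, p.Prime → ∃ r : ℤ, ∀ h ∈ H, ¬ (p : ℤ) ∣ r + h) →
    (∀ h ∈ H, IsCoprime (a + h) (q : ℤ)) → (∀ h ∈ H, |h| ≤ R) →
    ∃ c : ℝ, 0 < c ∧ ∀ᶠ X : ℕ in atTop, ∃ B ⊆ H, k ≤ B.card ∧ (∃ P : Set ℕ,
      (∀ x ∈ P, X ≤ 64 * x ∧ x ≤ X ∧ (x : ℤ) ≡ a [ZMOD q] ∧ PatAt B R x) ∧
      c * (X / Real.log X ^ (K + 1)) ≤ ({x : ℕ | x ∈ P ∧ RegPt P (K + 1) c X x}.ncard : ℝ)) ∧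
      ∀ (J : ℕ) (u : ℕ → ℕ), 64 * u 0 < X → X ≤ u J →
        (∀ i < J, Real.log X ^ (K + 1) ≤ c * ((u (i + 1) : ℝ) - u i) ∧ (u (i + 1) : ℝ) - u i ≤ c * X) →
        c * X ≤ ∑ i ∈ (range J).filter (fun i => c * (((u (i + 1) : ℝ) - u i) / Real.log X ^ (K + 1)) ≤
          ((PatIn q a B R (u i) (u (i + 1))).ncard : ℝ)), ((u (i + 1) : ℝ) - u i) := by
  obtain ⟨K, hK⟩ := pat_reg k
  refine ⟨K, ?_⟩
  intro q a H R hq hH hadm hcop hR
  obtain ⟨c', hc', hreg⟩ := hK q a H R hq hH hadm hcop hR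
  obtain ⟨c, hc⟩ : ∃ c : ℝ, c = min (c' / (4 * R + 4)) (c' ^ 2) := ⟨_, rfl⟩
  have hcpos : 0 < c := by rw [hc]; positivity
  have hcA : c * (4 * R + 4) ≤ c' := by
    have : c ≤ c' / (4 * R + 4) := by rw [hc]; exact min_le_left _ _
    rwa [le_div_iff₀ (by positivity)] at this
  have hcB : c ≤ c' ^ 2 := by rw [hc]; exact min_le_right _ _
  have hR0 : (0 : ℝ) ≤ R := Nat.cast_nonneg R
  have hcc4 : c * 4 ≤ c' := by
    have : 0 ≤ c * (4 * R) := by positivity
    linarith
  have hcc : c ≤ c' := by linarith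
  refine ⟨c, hcpos, ?_⟩
  filter_upwards [hreg, eventually_ge_atTop 64] with X hX hX3
  obtain ⟨B, hB, hBk, P, hP, hPr⟩ := hX
  have hXr : (64 : ℝ) ≤ X := by exact_mod_cast hX3
  have hX0 : (0 : ℝ) < X := by linarith
  have hlX1 : 1 ≤ Real.log (X : ℝ) := by
    rw [Real.le_log_iff_exp_le hX0]
    have := Real.exp_one_lt_d9
    linarith
  obtain ⟨L, hL⟩ : ∃ L, L = Real.log X ^ (K + 1) := ⟨_, rfl⟩
  have hL1 : 1 ≤ L := by rw [hL]; exact one_le_pow₀ hlX1
  have hL0 : 0 < L := by linarith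
  rw [← hL] at hPr ⊢
  have hfinP : ∀ c'' : ℝ, {x : ℕ | x ∈ P ∧ RegPt P (K + 1) c'' X x}.Finite := fun c'' =>
    (Set.finite_Iic X).subset fun x hx => (hP x hx.1).2.1
  refine ⟨B, hB, hBk, ⟨P, hP, ?_⟩, ?_⟩
  · refine (mul_le_mul_of_nonneg_right hcc (by positivity)).trans (hPr.trans ?_)
    rw [Nat.cast_le]
    exact Set.ncard_le_ncard (fun n hn => ⟨hn.1, hn.2.mono (by omega) hcpos hcc⟩) (hfinP c)
  · intro J u hu0 huJ hlen
    set A : Set ℕ := {x : ℕ | x ∈ P ∧ RegPt P (K + 1) c' X x} with hA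
    set F : ℕ → Finset ℕ := fun i => (Ioc (u i) (u (i + 1))).filter (fun x => x ∈ A) with hF
    set Gd : Finset ℕ := (range J).filter (fun i => c * (((u (i + 1) : ℝ) - u i) / L) ≤
          ((PatIn q a B R (u i) (u (i + 1))).ncard : ℝ)) with hGd
    have hlenpos : ∀ i < J, (0 : ℝ) < (u (i + 1) : ℝ) - u i := by
      intro i hi
      have h1 := (hlen i hi).1
      by_contra hcon
      push Not at hcon
      have := mul_nonpos_of_nonneg_of_nonpos hcpos.le hcon
      linarith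
    have hkey : ∀ i ∈ range J, (F i).Nonempty → i ∈ Gd ∧
        ((F i).card : ℝ) ≤ ((u (i + 1) : ℝ) - u i) / (c' * L) := by
      intro i hi hne
      have hiJ := mem_range.1 hi
      obtain ⟨x, hx⟩ := hne
      rw [hF, mem_filter, mem_Ioc] at hx
      obtain ⟨⟨hx1, hx2⟩, hxP, hxr⟩ := hx
      obtain ⟨hl1, hl2⟩ := hlen i hiJ
      have hl0 := hlenpos i hiJ
      have hcast1 : ((x - u i : ℕ) : ℝ) = (x : ℝ) - u i := by rw [Nat.cast_sub hx1.le]
      have hcast2 : ((u (i + 1) - x : ℕ) : ℝ) = (u (i + 1) : ℝ) - x := by rw [Nat.cast_sub hx2]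
      have hx1r : (u i : ℝ) ≤ x := by exact_mod_cast hx1.le
      have hx2r : (x : ℝ) ≤ u (i + 1) := by exact_mod_cast hx2
      have hcX : c * X ≤ c' * X := mul_le_mul_of_nonneg_right hcc hX0.le
      have hsum : ((x - u i : ℕ) : ℝ) + ((u (i + 1) - x : ℕ) : ℝ) = (u (i + 1) : ℝ) - u i := by
        rw [hcast1, hcast2]
        ring
      have h1 := hxr (x - u i) (u (i + 1) - x) (by rw [hcast1]; linarith) (by rw [hcast2]; linarith) (by
        rw [hsum, ← hL]
        exact hl1.trans (mul_le_mul_of_nonneg_right hcc hl0.le))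
      have e1 : x - (x - u i) = u i := by omega
      have e2 : x + (u (i + 1) - x) = u (i + 1) := by omega
      rw [hsum, e1, e2, ← hL] at h1
      obtain ⟨hlow, hup⟩ := h1
      constructor
      · rw [hGd, mem_filter]
        refine ⟨hi, ?_⟩
        have hcnt : N P (u i) (u (i + 1)) ≤ (PatIn q a B R (u i) (u (i + 1))).ncard + 2 * R := by
          have hfin : (PatIn q a B R (u i) (u (i + 1))).Finite :=
            (Set.finite_Iic (u (i + 1))).subset fun y hy => by
              have := hy.2.1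
              show y ≤ u (i + 1)
              omega
          have hsub : (((Ioc (u i) (u (i + 1))).filter (fun m => m ∈ P) : Finset ℕ) : Set ℕ) ⊆
              PatIn q a B R (u i) (u (i + 1)) ∪ ((Ioc (u i) (u i + R) ∪ Ioc (u (i + 1) - R) (u (i + 1)) :
                Finset ℕ) : Set ℕ) := by
            intro y hy
            rw [mem_coe, mem_filter, mem_Ioc] at hy
            obtain ⟨⟨hy1, hy2⟩, hy3⟩ := hy
            by_cases h7 : u i + R < y ∧ y + R ≤ u (i + 1)
            · left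
              exact ⟨h7.1, h7.2, (hP y hy3).2.2⟩
            · right
              rw [mem_coe, mem_union, mem_Ioc, mem_Ioc]
              by_cases h8 : y ≤ u i + R
              · exact Or.inl ⟨hy1, h8⟩
              · refine Or.inr ⟨?_, hy2⟩
                have h9 : ¬ y + R ≤ u (i + 1) := fun h10 => h7 ⟨by omega, h10⟩
                omega
          have h3 := Set.ncard_le_ncard hsub (hfin.union (Finset.finite_toSet _))
          have h4 := h3.trans (Set.ncard_union_le _ _)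
          rw [Set.ncard_coe_finset, Set.ncard_coe_finset] at h4
          have h5 : (Ioc (u i) (u i + R) ∪ Ioc (u (i + 1) - R) (u (i + 1))).card ≤ 2 * R := by
            refine (card_union_le _ _).trans ?_
            rw [Nat.card_Ioc, Nat.card_Ioc]
            omega
          unfold Pool.Agent.TH977.PW.N
          omega
        have hcntr : (N P (u i) (u (i + 1)) : ℝ) ≤ ((PatIn q a B R (u i) (u (i + 1))).ncard : ℝ) + 2 * R := by
          exact_mod_cast hcnt
        obtain ⟨l, hl⟩ : ∃ l : ℝ, l = (u (i + 1) : ℝ) - u i := ⟨_, rfl⟩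
        rw [← hl] at hlow hl1 hl0 ⊢
        have h6 : 4 * (R : ℝ) + 4 ≤ c' * l / L := by
          rw [le_div_iff₀ hL0]
          calc (4 * (R : ℝ) + 4) * L ≤ (4 * (R : ℝ) + 4) * (c * l) :=
                mul_le_mul_of_nonneg_left hl1 (by positivity)
            _ = c * (4 * R + 4) * l := by ring
            _ ≤ c' * l := mul_le_mul_of_nonneg_right hcA hl0.le
        have h7 : c * (l / L) ≤ c' * l / L / 4 := by
          have : c' * l / L / 4 = c' / 4 * (l / L) := by ring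
          rw [this]
          apply mul_le_mul_of_nonneg_right _ (by positivity)
          linarith
        linarith
      · refine le_trans ?_ hup
        unfold Pool.Agent.TH977.PW.N
        rw [Nat.cast_le]
        apply card_le_card
        intro y hy
        rw [hF, mem_filter] at hy
        rw [mem_filter]
        exact ⟨hy.1, hy.2.1⟩
    have hcov : A ⊆ ((Gd.biUnion F : Finset ℕ) : Set ℕ) := by
      intro x hx
      obtain ⟨hx1, hx2, -, -⟩ := hP x hx.1
      obtain ⟨i, hiJ, hi1, hi2⟩ := find_i u J x (by omega) (by omega)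
      have hxF : x ∈ F i := by
        rw [hF, mem_filter, mem_Ioc]
        exact ⟨⟨hi1, hi2⟩, hx⟩
      rw [mem_coe, mem_biUnion]
      exact ⟨i, (hkey i (mem_range.2 hiJ) ⟨x, hxF⟩).1, hxF⟩
    have h1 : (A.ncard : ℝ) ≤ ∑ i ∈ Gd, ((u (i + 1) : ℝ) - u i) / (c' * L) := by
      have e1 := Set.ncard_le_ncard hcov (Finset.finite_toSet _)
      rw [Set.ncard_coe_finset] at e1
      have e2 : (A.ncard : ℝ) ≤ ∑ i ∈ Gd, ((F i).card : ℝ) := by exact_mod_cast e1.trans card_biUnion_le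
      refine e2.trans (sum_le_sum fun i hi => ?_)
      have hiJ := (mem_filter.1 hi).1
      rcases (F i).eq_empty_or_nonempty with h0 | h0
      · rw [h0, card_empty]
        have := hlenpos i (mem_range.1 hiJ)
        push_cast
        positivity
      · exact (hkey i hiJ h0).2
    rw [← sum_div] at h1
    have h2 : c' * (X / L) * (c' * L) ≤ ∑ i ∈ Gd, ((u (i + 1) : ℝ) - u i) := by
      rw [← le_div_iff₀ (by positivity)]
      exact hPr.trans h1
    refine le_trans ?_ h2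
    have h3 : c' * (X / L) * (c' * L) = c' ^ 2 * X := by field_simp
    rw [h3]
    exact mul_le_mul_of_nonneg_right hcB hX0.le

end Pool.Agent.N743.MT
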