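import Pool.Agent.N743.MT.Pos

/-!
# Quarter squares and clusters of primes
-/

set_option autoImplicit false

namespace Pool.Agent.N743.MT

open Finset Filter Topology

/-- the quarter squares `⌊i ^ 2 / 4⌋`: `n ^ 2` for `i = 2 n`, `n ^ 2 + n` for `i = 2 n + 1` -/
def Qs (i : ℕ) : ℕ := i ^ 2 / 4

theorem Qs_even (n : ℕ) : Qs (2 * n) = n ^ 2 := by
  unfold Qs
  have : (2 * n) ^ 2 = 4 * n ^ 2 := by ring
  omega

theorem Qs_odd (n : ℕ) : Qs (2 * n + 1) = n ^ 2 + n := by
  unfold Qs
  have : (2 * n + 1) ^ 2 = 4 * (n ^ 2 + n) + 1 := by ring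
  omega

theorem Qs_succ (i : ℕ) : Qs (i + 1) = Qs i + (i + 1) / 2 := by
  rcases Nat.even_or_odd' i with ⟨n, rfl | rfl⟩
  · rw [Qs_odd, Qs_even]
    omega
  · have h1 : 2 * n + 1 + 1 = 2 * (n + 1) := by ring
    rw [h1, Qs_even, Qs_odd]
    have h2 : (n + 1) ^ 2 = n ^ 2 + 2 * n + 1 := by ring
    omega

theorem Qs_add (i d : ℕ) : Qs i + d * ((i + 1) / 2) ≤ Qs (i + d) := by
  induction d with
  | zero => simp
  | succ d ih =>
    have h1 : i + (d + 1) = (i + d) + 1 := by ring
    rw [h1, Qs_succ]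
    have h2 : (i + 1) / 2 ≤ (i + d + 1) / 2 := Nat.div_le_div_right (by omega)
    have h3 : (d + 1) * ((i + 1) / 2) = d * ((i + 1) / 2) + (i + 1) / 2 := by ring
    omega

theorem Qs_mono {i j : ℕ} (h : i ≤ j) : Qs i ≤ Qs j := by
  unfold Qs
  exact Nat.div_le_div_right (Nat.pow_le_pow_left h 2)

/-- the index of the interval between quarter squares which contains `y` -/
def ph (y : ℕ) : ℕ := Nat.sqrt (4 * y + 1)

theorem ph_le (y : ℕ) : Qs (ph y) ≤ y := by
  unfold Qs ph
  have h1 := Nat.sqrt_le' (4 * y + 1)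
  omega

theorem lt_ph (y : ℕ) : y < Qs (ph y + 1) := by
  unfold ph
  have h1 := Nat.lt_succ_sqrt' (4 * y + 1)
  rw [Nat.succ_eq_add_one] at h1
  have h2 : (Nat.sqrt (4 * y + 1) + 1) ^ 2 = 4 * Qs (Nat.sqrt (4 * y + 1) + 1) +
      ((Nat.sqrt (4 * y + 1) + 1) ^ 2) % 4 := by
    unfold Qs
    omega
  have h3 : ((Nat.sqrt (4 * y + 1) + 1) ^ 2) % 4 ≤ 1 := by
    rcases Nat.even_or_odd' (Nat.sqrt (4 * y + 1) + 1) with ⟨n, hn | hn⟩
    · rw [hn]
      have : (2 * n) ^ 2 = 4 * n ^ 2 := by ring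
      omega
    · rw [hn]
      have : (2 * n + 1) ^ 2 = 4 * (n ^ 2 + n) + 1 := by ring
      omega
  omega

theorem ph_eq {i y : ℕ} (h1 : Qs i ≤ y) (h2 : y < Qs (i + 1)) : ph y = i := by
  have h3 := ph_le y
  have h4 := lt_ph y
  rcases lt_trichotomy (ph y) i with h | h | h
  · have := Qs_mono (show ph y + 1 ≤ i from h)
    omega
  · exact h
  · have := Qs_mono (show i + 1 ≤ ph y from h)
    omega

theorem ph_mono {x y : ℕ} (h : x ≤ y) : ph x ≤ ph y := Nat.sqrt_le_sqrt (by omega)

/-- few terms of an arithmetic progression in a short interval -/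
theorem few_terms (T x D A g : ℕ) (hD : 0 < D) :
    ((range T).filter (fun j => A ≤ x + j * D ∧ x + j * D < A + g)).card ≤ g / D + 1 := by
  classical
  rcases ((range T).filter (fun j => A ≤ x + j * D ∧ x + j * D < A + g)).eq_empty_or_nonempty with h | h
  · rw [h]; simp
  · set m := ((range T).filter (fun j => A ≤ x + j * D ∧ x + j * D < A + g)).min' h with hm
    have hmm := Finset.min'_mem _ h
    rw [← hm, mem_filter] at hmm
    have hsub : ((range T).filter (fun j => A ≤ x + j * D ∧ x + j * D < A + g)) ⊆ Icc m (m + g / D) := by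
      intro j hj
      have h1 := Finset.min'_le _ j hj
      rw [← hm] at h1
      rw [mem_filter] at hj
      rw [mem_Icc]
      refine ⟨h1, ?_⟩
      obtain ⟨d, rfl⟩ := Nat.exists_eq_add_of_le h1
      have h2 : (m + d) * D = m * D + d * D := by ring
      have h3 : d * D ≤ g := by omega
      have h4 : d ≤ g / D := (Nat.le_div_iff_mul_le hD).2 h3
      omega
    refine (card_le_card hsub).trans ?_
    rw [Nat.card_Icc]
    generalize g / D = z
    omega

open Classical in
/-- the number of the elements of a set with few elements in each window -/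
theorem windows_count (R : ℕ → Prop) (l w i₀ : ℕ) (m : ℕ)
    (h : ∀ s, s < m → ((range l).filter (fun j => R (i₀ + s * l + j))).card ≤ w) :
    ((Ico i₀ (i₀ + m * l)).filter R).card ≤ m * w := by
  induction m with
  | zero => simp
  | succ m ih =>
    have h1 : ((Ico i₀ (i₀ + (m + 1) * l)).filter R) ⊆ ((Ico i₀ (i₀ + m * l)).filter R) ∪
        (((range l).filter (fun j => R (i₀ + m * l + j))).image (fun j => i₀ + m * l + j)) := by
      intro i hi
      rw [mem_filter, mem_Ico] at hi
      obtain ⟨⟨h1, h2⟩, h3⟩ := hi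
      rw [mem_union]
      by_cases h4 : i < i₀ + m * l
      · left
        rw [mem_filter, mem_Ico]
        exact ⟨⟨h1, h4⟩, h3⟩
      · right
        push Not at h4
        obtain ⟨d, rfl⟩ := Nat.exists_eq_add_of_le h4
        rw [mem_image]
        refine ⟨d, ?_, rfl⟩
        rw [mem_filter, mem_range]
        have h5 : (m + 1) * l = m * l + l := by ring
        exact ⟨by omega, h3⟩
    refine (card_le_card h1).trans ((card_union_le _ _).trans ?_)
    have h2 := ih fun s hs => h s (by omega)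
    have h3 := card_image_le (s := (range l).filter (fun j => R (i₀ + m * l + j))) (f := fun j => i₀ + m * l + j)
    have h4 := h m (by omega)
    have h5 : (m + 1) * w = m * w + w := by ring
    omega

open Classical in
/-- **Counting.** `x, x + D, ..., x + (T - 1) D` in rich intervals -/
theorem rich_terms (R : ℕ → Prop) (l w T x D : ℕ) (hl : 1 ≤ l) (hD : 0 < D)
    (h : ∀ i, ph x ≤ i → i ≤ ph (x + T * D) → ((range l).filter (fun j => R (i + j))).card ≤ w) :
    (((range T).filter (fun j => R (ph (x + j * D)))).card : ℝ) ≤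
      ((ph (x + T * D) - ph x + 1 : ℕ) / l + 1) * w * (((ph (x + T * D) + 1 : ℕ) : ℝ) / (2 * D) + 1) := by
  set i₀ := ph x with hi₀
  set i₁ := ph (x + T * D) with hi₁
  have h01 : i₀ ≤ i₁ := ph_mono (by omega)
  set m := (i₁ - i₀) / l + 1 with hm
  have hmw : ((Ico i₀ (i₀ + m * l)).filter R).card ≤ m * w := by
    refine windows_count R l w i₀ m fun s hs => h _ (by omega) ?_
    have h1 : s ≤ (i₁ - i₀) / l := by omega
    have h2 : s * l ≤ (i₁ - i₀) / l * l := Nat.mul_le_mul_right _ h1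
    have h3 := Nat.div_mul_le_self (i₁ - i₀) l
    omega
  have hcov : i₁ < i₀ + m * l := by
    have h1 := Nat.lt_div_mul_add (show 0 < l by omega) (a := i₁ - i₀)
    have h2 : m * l = (i₁ - i₀) / l * l + l := by rw [hm]; ring
    omega
  have hsub : (range T).filter (fun j => R (ph (x + j * D))) ⊆
      ((Ico i₀ (i₀ + m * l)).filter R).biUnion (fun i => (range T).filter
        (fun j => Qs i ≤ x + j * D ∧ x + j * D < Qs i + (i + 1) / 2)) := by
    intro j hj
    rw [mem_filter, mem_range] at hj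
    rw [mem_biUnion]
    refine ⟨ph (x + j * D), ?_, ?_⟩
    · rw [mem_filter, mem_Ico]
      have h1 : i₀ ≤ ph (x + j * D) := ph_mono (by omega)
      have h2 : ph (x + j * D) ≤ i₁ := ph_mono (by
        have := Nat.mul_le_mul_right D hj.1.le
        omega)
      exact ⟨⟨h1, by omega⟩, hj.2⟩
    · rw [mem_filter, mem_range]
      have h1 := lt_ph (x + j * D)
      rw [Qs_succ] at h1
      exact ⟨hj.1, ph_le _, h1⟩
  have hcard : ((range T).filter (fun j => R (ph (x + j * D)))).card ≤ m * w * ((i₁ + 1) / 2 / D + 1) := by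
    refine (card_le_card hsub).trans (card_biUnion_le.trans ?_)
    have h1 : ∀ i ∈ (Ico i₀ (i₀ + m * l)).filter R, ((range T).filter
        (fun j => Qs i ≤ x + j * D ∧ x + j * D < Qs i + (i + 1) / 2)).card ≤ (i₁ + 1) / 2 / D + 1 := by
      intro i hi
      by_cases hi1 : i ≤ i₁
      · refine (few_terms T x D (Qs i) ((i + 1) / 2) hD).trans ?_
        have : (i + 1) / 2 / D ≤ (i₁ + 1) / 2 / D := Nat.div_le_div_right (Nat.div_le_div_right (by omega))
        omega
      · have h2 : (range T).filter (fun j => Qs i ≤ x + j * D ∧ x + j * D < Qs i + (i + 1) / 2) = ∅ := by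
          rw [filter_eq_empty_iff]
          intro j hj h3
          rw [mem_range] at hj
          rw [← Qs_succ] at h3
          have h4 := ph_eq h3.1 h3.2
          have h5 : ph (x + j * D) ≤ i₁ := ph_mono (by
            have := Nat.mul_le_mul_right D hj.le
            omega)
          omega
        rw [h2]
        simp
    calc ∑ i ∈ (Ico i₀ (i₀ + m * l)).filter R, ((range T).filter
        (fun j => Qs i ≤ x + j * D ∧ x + j * D < Qs i + (i + 1) / 2)).card ≤
        ∑ _i ∈ (Ico i₀ (i₀ + m * l)).filter R, ((i₁ + 1) / 2 / D + 1) := sum_le_sum h1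
      _ = ((Ico i₀ (i₀ + m * l)).filter R).card * ((i₁ + 1) / 2 / D + 1) := by
          rw [sum_const, smul_eq_mul]
      _ ≤ _ := Nat.mul_le_mul_right _ hmw
  have hl0 : (0 : ℝ) < l := by exact_mod_cast hl
  have hD0 : (0 : ℝ) < D := by exact_mod_cast hD
  have hm2 : (m : ℝ) ≤ ((i₁ - i₀ + 1 : ℕ) : ℝ) / l + 1 := by
    rw [hm]
    push_cast
    have h1 : (((i₁ - i₀) / l : ℕ) : ℝ) ≤ ((i₁ - i₀ : ℕ) : ℝ) / l := Nat.cast_div_le
    have h2 : ((i₁ - i₀ : ℕ) : ℝ) / l ≤ (((i₁ - i₀ : ℕ) : ℝ) + 1) / l := by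
      apply div_le_div_of_nonneg_right _ hl0.le
      linarith
    linarith
  have hmu : (((i₁ + 1) / 2 / D + 1 : ℕ) : ℝ) ≤ ((i₁ + 1 : ℕ) : ℝ) / (2 * D) + 1 := by
    push_cast
    have h1 : (((i₁ + 1) / 2 / D : ℕ) : ℝ) ≤ ((i₁ + 1 : ℕ) : ℝ) / (2 * D) := by
      rw [Nat.div_div_eq_div_mul]
      refine Nat.cast_div_le.trans (le_of_eq ?_)
      push_cast
      ring
    push_cast at h1
    linarith
  calc (((range T).filter (fun j => R (ph (x + j * D)))).card : ℝ) ≤
      ((m * w * ((i₁ + 1) / 2 / D + 1) : ℕ) : ℝ) := by exact_mod_cast hcard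
    _ = (m : ℝ) * w * (((i₁ + 1) / 2 / D + 1 : ℕ) : ℝ) := by push_cast; ring
    _ ≤ _ := by
      apply mul_le_mul _ hmu (by positivity) (by positivity)
      exact mul_le_mul_of_nonneg_right hm2 (Nat.cast_nonneg w)

end Pool.Agent.N743.MT
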