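import Pool.Agent.N743.MT.Opp

/-!
# Clusters of primes and the fractional parts of their square roots
-/

set_option autoImplicit false

namespace Pool.Agent.N743.MT

open Finset Filter Topology

/-- `⌊i ^ 2 / m ^ 2⌋` -/
def Fq (m i : ℕ) : ℕ := i ^ 2 / m ^ 2

theorem Fq_mono {m i j : ℕ} (h : i ≤ j) : Fq m i ≤ Fq m j :=
  Nat.div_le_div_right (Nat.pow_le_pow_left h 2)

theorem Fq_succ (m i : ℕ) (hm : 1 ≤ m) : Fq m (i + 1) ≤ Fq m i + ((2 * i + 1) / m ^ 2 + 1) := by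
  unfold Fq
  have h0 : 0 < m ^ 2 := by positivity
  have h1 : (i + 1) ^ 2 = i ^ 2 + (2 * i + 1) := by ring
  rw [h1]
  have h2 := Nat.div_add_mod (i ^ 2) (m ^ 2)
  have h3 := Nat.div_add_mod (2 * i + 1) (m ^ 2)
  have h4 := Nat.mod_lt (i ^ 2) h0
  have h5 := Nat.mod_lt (2 * i + 1) h0
  rw [← Nat.lt_succ_iff, Nat.div_lt_iff_lt_mul h0]
  have h6 : (i ^ 2 / m ^ 2 + ((2 * i + 1) / m ^ 2 + 1)).succ * m ^ 2 =
      m ^ 2 * (i ^ 2 / m ^ 2) + m ^ 2 * ((2 * i + 1) / m ^ 2) + 2 * m ^ 2 := by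
    rw [Nat.succ_eq_add_one]; ring
  rw [h6]
  omega

theorem Fq_add (m i d : ℕ) (hm : 1 ≤ m) : Fq m i + 2 * i * d / m ^ 2 ≤ Fq m (i + d) := by
  unfold Fq
  have h0 : 0 < m ^ 2 := by positivity
  rw [Nat.le_div_iff_mul_le h0]
  have h2 := Nat.div_mul_le_self (i ^ 2) (m ^ 2)
  have h3 := Nat.div_mul_le_self (2 * i * d) (m ^ 2)
  have h1 : (i + d) ^ 2 = i ^ 2 + 2 * i * d + d ^ 2 := by ring
  rw [h1, add_mul]
  have := Nat.zero_le (d ^ 2)
  omega

/-- the index of the interval which contains `y` -/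
def pq (m y : ℕ) : ℕ := Nat.sqrt (m ^ 2 * (y + 1) - 1)

theorem pq_le (m y : ℕ) (hm : 1 ≤ m) : Fq m (pq m y) ≤ y := by
  unfold Fq pq
  have h0 : 0 < m ^ 2 := by positivity
  have h1 := Nat.sqrt_le' (m ^ 2 * (y + 1) - 1)
  rw [← Nat.lt_succ_iff, Nat.div_lt_iff_lt_mul h0]
  have h2 : y.succ * m ^ 2 = m ^ 2 * (y + 1) := by rw [Nat.succ_eq_add_one]; ring
  rw [h2]
  have h3 : 0 < m ^ 2 * (y + 1) := by positivity
  omega

theorem lt_pq (m y : ℕ) (hm : 1 ≤ m) : y < Fq m (pq m y + 1) := by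
  unfold Fq pq
  have h0 : 0 < m ^ 2 := by positivity
  have h1 := Nat.lt_succ_sqrt' (m ^ 2 * (y + 1) - 1)
  rw [Nat.succ_eq_add_one] at h1
  rw [← Nat.succ_le_iff, Nat.le_div_iff_mul_le h0]
  have h2 : y.succ * m ^ 2 = m ^ 2 * (y + 1) := by rw [Nat.succ_eq_add_one]; ring
  rw [h2]
  omega

theorem pq_eq {m i y : ℕ} (hm : 1 ≤ m) (h1 : Fq m i ≤ y) (h2 : y < Fq m (i + 1)) : pq m y = i := by
  have h3 := pq_le m y hm
  have h4 := lt_pq m y hm
  rcases lt_trichotomy (pq m y) i with h | h | h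
  · have := Fq_mono (m := m) (show pq m y + 1 ≤ i from h)
    omega
  · exact h
  · have := Fq_mono (m := m) (show i + 1 ≤ pq m y from h)
    omega

theorem pq_mono {m x y : ℕ} (h : x ≤ y) : pq m x ≤ pq m y :=
  Nat.sqrt_le_sqrt (Nat.sub_le_sub_right (Nat.mul_le_mul_left _ (by omega)) 1)

open Classical in
/-- **Counting.** `x, x + D, ..., x + (T - 1) D` in rich intervals -/
theorem rich_termsq (m : ℕ) (hm : 1 ≤ m) (R : ℕ → Prop) (l w T x D : ℕ) (hl : 1 ≤ l) (hD : 0 < D)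
    (h : ∀ i, pq m x ≤ i → i ≤ pq m (x + T * D) → ((range l).filter (fun j => R (i + j))).card ≤ w) :
    (((range T).filter (fun j => R (pq m (x + j * D)))).card : ℝ) ≤
      ((pq m (x + T * D) - pq m x + 1 : ℕ) / l + 1) * w *
        (2 * (pq m (x + T * D) : ℝ) / (m ^ 2 * D) + 3) := by
  set i₀ := pq m x with hi₀
  set i₁ := pq m (x + T * D) with hi₁
  have h01 : i₀ ≤ i₁ := pq_mono (by omega)
  set M := (i₁ - i₀) / l + 1 with hM
  have hmw : ((Ico i₀ (i₀ + M * l)).filter R).card ≤ M * w := by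
    refine windows_count R l w i₀ M fun s hs => h _ (by omega) ?_
    have h1 : s ≤ (i₁ - i₀) / l := by omega
    have h2 : s * l ≤ (i₁ - i₀) / l * l := Nat.mul_le_mul_right _ h1
    have h3 := Nat.div_mul_le_self (i₁ - i₀) l
    omega
  have hcov : i₁ < i₀ + M * l := by
    have h1 := Nat.lt_div_mul_add (show 0 < l by omega) (a := i₁ - i₀)
    have h2 : M * l = (i₁ - i₀) / l * l + l := by rw [hM]; ring
    omega
  have hsub : (range T).filter (fun j => R (pq m (x + j * D))) ⊆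
      ((Ico i₀ (i₀ + M * l)).filter R).biUnion (fun i => (range T).filter
        (fun j => Fq m i ≤ x + j * D ∧ x + j * D < Fq m (i + 1))) := by
    intro j hj
    rw [mem_filter, mem_range] at hj
    rw [mem_biUnion]
    refine ⟨pq m (x + j * D), ?_, ?_⟩
    · rw [mem_filter, mem_Ico]
      have h1 : i₀ ≤ pq m (x + j * D) := pq_mono (by omega)
      have h2 : pq m (x + j * D) ≤ i₁ := pq_mono (by
        have := Nat.mul_le_mul_right D hj.1.le
        omega)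
      exact ⟨⟨h1, by omega⟩, hj.2⟩
    · rw [mem_filter, mem_range]
      exact ⟨hj.1, pq_le _ _ hm, lt_pq _ _ hm⟩
  have hcard : ((range T).filter (fun j => R (pq m (x + j * D)))).card ≤
      M * w * (((2 * i₁ + 1) / m ^ 2 + 1) / D + 1) := by
    refine (card_le_card hsub).trans (card_biUnion_le.trans ?_)
    have h1 : ∀ i ∈ (Ico i₀ (i₀ + M * l)).filter R, ((range T).filter
        (fun j => Fq m i ≤ x + j * D ∧ x + j * D < Fq m (i + 1))).card ≤
          ((2 * i₁ + 1) / m ^ 2 + 1) / D + 1 := by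
      intro i hi
      by_cases hi1 : i ≤ i₁
      · have h2 : ((range T).filter (fun j => Fq m i ≤ x + j * D ∧ x + j * D < Fq m (i + 1))) ⊆
            ((range T).filter (fun j => Fq m i ≤ x + j * D ∧
              x + j * D < Fq m i + ((2 * i + 1) / m ^ 2 + 1))) := by
          intro j hj
          rw [mem_filter] at hj ⊢
          exact ⟨hj.1, hj.2.1, lt_of_lt_of_le hj.2.2 (Fq_succ m i hm)⟩
        refine (card_le_card h2).trans ((few_terms T x D (Fq m i) ((2 * i + 1) / m ^ 2 + 1) hD).trans ?_)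
        have h3 : ((2 * i + 1) / m ^ 2 + 1) / D ≤ ((2 * i₁ + 1) / m ^ 2 + 1) / D :=
          Nat.div_le_div_right (by
            have := Nat.div_le_div_right (c := m ^ 2) (show 2 * i + 1 ≤ 2 * i₁ + 1 by omega)
            omega)
        omega
      · have h2 : (range T).filter (fun j => Fq m i ≤ x + j * D ∧ x + j * D < Fq m (i + 1)) = ∅ := by
          rw [filter_eq_empty_iff]
          intro j hj h3
          rw [mem_range] at hj
          have h4 := pq_eq hm h3.1 h3.2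
          have h5 : pq m (x + j * D) ≤ i₁ := pq_mono (by
            have := Nat.mul_le_mul_right D hj.le
            omega)
          omega
        rw [h2]
        simp
    calc ∑ i ∈ (Ico i₀ (i₀ + M * l)).filter R, ((range T).filter
        (fun j => Fq m i ≤ x + j * D ∧ x + j * D < Fq m (i + 1))).card ≤
        ∑ _i ∈ (Ico i₀ (i₀ + M * l)).filter R, (((2 * i₁ + 1) / m ^ 2 + 1) / D + 1) := sum_le_sum h1
      _ = ((Ico i₀ (i₀ + M * l)).filter R).card * (((2 * i₁ + 1) / m ^ 2 + 1) / D + 1) := by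
          rw [sum_const, smul_eq_mul]
      _ ≤ _ := Nat.mul_le_mul_right _ hmw
  have hl0 : (0 : ℝ) < l := by exact_mod_cast hl
  have hD1 : (1 : ℝ) ≤ D := by exact_mod_cast hD
  have hD0 : (0 : ℝ) < D := by linarith
  have hm1 : (1 : ℝ) ≤ (m : ℝ) ^ 2 := by
    have : (1 : ℝ) ≤ m := by exact_mod_cast hm
    nlinarith
  have hm0 : (0 : ℝ) < (m : ℝ) ^ 2 := by linarith
  have hm2 : (M : ℝ) ≤ ((i₁ - i₀ + 1 : ℕ) : ℝ) / l + 1 := by
    rw [hM]
    push_cast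
    have h1 : (((i₁ - i₀) / l : ℕ) : ℝ) ≤ ((i₁ - i₀ : ℕ) : ℝ) / l := Nat.cast_div_le
    have h2 : ((i₁ - i₀ : ℕ) : ℝ) / l ≤ (((i₁ - i₀ : ℕ) : ℝ) + 1) / l := by
      apply div_le_div_of_nonneg_right _ hl0.le
      linarith
    linarith
  have hmu : ((((2 * i₁ + 1) / m ^ 2 + 1) / D + 1 : ℕ) : ℝ) ≤ 2 * (i₁ : ℝ) / (m ^ 2 * D) + 3 := by
    push_cast
    have h1 : ((((2 * i₁ + 1) / m ^ 2 + 1) / D : ℕ) : ℝ) ≤ (((2 * i₁ + 1) / m ^ 2 + 1 : ℕ) : ℝ) / D :=
      Nat.cast_div_le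
    have h2 : (((2 * i₁ + 1) / m ^ 2 : ℕ) : ℝ) ≤ ((2 * i₁ + 1 : ℕ) : ℝ) / ((m ^ 2 : ℕ) : ℝ) := Nat.cast_div_le
    have h3 : (((2 * i₁ + 1) / m ^ 2 + 1 : ℕ) : ℝ) ≤ 2 * (i₁ : ℝ) / m ^ 2 + 2 := by
      push_cast at h2 ⊢
      have h4 : (2 * (i₁ : ℝ) + 1) / m ^ 2 = 2 * (i₁ : ℝ) / m ^ 2 + 1 / m ^ 2 := by rw [add_div]
      have h5 : 1 / (m : ℝ) ^ 2 ≤ 1 := by rw [div_le_one hm0]; exact hm1
      linarith
    have h4 : (((2 * i₁ + 1) / m ^ 2 + 1 : ℕ) : ℝ) / D ≤ 2 * (i₁ : ℝ) / (m ^ 2 * D) + 2 := by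
      rw [div_le_iff₀ hD0]
      have h5 : (2 * (i₁ : ℝ) / (m ^ 2 * D) + 2) * D = 2 * (i₁ : ℝ) / m ^ 2 + 2 * D := by
        field_simp
      rw [h5]
      linarith
    push_cast at h1 h4
    linarith
  calc (((range T).filter (fun j => R (pq m (x + j * D)))).card : ℝ) ≤
      ((M * w * (((2 * i₁ + 1) / m ^ 2 + 1) / D + 1) : ℕ) : ℝ) := by exact_mod_cast hcard
    _ = (M : ℝ) * w * ((((2 * i₁ + 1) / m ^ 2 + 1) / D + 1 : ℕ) : ℝ) := by push_cast; ring
    _ ≤ _ := by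
      apply mul_le_mul _ hmu (by positivity) (by positivity)
      exact mul_le_mul_of_nonneg_right hm2 (Nat.cast_nonneg w)

/-- the difference is large -/
theorem small_inv (Dl Tp l e0 et q N m : ℝ) (hl : 0 ≤ l) (hm : 1 ≤ m) (he : 0 < e0)
    (het : et = e0 / (16 * m ^ 2)) (hq : 1 ≤ q) (hN0 : 0 < N) (hD1 : et * N / 2 ≤ Dl) (hDl0 : 0 < Dl)
    (hTp1 : 1 ≤ Tp) (hTp : 32 / e0 * ((2 + l) * (20 * q / et + 3)) ≤ Tp)
    (hNbig : (2 * m ^ 2 * Tp + 2 * m ^ 2 + 3) * (32 / e0) * (2 * Tp) * (1 / N) ≤ 1) : 1 / Dl ≤ e0 / 32 := by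
  have hm2 : 1 ≤ m ^ 2 := one_le_pow₀ hm
  have het0 : 0 < et := by rw [het]; positivity
  have e1 : 1 / Dl ≤ 2 / (et * N) := by
    rw [div_le_div_iff₀ hDl0 (by positivity)]
    linarith
  have e2 : 2 / (et * N) = 2 / et * (1 / N) := by field_simp
  have e3 : 2 / et = 32 * m ^ 2 / e0 := by rw [het]; field_simp; norm_num
  have f3 : 1 / e0 ≤ Tp / 32 := by
    have g2 : 0 ≤ 20 * q / et := by positivity
    have g4 : 1 ≤ (2 + l) * (20 * q / et + 3) := by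
      have g5 : 1 * 1 ≤ (2 + l) * (20 * q / et + 3) := mul_le_mul (by linarith) (by linarith) (by norm_num) (by linarith)
      linarith
    have g1 : 32 / e0 * 1 ≤ 32 / e0 * ((2 + l) * (20 * q / et + 3)) :=
      mul_le_mul_of_nonneg_left g4 (by positivity)
    have g3 : 32 / e0 = 32 * (1 / e0) := by ring
    linarith
  have f1 : 32 * m ^ 2 / e0 * (1 / N) * (32 / e0) ≤ 1 := by
    refine le_trans ?_ hNbig
    have f2 : 32 * m ^ 2 / e0 * (1 / N) * (32 / e0) = (32 * m ^ 2 * (32 / e0) * (1 / e0)) * (1 / N) := by ring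
    rw [f2]
    apply mul_le_mul_of_nonneg_right _ (by positivity)
    calc 32 * m ^ 2 * (32 / e0) * (1 / e0) ≤ 32 * m ^ 2 * (32 / e0) * (Tp / 32) :=
          mul_le_mul_of_nonneg_left f3 (by positivity)
      _ = (m ^ 2 / 2) * (32 / e0) * (2 * Tp) := by ring
      _ ≤ (2 * m ^ 2 * Tp + 2 * m ^ 2 + 3) * (32 / e0) * (2 * Tp) := by
        apply mul_le_mul_of_nonneg_right _ (by positivity)
        apply mul_le_mul_of_nonneg_right _ (by positivity)
        have : 0 ≤ 2 * m ^ 2 * Tp := by positivity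
        linarith
  have e4 : 32 * m ^ 2 / e0 * (1 / N) ≤ e0 / 32 := by
    have f6 := mul_le_mul_of_nonneg_right f1 (show 0 ≤ e0 / 32 by positivity)
    have f5 : 32 * m ^ 2 / e0 * (1 / N) * (32 / e0) * (e0 / 32) = 32 * m ^ 2 / e0 * (1 / N) := by
      have : (32 / e0) * (e0 / 32) = 1 := by field_simp
      rw [mul_assoc _ (32 / e0) (e0 / 32), this, mul_one]
    rw [f5] at f6
    linarith
  rw [e2, e3] at e1
  linarith

/-- the final inequality -/
theorem final_ineqq (I0 I1 Dl Tp l w e0 et q N m : ℝ) (hl : 1 ≤ l) (hm : 1 ≤ m) (he0 : e0 = 1 / (18 * l))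
    (het : et = e0 / (16 * m ^ 2)) (hq : 1 ≤ q) (hN : 1 ≤ N) (hI0 : N ≤ I0) (hI01 : I0 ≤ I1)
    (hI1 : I1 ≤ 5 * m * q * N) (hD1 : et * N / 2 ≤ Dl) (hDone : 1 ≤ Dl)
    (hD2 : Dl ≤ et * N) (hw : 18 * w ≤ 5 * l - 1)
    (hd : 2 * I0 * (I1 - I0 - 1) ≤ m ^ 2 * (Tp * Dl + 1)) (hTp1 : 1 ≤ Tp)
    (hTp : 32 / e0 * ((2 + l) * (20 * q / et + 3)) ≤ Tp)
    (hNl : (2 * m ^ 2 * Tp + 2 * m ^ 2 + 3) * (32 / e0) * (2 * Tp) ≤ N)
    (h : (5 / 18 - e0 / 4) * Tp ≤ ((I1 - I0 + 1) / l + 1) * w * (2 * I1 / (m ^ 2 * Dl) + 3)) : False := by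
  have hl0 : 0 < l := by linarith
  have he : 0 < e0 := by rw [he0]; positivity
  have he1 : e0 ≤ 1 / 18 := by
    rw [he0]
    apply div_le_div_of_nonneg_left one_pos.le (by norm_num) (by linarith)
  have he0l : e0 * l = 1 / 18 := by
    rw [he0]; field_simp
  have hm2 : 1 ≤ m ^ 2 := one_le_pow₀ hm
  have hm20 : 0 < m ^ 2 := by linarith
  have het0 : 0 < et := by rw [het]; positivity
  have hetm : et * m ^ 2 = e0 / 16 := by rw [het]; field_simp
  have het1 : et ≤ 1 := by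
    have : et * 1 ≤ et * m ^ 2 := mul_le_mul_of_nonneg_left hm2 het0.le
    linarith
  have hDl0 : 0 < Dl := by linarith
  have hI00 : 0 < I0 := by linarith
  have hTp0 : 0 < Tp := by linarith
  have hN0 : 0 < N := by linarith
  -- `d = I1 - I0`
  obtain ⟨d, hdd⟩ : ∃ d : ℝ, d = I1 - I0 := ⟨_, rfl⟩
  have hd0 : 0 ≤ d := by linarith
  have hd1 : d ≤ 1 + m ^ 2 * (Tp * Dl + 1) / (2 * I0) := by
    have h1 : (d - 1) ≤ m ^ 2 * (Tp * Dl + 1) / (2 * I0) := by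
      rw [le_div_iff₀ (by positivity)]
      rw [hdd]
      linarith
    linarith
  have hDI : Dl / I0 ≤ et := by
    rw [div_le_iff₀ hI00]
    have : et * N ≤ et * I0 := mul_le_mul_of_nonneg_left hI0 het0.le
    linarith
  have hDI0 : 0 ≤ Dl / I0 := by positivity
  have hInv : 1 / I0 ≤ 1 / N := one_div_le_one_div_of_le hN0 hI0
  have hNbig : (2 * m ^ 2 * Tp + 2 * m ^ 2 + 3) * (32 / e0) * (2 * Tp) * (1 / N) ≤ 1 := by
    rw [mul_one_div, div_le_one hN0]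
    exact hNl
  obtain ⟨z, hz⟩ : ∃ z : ℝ, z = 1 / I0 := ⟨_, rfl⟩
  have hz0 : 0 < z := by rw [hz]; positivity
  have hzN : (2 * m ^ 2 * Tp + 2 * m ^ 2 + 3) * (2 * Tp) * z ≤ e0 / 32 := by
    have h1 : (2 * m ^ 2 * Tp + 2 * m ^ 2 + 3) * (32 / e0) * (2 * Tp) * z ≤ 1 := by
      refine le_trans ?_ hNbig
      rw [hz]
      exact mul_le_mul_of_nonneg_left hInv (by positivity)
    have h2 : (2 * m ^ 2 * Tp + 2 * m ^ 2 + 3) * (2 * Tp) * z =
        e0 / 32 * ((2 * m ^ 2 * Tp + 2 * m ^ 2 + 3) * (32 / e0) * (2 * Tp) * z) := by field_simp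
    rw [h2]
    have h3 := mul_le_mul_of_nonneg_left h1 (show 0 ≤ e0 / 32 by positivity)
    linarith
  -- the bound
  have hw1 : w ≤ (5 / 18 - e0) * l := by
    have : (5 / 18 - e0) * l = 5 / 18 * l - 1 / 18 := by rw [sub_mul, he0l]
    rw [this]; linarith
  have h1 : ((I1 - I0 + 1) / l + 1) * w ≤ (5 / 18 - e0) * (d + 1 + l) := by
    have h2 : ((I1 - I0 + 1) / l + 1) * w ≤ ((I1 - I0 + 1) / l + 1) * ((5 / 18 - e0) * l) := by
      apply mul_le_mul_of_nonneg_left hw1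
      rw [← hdd]; positivity
    refine h2.trans (le_of_eq ?_)
    rw [← hdd]
    field_simp
  have hI10 : 0 ≤ I1 := by linarith
  have hE : 0 ≤ 2 * I1 / (m ^ 2 * Dl) + 3 := by positivity
  have h2 : (d + 1 + l) * (2 * I1 / (m ^ 2 * Dl) + 3) ≤ (1 + e0 / 2) * Tp := by
    have h3 : (d + 1 + l) ≤ (2 + l) + m ^ 2 * (Tp * Dl + 1) / (2 * I0) := by linarith
    have h4 : 2 * I1 / (m ^ 2 * Dl) ≤ 20 * q / et := by
      rw [div_le_div_iff₀ (by positivity) het0]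
      have h6 : et * N ≤ 2 * Dl := by linarith
      have h7 : m * q * (et * N) ≤ m * q * (2 * Dl) := mul_le_mul_of_nonneg_left h6 (by positivity)
      have h8 : m ≤ m ^ 2 := le_self_pow₀ hm two_ne_zero
      have h9 : m * (q * Dl) ≤ m ^ 2 * (q * Dl) := mul_le_mul_of_nonneg_right h8 (by positivity)
      calc 2 * I1 * et ≤ 2 * (5 * m * q * N) * et := by gcongr
        _ = 10 * (m * q * (et * N)) := by ring
        _ ≤ 10 * (m * q * (2 * Dl)) := by linarith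
        _ = 20 * (m * (q * Dl)) := by ring
        _ ≤ 20 * (m ^ 2 * (q * Dl)) := by linarith
        _ = 20 * q * (m ^ 2 * Dl) := by ring
    have h5 : (d + 1 + l) * (2 * I1 / (m ^ 2 * Dl) + 3) ≤
        (2 + l) * (2 * I1 / (m ^ 2 * Dl) + 3) +
          m ^ 2 * (Tp * Dl + 1) / (2 * I0) * (2 * I1 / (m ^ 2 * Dl) + 3) := by
      rw [← add_mul]
      exact mul_le_mul_of_nonneg_right h3 hE
    have h6 : (2 + l) * (2 * I1 / (m ^ 2 * Dl) + 3) ≤ e0 / 32 * Tp := by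
      have h7 : (2 + l) * (2 * I1 / (m ^ 2 * Dl) + 3) ≤ (2 + l) * (20 * q / et + 3) := by
        apply mul_le_mul_of_nonneg_left _ (by linarith)
        linarith
      have h8 : e0 / 32 * (32 / e0 * ((2 + l) * (20 * q / et + 3))) = (2 + l) * (20 * q / et + 3) := by
        field_simp
      have h9 := mul_le_mul_of_nonneg_left hTp (show 0 ≤ e0 / 32 by positivity)
      linarith
    -- the main part
    have h7 : m ^ 2 * (Tp * Dl + 1) / (2 * I0) * (2 * I1 / (m ^ 2 * Dl) + 3) =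
        (Tp + 1 / Dl) * (1 + d * z) + 3 / 2 * (m ^ 2 * (Tp * (Dl / I0) + z)) := by
      have : I1 = I0 + d := by linarith
      rw [this, hz]
      field_simp
    have h8 : d ≤ 1 + m ^ 2 * (Tp * 1 + 1) := by
      refine hd1.trans ?_
      have e1 : m ^ 2 * (Tp * Dl + 1) / (2 * I0) = m ^ 2 * (Tp * (Dl / I0) + 1 / I0) / 2 := by
        field_simp
      have e2 : Tp * (Dl / I0) ≤ Tp * 1 := mul_le_mul_of_nonneg_left (hDI.trans het1) hTp0.le
      have e3 : 1 / I0 ≤ 1 := by rw [div_le_one hI00]; linarith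
      have e4 : m ^ 2 * (Tp * (Dl / I0) + 1 / I0) ≤ m ^ 2 * (Tp * 1 + 1) :=
        mul_le_mul_of_nonneg_left (by linarith) hm20.le
      have e5 : 0 ≤ m ^ 2 * (Tp * 1 + 1) := by positivity
      rw [e1]
      linarith
    have h9 : d * z ≤ (1 + m ^ 2 * (Tp * 1 + 1)) * z := mul_le_mul_of_nonneg_right h8 hz0.le
    have h10 : (Tp + 1 / Dl) * (1 + d * z) ≤ Tp + 1 / Dl + 2 * Tp * (d * z) := by
      have e1 : 1 / Dl ≤ Tp := by
        have : 1 / Dl ≤ 1 := by rw [div_le_one hDl0]; exact hDone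
        linarith
      have e2 : 0 ≤ d * z := by positivity
      have e3 : 1 / Dl * (d * z) ≤ Tp * (d * z) := mul_le_mul_of_nonneg_right e1 e2
      have e4 : (Tp + 1 / Dl) * (1 + d * z) = Tp + 1 / Dl + Tp * (d * z) + 1 / Dl * (d * z) := by ring
      rw [e4]
      linarith
    have h11 : 2 * Tp * (d * z) ≤ e0 / 32 := by
      have e1 : 2 * Tp * (d * z) ≤ 2 * Tp * ((1 + m ^ 2 * (Tp * 1 + 1)) * z) :=
        mul_le_mul_of_nonneg_left h9 (by positivity)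
      have e2 : 2 * Tp * ((1 + m ^ 2 * (Tp * 1 + 1)) * z) ≤
          (2 * m ^ 2 * Tp + 2 * m ^ 2 + 3) * (2 * Tp) * z := by
        have e3 : (1 + m ^ 2 * (Tp * 1 + 1)) ≤ 2 * m ^ 2 * Tp + 2 * m ^ 2 + 3 := by
          have e5 : 1 + m ^ 2 * (Tp * 1 + 1) = 1 + m ^ 2 * Tp + m ^ 2 := by ring
          have e6 : 0 ≤ m ^ 2 * Tp := by positivity
          linarith
        have e4 : (1 + m ^ 2 * (Tp * 1 + 1)) * (2 * Tp * z) ≤ (2 * m ^ 2 * Tp + 2 * m ^ 2 + 3) * (2 * Tp * z) :=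
          mul_le_mul_of_nonneg_right e3 (by positivity)
        linarith
      linarith
    have h12 : m ^ 2 * (Tp * (Dl / I0)) ≤ e0 / 16 * Tp := by
      have e1 : m ^ 2 * (Tp * (Dl / I0)) ≤ m ^ 2 * (Tp * et) := by
        apply mul_le_mul_of_nonneg_left _ hm20.le
        exact mul_le_mul_of_nonneg_left hDI hTp0.le
      have e2 : m ^ 2 * (Tp * et) = e0 / 16 * Tp := by rw [← hetm]; ring
      linarith
    have h13 : m ^ 2 * z ≤ e0 / 32 := by
      have e1 : m ^ 2 * z ≤ (2 * m ^ 2 * Tp + 2 * m ^ 2 + 3) * (2 * Tp) * z := by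
        apply mul_le_mul_of_nonneg_right _ hz0.le
        have e2 : m ^ 2 * 1 ≤ (2 * m ^ 2 * Tp + 2 * m ^ 2 + 3) * (2 * Tp) := by
          apply mul_le_mul _ (by linarith) (by norm_num) (by positivity)
          have e6 : 0 ≤ 2 * m ^ 2 * Tp := by positivity
          linarith
        linarith
      linarith
    have h14 : 1 / Dl ≤ e0 / 32 := small_inv Dl Tp l e0 et q N m (by linarith) hm he het hq hN0 hD1 hDl0 hTp1 hTp hNbig
    rw [h7] at h5
    have h15 : e0 / 32 ≤ e0 / 32 * Tp := le_mul_of_one_le_right (by positivity) hTp1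
    have h16 : m ^ 2 * (Tp * (Dl / I0) + z) = m ^ 2 * (Tp * (Dl / I0)) + m ^ 2 * z := by ring
    rw [h16] at h5
    have h17 : (1 + e0 / 2) * Tp = Tp + 16 * (e0 / 32 * Tp) := by ring
    have h18 : e0 / 16 * Tp = 2 * (e0 / 32 * Tp) := by ring
    rw [h17]
    rw [h18] at h12
    linarith
  have h3 : (5 / 18 - e0 / 4) * Tp ≤ (5 / 18 - e0) * ((1 + e0 / 2) * Tp) := by
    refine h.trans ?_
    calc ((I1 - I0 + 1) / l + 1) * w * (2 * I1 / (m ^ 2 * Dl) + 3) ≤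
        (5 / 18 - e0) * (d + 1 + l) * (2 * I1 / (m ^ 2 * Dl) + 3) := mul_le_mul_of_nonneg_right h1 hE
      _ = (5 / 18 - e0) * ((d + 1 + l) * (2 * I1 / (m ^ 2 * Dl) + 3)) := by ring
      _ ≤ _ := mul_le_mul_of_nonneg_left h2 (by linarith)
  have h4 : (5 / 18 - e0) * ((1 + e0 / 2) * Tp) < (5 / 18 - e0 / 4) * Tp := by
    have h5 : (5 / 18 - e0) * (1 + e0 / 2) < 5 / 18 - e0 / 4 := by nlinarith
    calc (5 / 18 - e0) * ((1 + e0 / 2) * Tp) = (5 / 18 - e0) * (1 + e0 / 2) * Tp := by ring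
      _ < _ := mul_lt_mul_of_pos_right h5 hTp0
  linarith

end Pool.Agent.N743.MT
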