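import Pool.Agent.N743.MT.Sq

/-!
# Clusters of primes in five eighteenths of consecutive intervals `√y ∈ (i / m, (i + 1) / m)`
-/

set_option autoImplicit false

namespace Pool.Agent.N743.MT

open Finset Filter Topology

open Classical in
/-- the interval `(⌊i²/m²⌋, ⌊(i+1)²/m²⌋)` contains at least `c i / (log i) ^ D` numbers `y` such that `[y, y + C]`
is contained in the interval and contains at least `k` primes of the class `a` modulo `q` -/
def Richq (m q a k C D : ℕ) (c : ℝ) (i : ℕ) : Prop :=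
  c * (i / Real.log i ^ D) ≤ (((Ioo (Fq m i) (Fq m (i + 1))).filter
    (fun y => y + C < Fq m (i + 1) ∧ Cluster q a k C y)).card : ℝ)

open Classical in
/-- there are few clusters near the ends or in intervals which are not rich -/
theorem bad_countq (m q a k C D N B Y : ℕ) (c : ℝ) (hm : 1 ≤ m) (hc : 0 ≤ c) (hN : 2 ≤ N) :
    (((range Y).filter (fun y => N ≤ pq m y ∧ pq m y ≤ B ∧ Cluster q a k C y ∧
      ¬ (Fq m (pq m y) < y ∧ y + C < Fq m (pq m y + 1) ∧ Richq m q a k C D c (pq m y)))).card : ℝ) ≤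
      (B + 1) * (C + 1 + c * (B / Real.log N ^ D)) := by
  have hsub : (range Y).filter (fun y => N ≤ pq m y ∧ pq m y ≤ B ∧ Cluster q a k C y ∧
      ¬ (Fq m (pq m y) < y ∧ y + C < Fq m (pq m y + 1) ∧ Richq m q a k C D c (pq m y))) ⊆
      (Icc N B).biUnion (fun i => (({Fq m i} : Finset ℕ) ∪ Ico (Fq m (i + 1) - C) (Fq m (i + 1))) ∪
        (if Richq m q a k C D c i then ∅ else (Ioo (Fq m i) (Fq m (i + 1))).filter
          (fun y => y + C < Fq m (i + 1) ∧ Cluster q a k C y))) := by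
    intro y hy
    rw [mem_filter] at hy
    obtain ⟨-, h1, h2, h3, h4⟩ := hy
    rw [mem_biUnion]
    refine ⟨pq m y, mem_Icc.2 ⟨h1, h2⟩, ?_⟩
    have h5 := pq_le m y hm
    have h6 := lt_pq m y hm
    rw [mem_union, mem_union, mem_singleton, mem_Ico]
    by_cases h7 : Fq m (pq m y) < y
    · by_cases h8 : y + C < Fq m (pq m y + 1)
      · right
        have h9 : ¬ Richq m q a k C D c (pq m y) := fun h => h4 ⟨h7, h8, h⟩
        rw [if_neg h9, mem_filter, mem_Ioo]
        exact ⟨⟨h7, h6⟩, h8, h3⟩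
      · left; right
        omega
    · left; left
      omega
  have hL : 0 < Real.log N := Real.log_pos (by exact_mod_cast (by omega : 1 < N))
  have hX : 0 ≤ c * ((B : ℝ) / Real.log N ^ D) := by positivity
  have h1 : ∀ i ∈ Icc N B, (((({Fq m i} : Finset ℕ) ∪ Ico (Fq m (i + 1) - C) (Fq m (i + 1))) ∪
        (if Richq m q a k C D c i then ∅ else (Ioo (Fq m i) (Fq m (i + 1))).filter
          (fun y => y + C < Fq m (i + 1) ∧ Cluster q a k C y))).card : ℝ) ≤
      C + 1 + c * (B / Real.log N ^ D) := by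
    intro i hi
    rw [mem_Icc] at hi
    have h2 : ((({Fq m i} : Finset ℕ) ∪ Ico (Fq m (i + 1) - C) (Fq m (i + 1)))).card ≤ C + 1 := by
      refine (card_union_le _ _).trans ?_
      rw [card_singleton, Nat.card_Ico]
      omega
    have h3 : (((if Richq m q a k C D c i then ∅ else (Ioo (Fq m i) (Fq m (i + 1))).filter
          (fun y => y + C < Fq m (i + 1) ∧ Cluster q a k C y)) : Finset ℕ).card : ℝ) ≤
          c * (B / Real.log N ^ D) := by
      split_ifs with h4
      · rw [card_empty]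
        push_cast
        exact hX
      · unfold Richq at h4
        push Not at h4
        refine h4.le.trans ?_
        have e1 : (i : ℝ) ≤ B := by exact_mod_cast hi.2
        have e2 : Real.log N ≤ Real.log i := Real.log_le_log (by exact_mod_cast (by omega : 0 < N))
          (by exact_mod_cast hi.1)
        apply mul_le_mul_of_nonneg_left _ hc
        apply div_le_div₀ (Nat.cast_nonneg B) e1 (by positivity)
        exact pow_le_pow_left₀ hL.le e2 D
    have h4 := card_union_le (({Fq m i} : Finset ℕ) ∪ Ico (Fq m (i + 1) - C) (Fq m (i + 1)))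
        (if Richq m q a k C D c i then ∅ else (Ioo (Fq m i) (Fq m (i + 1))).filter
          (fun y => y + C < Fq m (i + 1) ∧ Cluster q a k C y))
    have h5 : (((({Fq m i} : Finset ℕ) ∪ Ico (Fq m (i + 1) - C) (Fq m (i + 1))).card +
        (if Richq m q a k C D c i then ∅ else (Ioo (Fq m i) (Fq m (i + 1))).filter
          (fun y => y + C < Fq m (i + 1) ∧ Cluster q a k C y) : Finset ℕ).card : ℕ) : ℝ) ≤
        C + 1 + c * (B / Real.log N ^ D) := by
      rw [Nat.cast_add]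
      have h6 : (((({Fq m i} : Finset ℕ) ∪ Ico (Fq m (i + 1) - C) (Fq m (i + 1))).card : ℕ) : ℝ) ≤ C + 1 := by
        exact_mod_cast h2
      linarith
    exact le_trans (by exact_mod_cast h4) h5
  calc (((range Y).filter (fun y => N ≤ pq m y ∧ pq m y ≤ B ∧ Cluster q a k C y ∧
      ¬ (Fq m (pq m y) < y ∧ y + C < Fq m (pq m y + 1) ∧ Richq m q a k C D c (pq m y)))).card : ℝ) ≤
      ∑ i ∈ Icc N B, (((({Fq m i} : Finset ℕ) ∪ Ico (Fq m (i + 1) - C) (Fq m (i + 1))) ∪
        (if Richq m q a k C D c i then ∅ else (Ioo (Fq m i) (Fq m (i + 1))).filter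
          (fun y => y + C < Fq m (i + 1) ∧ Cluster q a k C y))).card : ℝ) := by
        have := (card_le_card hsub).trans card_biUnion_le
        exact_mod_cast this
    _ ≤ ∑ _i ∈ Icc N B, (C + 1 + c * (B / Real.log N ^ D)) := sum_le_sum h1
    _ = ((Icc N B).card : ℝ) * (C + 1 + c * (B / Real.log N ^ D)) := by rw [sum_const, nsmul_eq_mul]
    _ ≤ _ := by
      apply mul_le_mul_of_nonneg_right _ (by positivity)
      rw [Nat.card_Icc]
      have : B + 1 - N ≤ B + 1 := by omega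
      exact_mod_cast this

open Classical in
/-- **Five eighteenths of the intervals.** -/
theorem sq_rich (k l m q a : ℕ) (hl : 1 ≤ l) (hm : 1 ≤ m) (hq : 1 ≤ q) (ha : a.Coprime q) : ∃ C D : ℕ, ∃ c : ℝ,
    0 < c ∧ ∀ᶠ N : ℕ in atTop, ∃ i : ℕ, N ≤ i ∧ i + l ≤ 6 * (m * q) * N ∧
      5 * l ≤ 18 * ((range l).filter (fun j => Richq m q a k C D c (i + j))).card := by
  have hl0 : (0 : ℝ) < l := by exact_mod_cast hl
  have hl1 : (1 : ℝ) ≤ l := by exact_mod_cast hl
  have hq1 : (1 : ℝ) ≤ q := by exact_mod_cast hq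
  have hm1 : (1 : ℝ) ≤ m := by exact_mod_cast hm
  obtain ⟨B, hB⟩ : ∃ B : ℕ, B = m * q := ⟨_, rfl⟩
  rw [← hB]
  have hB1 : 1 ≤ B := by rw [hB]; exact Nat.mul_pos hm hq
  have hB1r : (1 : ℝ) ≤ B := by exact_mod_cast hB1
  obtain ⟨e0, he0⟩ : ∃ e0 : ℝ, e0 = 1 / (18 * l) := ⟨_, rfl⟩
  have he : 0 < e0 := by rw [he0]; positivity
  have he1 : e0 ≤ 1 / 18 := by
    rw [he0]
    apply div_le_div_of_nonneg_left one_pos.le (by norm_num) (by linarith)
  obtain ⟨et, het⟩ : ∃ et : ℝ, et = e0 / (16 * m ^ 2) := ⟨_, rfl⟩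
  have het0 : 0 < et := by rw [het]; positivity
  have het1 : et ≤ 1 := by
    rw [het, div_le_one (by positivity)]
    have : (1 : ℝ) ≤ (m : ℝ) ^ 2 := one_le_pow₀ hm1
    linarith
  obtain ⟨Tp, hTp⟩ := exists_nat_ge (max 1 (32 / e0 * ((2 + l) * (20 * q / et + 3))))
  have hTp1' : (1 : ℝ) ≤ Tp := (le_max_left _ _).trans hTp
  have hTp1 : 1 ≤ Tp := by exact_mod_cast hTp1'
  have hTp0 : (0 : ℝ) < Tp := by linarith
  obtain ⟨C, D, hC1, -, c₀, hc₀, hE⟩ := positions k Tp q a hTp1 hq ha (e0 / 4) (by positivity)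
  obtain ⟨c, hc⟩ : ∃ c : ℝ, c = c₀ * 16 / (3 ^ D * (120 * Tp * B ^ 2)) := ⟨_, rfl⟩
  have hc0 : 0 < c := by rw [hc]; positivity
  refine ⟨C, D, c, hc0, ?_⟩
  have hC0 : (0 : ℝ) < C := by exact_mod_cast hC1
  have ht1 : Tendsto (fun N : ℕ => 16 * N ^ 2) atTop atTop := by
    apply tendsto_atTop_mono (fun N => ?_) tendsto_id
    show N ≤ 16 * N ^ 2
    have := Nat.le_self_pow two_ne_zero N
    omega
  have hlogD : ∀ᶠ N : ℕ in atTop, 6 * Tp * B * (C + 1) * 3 ^ D / (4 * c₀) * Real.log N ^ D < N := by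
    have h1 := (Real.isLittleO_pow_log_id_atTop (n := D)).def
      (c := 1 / (2 * (6 * Tp * B * (C + 1) * 3 ^ D / (4 * c₀)))) (by positivity)
    filter_upwards [tendsto_natCast_atTop_atTop.eventually h1, eventually_ge_atTop 1] with N h2 h3
    have h4 : (1 : ℝ) ≤ N := by exact_mod_cast h3
    rw [Real.norm_of_nonneg (pow_nonneg (Real.log_nonneg h4) D), id, Real.norm_of_nonneg (by linarith)] at h2
    have h5 : 0 < 6 * Tp * B * (C + 1) * 3 ^ D / (4 * c₀) := by positivity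
    calc 6 * Tp * B * (C + 1) * 3 ^ D / (4 * c₀) * Real.log N ^ D ≤
        6 * Tp * B * (C + 1) * 3 ^ D / (4 * c₀) * (1 / (2 * (6 * Tp * B * (C + 1) * 3 ^ D / (4 * c₀))) * N) :=
          mul_le_mul_of_nonneg_left h2 h5.le
      _ = N / 2 := by field_simp
      _ < N := by linarith
  obtain ⟨N1, hN1⟩ := exists_nat_ge (max (2 * C / et) ((2 * m ^ 2 * Tp + 2 * m ^ 2 + 3) * (32 / e0) * (2 * Tp)))
  filter_upwards [ht1.eventually hE, hlogD, eventually_ge_atTop (N1 + 16 + a + Tp + l)] with N hE hlogD hNbig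
  by_contra hcon
  push Not at hcon
  have hN16 : 16 ≤ N := by omega
  have hNr : (16 : ℝ) ≤ N := by exact_mod_cast hN16
  have hN0 : (0 : ℝ) < N := by linarith
  have hNN1 : (N1 : ℝ) ≤ N := by exact_mod_cast (by omega : N1 ≤ N)
  have hNC : 2 * C / et ≤ N := ((le_max_left _ _).trans hN1).trans hNN1
  have hNl : (2 * (m : ℝ) ^ 2 * Tp + 2 * m ^ 2 + 3) * (32 / e0) * (2 * Tp) ≤ N :=
    ((le_max_right _ _).trans hN1).trans hNN1
  have hL : 0 < Real.log N := Real.log_pos (by linarith)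
  -- the step
  obtain ⟨r, hr⟩ : ∃ r : ℕ, r = ⌊et * N / C⌋₊ := ⟨_, rfl⟩
  obtain ⟨Dl, hDl⟩ : ∃ Dl : ℕ, Dl = C * r := ⟨_, rfl⟩
  have hD2 : (Dl : ℝ) ≤ et * N := by
    have h1 : (r : ℝ) ≤ et * N / C := by rw [hr]; exact Nat.floor_le (by positivity)
    rw [le_div_iff₀ hC0] at h1
    rw [hDl]; push_cast; linarith
  have hD1 : et * N / 2 ≤ Dl := by
    have h1 : et * N / C < r + 1 := by rw [hr]; exact Nat.lt_floor_add_one _
    rw [div_lt_iff₀ hC0] at h1
    rw [div_le_iff₀ het0] at hNC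
    rw [hDl]; push_cast
    nlinarith
  have hDl0r : (0 : ℝ) < Dl := lt_of_lt_of_le (by positivity) hD1
  have hDl0 : 0 < Dl := by exact_mod_cast hDl0r
  have hDlN : Dl ≤ N := by
    have : (Dl : ℝ) ≤ N := hD2.trans (by nlinarith)
    exact_mod_cast this
  have hTpN : Tp * Dl ≤ N ^ 2 := by
    calc Tp * Dl ≤ N * N := Nat.mul_le_mul (by omega) hDlN
      _ = N ^ 2 := by ring
  obtain ⟨S, hS1, hS2⟩ := hE (fun j : Fin Tp => (j : ℕ) * Dl)
    (fun i j hij => Fin.ext (Nat.eq_of_mul_eq_mul_right hDl0 hij))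
    (fun j => by rw [hDl]; exact Dvd.dvd.mul_left (dvd_mul_right C r) _)
    (fun j => by
      have h1 : (j : ℕ) * Dl ≤ Tp * Dl := Nat.mul_le_mul_right _ j.2.le
      omega)
  set E : Finset ℕ := (Icc 1 (16 * N ^ 2)).filter (fun n : ℕ => ((16 * N ^ 2 : ℕ) : ℝ) / 16 ≤ n ∧
          ∀ j ∈ S, Cluster q a k C (q * n + a + (j : ℕ) * Dl)) with hEdef
  -- range of the positions
  have hpos : ∀ n ∈ E, ∀ j ≤ Tp, N ≤ pq m (q * n + a + j * Dl) ∧ pq m (q * n + a + j * Dl) ≤ 5 * B * N ∧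
      q * n + a + j * Dl < 18 * q * N ^ 2 := by
    intro n hn j hj
    rw [hEdef, mem_filter, mem_Icc] at hn
    obtain ⟨⟨hn1, hn2⟩, hn3, -⟩ := hn
    have h1 : N ^ 2 ≤ n := by
      have : (N : ℝ) ^ 2 ≤ n := by
        push_cast at hn3
        linarith
      exact_mod_cast this
    have h2 : n ≤ q * n := Nat.le_mul_of_pos_left n (by omega)
    have h3 : j * Dl ≤ Tp * Dl := Nat.mul_le_mul_right _ hj
    have hNN : 16 * N ≤ N ^ 2 := by
      rw [sq]
      exact Nat.mul_le_mul_right N hN16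
    have h4 : a ≤ N ^ 2 := by omega
    have h5 : q * n ≤ q * (16 * N ^ 2) := Nat.mul_le_mul_left _ hn2
    have h6 : N ^ 2 ≤ q * N ^ 2 := Nat.le_mul_of_pos_left _ (by omega)
    have ha' : 2 * a + 2 < N ^ 2 := by omega
    have h9 : q * (16 * N ^ 2) = 16 * (q * N ^ 2) := by ring
    have h10 : 18 * q * N ^ 2 = 18 * (q * N ^ 2) := by ring
    have hm0 : 0 < m ^ 2 := by positivity
    refine ⟨?_, ?_, ?_⟩
    · unfold pq
      rw [Nat.le_sqrt']
      have h7 : q * n + a + j * Dl + 1 ≤ m ^ 2 * (q * n + a + j * Dl + 1) := Nat.le_mul_of_pos_left _ hm0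
      omega
    · unfold pq
      rw [← Nat.lt_succ_iff, Nat.sqrt_lt']
      have h7 : (5 * B * N).succ ^ 2 = 25 * (m ^ 2 * (q ^ 2 * N ^ 2)) + 10 * (B * N) + 1 := by
        rw [Nat.succ_eq_add_one, hB]; ring
      rw [h7]
      have h8 : q * N ^ 2 ≤ q ^ 2 * N ^ 2 := Nat.mul_le_mul_right _ (Nat.le_self_pow two_ne_zero q)
      have h11 : q * n + a + j * Dl + 1 ≤ 18 * (q ^ 2 * N ^ 2) := by omega
      have h12 : m ^ 2 * (q * n + a + j * Dl + 1) ≤ m ^ 2 * (18 * (q ^ 2 * N ^ 2)) := Nat.mul_le_mul_left _ h11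
      have h13 : m ^ 2 * (18 * (q ^ 2 * N ^ 2)) = 18 * (m ^ 2 * (q ^ 2 * N ^ 2)) := by ring
      omega
    · omega
  -- the bad elements
  set Good : ℕ → Prop := fun y => Fq m (pq m y) < y ∧ y + C < Fq m (pq m y + 1) ∧
    Richq m q a k C D c (pq m y) with hGood
  set Bad : Finset ℕ := E.filter (fun n => ∃ j ∈ S, ¬ Good (q * n + a + (j : ℕ) * Dl)) with hBad
  have hBadle : (Bad.card : ℝ) ≤ Tp * (((5 * B * N : ℕ) + 1) * (C + 1 + c * ((5 * B * N : ℕ) / Real.log N ^ D))) := by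
    have h1 : Bad ⊆ S.biUnion (fun j => E.filter (fun n => ¬ Good (q * n + a + (j : ℕ) * Dl))) := by
      intro n hn
      rw [hBad, mem_filter] at hn
      obtain ⟨hn1, j, hj, hn2⟩ := hn
      rw [mem_biUnion]
      exact ⟨j, hj, mem_filter.2 ⟨hn1, hn2⟩⟩
    have h2 : ∀ j ∈ S, ((E.filter (fun n => ¬ Good (q * n + a + (j : ℕ) * Dl))).card : ℝ) ≤
        ((5 * B * N : ℕ) + 1) * (C + 1 + c * ((5 * B * N : ℕ) / Real.log N ^ D)) := by
      intro j hj
      refine le_trans ?_ (bad_countq m q a k C D N (5 * B * N) (18 * q * N ^ 2) c hm hc0.le (by omega))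
      rw [Nat.cast_le]
      refine Finset.card_le_card_of_injOn (fun n => q * n + a + (j : ℕ) * Dl) ?_ ?_
      · intro n hn
        rw [mem_coe, mem_filter] at hn
        obtain ⟨hn1, hn2⟩ := hn
        obtain ⟨h3, h4, h5⟩ := hpos n hn1 j j.2.le
        rw [hEdef, mem_filter] at hn1
        rw [mem_coe, mem_filter, mem_range]
        exact ⟨h5, h3, h4, hn1.2.2 j hj, hn2⟩
      · intro n _ n' _ hnn
        simp only at hnn
        have h3 : q * n = q * n' := by omega
        exact Nat.eq_of_mul_eq_mul_left (by omega) h3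
    have h3 : (Bad.card : ℝ) ≤ ∑ j ∈ S, ((E.filter (fun n => ¬ Good (q * n + a + (j : ℕ) * Dl))).card : ℝ) := by
      have := (card_le_card h1).trans card_biUnion_le
      exact_mod_cast this
    refine h3.trans ((sum_le_sum h2).trans ?_)
    rw [sum_const, nsmul_eq_mul]
    apply mul_le_mul_of_nonneg_right _ (by positivity)
    have h4 := card_le_univ S
    rw [Fintype.card_fin] at h4
    exact_mod_cast h4
  have hEbig : (Bad.card : ℝ) < E.card := by
    refine lt_of_le_of_lt hBadle (lt_of_lt_of_le ?_ hS2)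
    have hlog16 : Real.log ((16 * N ^ 2 : ℕ) : ℝ) ≤ 3 * Real.log N := by
      push_cast
      rw [Real.log_mul (by norm_num) (by positivity), Real.log_pow]
      have := Real.log_le_log (by norm_num) hNr
      push_cast
      linarith
    have hlog0 : 0 < Real.log ((16 * N ^ 2 : ℕ) : ℝ) := by
      apply Real.log_pos
      have h1 := Nat.le_self_pow two_ne_zero N
      exact_mod_cast (by omega : 1 < 16 * N ^ 2)
    have h1 : Real.log ((16 * N ^ 2 : ℕ) : ℝ) ^ D ≤ 3 ^ D * Real.log N ^ D := by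
      rw [← mul_pow]
      exact pow_le_pow_left₀ hlog0.le hlog16 D
    have h2 : c₀ * (16 * N ^ 2 / (3 ^ D * Real.log N ^ D)) ≤
        c₀ * (((16 * N ^ 2 : ℕ) : ℝ) / Real.log ((16 * N ^ 2 : ℕ) : ℝ) ^ D) := by
      apply mul_le_mul_of_nonneg_left _ hc₀.le
      push_cast at h1 ⊢
      apply div_le_div_of_nonneg_left (by positivity) _ h1
      have := hlog0
      push_cast at this
      positivity
    refine lt_of_lt_of_le ?_ h2
    push_cast
    have hLD : 0 < Real.log N ^ D := by positivity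
    have h3 : (5 * (B : ℝ) * N + 1) ≤ 6 * B * N := by nlinarith
    have h4 : 6 * Tp * B * (C + 1) * N < 1 / 4 * (c₀ * (16 * N ^ 2 / (3 ^ D * Real.log N ^ D))) := by
      have h5 : 1 / 4 * (c₀ * (16 * (N : ℝ) ^ 2 / (3 ^ D * Real.log N ^ D))) =
          (4 * c₀ / (3 ^ D * Real.log N ^ D)) * N * N := by ring
      rw [h5]
      apply mul_lt_mul_of_pos_right _ hN0
      have h6 : 6 * Tp * B * (C + 1) = (4 * c₀ / (3 ^ D * Real.log N ^ D)) *
          (6 * Tp * B * (C + 1) * 3 ^ D / (4 * c₀) * Real.log N ^ D) := by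
        field_simp
      rw [h6]
      exact mul_lt_mul_of_pos_left hlogD (by positivity)
    have h5 : Tp * (6 * B * N * (c * (5 * B * N / Real.log N ^ D))) =
        1 / 4 * (c₀ * (16 * N ^ 2 / (3 ^ D * Real.log N ^ D))) := by
      rw [hc]
      field_simp
      ring
    have h6 : 0 < c₀ * (16 * (N : ℝ) ^ 2 / (3 ^ D * Real.log N ^ D)) := by positivity
    calc (Tp : ℝ) * ((5 * B * N + 1) * (C + 1 + c * (5 * B * N / Real.log N ^ D))) ≤
        Tp * ((6 * B * N) * (C + 1 + c * (5 * B * N / Real.log N ^ D))) := by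
          apply mul_le_mul_of_nonneg_left _ hTp0.le
          exact mul_le_mul_of_nonneg_right h3 (by positivity)
      _ = 6 * Tp * B * (C + 1) * N + Tp * (6 * B * N * (c * (5 * B * N / Real.log N ^ D))) := by ring
      _ < _ := by rw [h5]; linarith
  -- a good element
  obtain ⟨n, hnE, hnB⟩ : ∃ n ∈ E, n ∉ Bad := by
    by_contra hall
    push Not at hall
    have h1 : E.card ≤ Bad.card := card_le_card hall
    have h2 : (E.card : ℝ) ≤ Bad.card := by exact_mod_cast h1
    linarith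
  have hgood : ∀ j ∈ S, Good (q * n + a + (j : ℕ) * Dl) := by
    intro j hj
    by_contra h1
    exact hnB (by rw [hBad, mem_filter]; exact ⟨hnE, j, hj, h1⟩)
  set x : ℕ := q * n + a with hx
  have hSle : S.card ≤ ((range Tp).filter (fun j => Richq m q a k C D c (pq m (x + j * Dl)))).card := by
    refine Finset.card_le_card_of_injOn (fun j : Fin Tp => (j : ℕ)) ?_ (fun i _ j _ h => Fin.ext h)
    intro j hj
    rw [mem_coe, mem_filter, mem_range]
    exact ⟨j.2, (hgood j hj).2.2⟩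
  obtain ⟨w, hw⟩ : ∃ w : ℕ, w = (5 * l - 1) / 18 := ⟨_, rfl⟩
  have hi0 := hpos n hnE 0 (Nat.zero_le _)
  rw [zero_mul, add_zero] at hi0
  have hi1 := hpos n hnE Tp le_rfl
  rw [← hx] at hi0 hi1
  have hrt := rich_termsq m hm (Richq m q a k C D c) l w Tp x Dl hl hDl0 (by
    intro i h1 h2
    have h3 := hcon i (hi0.1.trans h1) (by
      have h4 : 5 * B * N + N ≤ 6 * B * N := by
        have h5 : N ≤ B * N := Nat.le_mul_of_pos_left _ (by omega)
        have h6 : 5 * B * N = 5 * (B * N) := by ring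
        have h7 : 6 * B * N = 6 * (B * N) := by ring
        omega
      have h5 := h2.trans hi1.2.1
      omega)
    rw [hw]
    omega)
  have hmono : pq m x ≤ pq m (x + Tp * Dl) := pq_mono (by omega)
  have hdiff : 2 * (pq m x : ℝ) * ((pq m (x + Tp * Dl) : ℝ) - pq m x - 1) ≤ (m : ℝ) ^ 2 * (Tp * Dl + 1) := by
    rcases Nat.eq_or_lt_of_le hmono with h1 | h1
    · rw [← h1]
      have h2 : (0 : ℝ) ≤ pq m x := Nat.cast_nonneg _
      have h3 : (0 : ℝ) ≤ (m : ℝ) ^ 2 * (Tp * Dl + 1) := by positivity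
      have h4 : 2 * (pq m x : ℝ) * ((pq m x : ℝ) - pq m x - 1) = - (2 * pq m x) := by ring
      rw [h4]
      linarith
    · obtain ⟨d, hd⟩ := Nat.exists_eq_add_of_le (show pq m x + 1 ≤ pq m (x + Tp * Dl) from h1)
      have h2 := Fq_add m (pq m x + 1) d hm
      rw [← hd] at h2
      have h3 := pq_le m (x + Tp * Dl) hm
      have h4 := lt_pq m x hm
      have h5 : 2 * (pq m x + 1) * d / m ^ 2 < Tp * Dl + 1 := by omega
      rw [Nat.div_lt_iff_lt_mul (by positivity)] at h5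
      have h7 : 2 * pq m x * d ≤ m ^ 2 * (Tp * Dl + 1) := by
        calc 2 * pq m x * d ≤ 2 * (pq m x + 1) * d := Nat.mul_le_mul_right _ (by omega)
          _ ≤ (Tp * Dl + 1) * m ^ 2 := h5.le
          _ = _ := mul_comm _ _
      have h8 : (pq m (x + Tp * Dl) : ℝ) - pq m x - 1 = d := by
        rw [hd]; push_cast; ring
      rw [h8]
      exact_mod_cast h7
  refine final_ineqq (pq m x) (pq m (x + Tp * Dl)) Dl Tp l w e0 et q N m hl1 hm1 he0 het hq1 (by linarith)
    (by exact_mod_cast hi0.1) (by exact_mod_cast hmono) ?_ hD1 (by exact_mod_cast hDl0) hD2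
    ?_ hdiff hTp1' ((le_max_right _ _).trans hTp) hNl ?_
  · have h1 : ((pq m (x + Tp * Dl) : ℕ) : ℝ) ≤ ((5 * B * N : ℕ) : ℝ) := by exact_mod_cast hi1.2.1
    refine h1.trans (le_of_eq ?_)
    rw [hB]; push_cast; ring
  · have h1 : 18 * w ≤ 5 * l - 1 := by rw [hw]; omega
    have h2 : 18 * w + 1 ≤ 5 * l := by omega
    have h3 : (18 * (w : ℝ) + 1) ≤ 5 * l := by exact_mod_cast h2
    linarith
  · have h1 : (S.card : ℝ) ≤ (((range Tp).filter (fun j => Richq m q a k C D c (pq m (x + j * Dl)))).card : ℝ) := by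
      exact_mod_cast hSle
    refine (hS1.trans (h1.trans hrt)).trans (le_of_eq ?_)
    have h2 : ((pq m (x + Tp * Dl) - pq m x + 1 : ℕ) : ℝ) = (pq m (x + Tp * Dl) : ℝ) - pq m x + 1 := by
      push_cast [Nat.cast_sub hmono]
      ring
    rw [h2]

end Pool.Agent.N743.MT
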