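import Pool.Agent.TH977.PW.Inst

/-!
# Upper bounds of the right order for rough values of linear forms in short intervals

Adaptation of `Pool.Agent.X34.E.E18` (linear forms with integral constants, any finite index type).
-/

set_option autoImplicit false

open Finset Filter

namespace Pool.Agent.N743.MT

open Pool.Agent.W123.RP Pool.Agent.H373R2.T7 Pool.Agent.W123.RU Pool.Agent.W123.RU.Poly
open Pool.Agent.TH464.PW
open Pool.Agent.W182.PW

/-- the values of the linear forms at `n` are free of the primes `≤ X ^ δ` -/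
def Rgl {ι : Type} (δ : ℝ) (X : ℕ) (a : ι → ℕ) (b : ι → ℤ) (n : ℕ) : Prop :=
  ∀ i, ∀ p : ℕ, p.Prime → Real.log p ≤ δ * Real.log X → ¬ (p : ℤ) ∣ (a i : ℤ) * n + b i

open Classical in
/-- the upper bound of the right order of magnitude for the rough integers in a short interval -/
theorem rough_upper {ι : Type} [Fintype ι] [Nonempty ι] (a : ι → ℕ) (b : ι → ℤ)
    (hsys : Sys (fun i => lin (a i) (b i))) (δ θ : ℝ) (hδ : 0 < δ)
    (hθ : 0 < θ) (hθ1 : θ ≤ 1) : ∃ C : ℝ, 0 < C ∧ ∀ᶠ X : ℕ in atTop, ∀ u H : ℕ, (X : ℝ) ^ θ ≤ H → H ≤ X →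
      u ≤ 3 * X → ((((Ioc u (u + H)).filter (fun n => Rgl δ X a b n)).card : ℕ) : ℝ) ≤
        C * (H / Real.log X ^ (Fintype.card ι)) := by
  obtain ⟨K1, hK1, h⟩ := Pool.Agent.TH977.PW.upper_input (fun i => lin (a i) (b i))
    hsys (θ / 2) (by positivity) (by linarith)
  set r : ℕ := max K1 ⌈2 / δ⌉₊ with hr
  have hrκ : 2 / δ ≤ r := (Nat.le_ceil _).trans (by exact_mod_cast le_max_right _ _)
  have hr0 : (0 : ℝ) < r := lt_of_lt_of_le (by positivity) hrκ
  obtain ⟨C1, C2, hC1, -, h1⟩ := h r (le_max_left _ _)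
  obtain ⟨X0, hX0⟩ := eventually_atTop.1 (h1 1 one_pos)
  refine ⟨C1 / θ ^ (Fintype.card ι), by positivity, ?_⟩
  have hpow : ∀ᶠ X : ℕ in atTop, (X0 : ℝ) + 4 ≤ (X : ℝ) ^ θ :=
    ((tendsto_rpow_atTop hθ).comp tendsto_natCast_atTop_atTop).eventually_ge_atTop _
  filter_upwards [hpow, eventually_ge_atTop 4] with X hXp hX4 u H hH1 hH2 hu
  have hX4r : (4 : ℝ) ≤ X := by exact_mod_cast hX4
  have hXpos : (0 : ℝ) < X := by linarith
  have hlX : 0 < Real.log X := Real.log_pos (by linarith)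
  set X' : ℕ := u + H with hX'
  have hHr : (H : ℝ) ≤ X := by exact_mod_cast hH2
  have hH0 : (0 : ℝ) < H := lt_of_lt_of_le (by positivity) hH1
  have hX'1 : (H : ℝ) ≤ X' := by exact_mod_cast (by omega : H ≤ X')
  have hX'0 : X0 ≤ X' := by
    have : (X0 : ℝ) ≤ X' := by linarith
    exact_mod_cast this
  have hX'4 : (X' : ℝ) ≤ (X : ℝ) ^ (2 : ℝ) := by
    have h2 : X' ≤ 4 * X := by omega
    have h3 : (X' : ℝ) ≤ 4 * X := by exact_mod_cast h2
    rw [Real.rpow_two, sq]
    nlinarith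
  have hX'pos : (0 : ℝ) < X' := by linarith
  obtain ⟨-, -, h3, -⟩ := hX0 X' hX'0 H (by
    calc (X' : ℝ) ^ (θ / 2) ≤ ((X : ℝ) ^ (2 : ℝ)) ^ (θ / 2) :=
          Real.rpow_le_rpow hX'pos.le hX'4 (by positivity)
      _ = (X : ℝ) ^ θ := by
          rw [← Real.rpow_mul hXpos.le]
          congr 1
          ring
      _ ≤ H := hH1) (by omega)
  have hsub : ((Ioc u (u + H)).filter (fun n => Rgl δ X a b n)).card ≤
      co (Rgh (fun i => lin (a i) (b i)) r X' H) 0 (4 * H) := by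
    unfold co
    have hinj : Set.InjOn (fun n => n - u)
        (((Ioc u (u + H)).filter (fun n => Rgl δ X a b n) : Finset ℕ) : Set ℕ) := by
      intro a ha b hb hab
      rw [mem_coe, mem_filter, mem_Ioc] at ha hb
      simp only at hab
      omega
    rw [← card_image_of_injOn hinj]
    apply card_le_card
    intro m hm
    obtain ⟨n, hn, rfl⟩ := mem_image.1 hm
    rw [mem_filter, mem_Ioc] at hn
    obtain ⟨⟨h4, h5⟩, h6⟩ := hn
    rw [mem_filter, mem_Ioc]
    refine ⟨⟨by omega, by omega⟩, ?_⟩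
    intro p hp hq
    obtain ⟨i, hi⟩ := hq
    have hpp := (mem_pz.1 hp).2
    have h7 := (mem_pz.1 hp).1
    have e1 : n - u + (X' - H) = n := by omega
    rw [e1, lin_eval] at hi
    refine h6 i p hpp ?_ hi
    have h8 : (p : ℝ) ≤ (X' : ℝ) ^ (1 / (r : ℝ)) := by
      exact (Nat.le_floor_iff (by positivity)).1 h7
    have h9 : (p : ℝ) ≤ (X : ℝ) ^ δ := by
      refine h8.trans ?_
      calc (X' : ℝ) ^ (1 / (r : ℝ)) ≤ ((X : ℝ) ^ (2 : ℝ)) ^ (1 / (r : ℝ)) :=
            Real.rpow_le_rpow hX'pos.le hX'4 (by positivity)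
        _ = (X : ℝ) ^ (2 / (r : ℝ)) := by
            rw [← Real.rpow_mul hXpos.le]
            congr 1
            ring
        _ ≤ (X : ℝ) ^ δ := by
            apply Real.rpow_le_rpow_of_exponent_le (by linarith)
            rw [div_le_iff₀ hr0]
            rw [div_le_iff₀ hδ] at hrκ
            linarith
    rw [← Real.log_rpow hXpos]
    exact Real.log_le_log (by exact_mod_cast hpp.pos) h9
  have hlog : θ * Real.log X ≤ Real.log X' := by
    rw [← Real.log_rpow hXpos]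
    exact Real.log_le_log (by positivity) (hH1.trans hX'1)
  calc ((((Ioc u (u + H)).filter (fun n => Rgl δ X a b n)).card : ℕ) : ℝ) ≤
        (co (Rgh (fun i => lin (a i) (b i)) r X' H) 0 (4 * H) : ℝ) := by
          exact_mod_cast hsub
    _ ≤ C1 * H / Real.log X' ^ (Fintype.card ι) := h3
    _ ≤ C1 * H / (θ * Real.log X) ^ (Fintype.card ι) := by
          apply div_le_div_of_nonneg_left (by positivity) (by positivity)
          exact pow_le_pow_left₀ (by positivity) hlog _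
    _ = C1 / θ ^ (Fintype.card ι) * (H / Real.log X ^ (Fintype.card ι)) := by
          rw [mul_pow]
          field_simp

open Classical in
/-- the same for finitely many systems at once -/
theorem rough_upper_fin {ι : Type} [Fintype ι] [Nonempty ι] (a : ι → ℕ) (b : ℕ → ι → ℤ) (s₀ : ℕ) (δ θ : ℝ)
    (hδ : 0 < δ) (hθ : 0 < θ) (hθ1 : θ ≤ 1) : ∃ C : ℝ, 0 < C ∧ ∀ᶠ X : ℕ in atTop, ∀ s ∈ range (s₀ + 1),
      Sys (fun i => lin (a i) (b s i)) → ∀ u H : ℕ, (X : ℝ) ^ θ ≤ H → H ≤ X →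
      u ≤ 3 * X → ((((Ioc u (u + H)).filter (fun n => Rgl δ X a (b s) n)).card : ℕ) : ℝ) ≤
        C * (H / Real.log X ^ (Fintype.card ι)) := by
  have h : ∀ s : ℕ, ∃ C : ℝ, 0 < C ∧ ∀ᶠ X : ℕ in atTop,
      Sys (fun i => lin (a i) (b s i)) → ∀ u H : ℕ, (X : ℝ) ^ θ ≤ H → H ≤ X →
      u ≤ 3 * X → ((((Ioc u (u + H)).filter (fun n => Rgl δ X a (b s) n)).card : ℕ) : ℝ) ≤
        C * (H / Real.log X ^ (Fintype.card ι)) := by
    intro s
    by_cases hs : Sys (fun i => lin (a i) (b s i))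
    · obtain ⟨C, hC, h⟩ := rough_upper a (b s) hs δ θ hδ hθ hθ1
      exact ⟨C, hC, h.mono fun X hX _ => hX⟩
    · exact ⟨1, one_pos, Eventually.of_forall fun X hs' => absurd hs' hs⟩
  choose C hC hh using h
  refine ⟨∑ s ∈ range (s₀ + 1), C s, sum_pos (fun s _ => hC s) ⟨0, mem_range.2 (by omega)⟩, ?_⟩
  rw [Filter.eventually_all_finset]
  intro s hs
  filter_upwards [hh s, eventually_ge_atTop 2] with X hX hX2 hsys u H h1 h2 h3
  refine (hX hsys u H h1 h2 h3).trans (mul_le_mul_of_nonneg_right ?_ ?_)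
  · exact single_le_sum (f := C) (fun i _ => (hC i).le) hs
  · have : 0 ≤ Real.log (X : ℝ) := Real.log_natCast_nonneg X
    positivity

end Pool.Agent.N743.MT
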